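import Mathlib
import Pool.Agent.Helper697.PythDefs

/-!
Edge-unfolding nets of the unit cube, and congruence of sets of unit squares of the grid.
A unit square is given by its lower left corner.
-/

set_option autoImplicit false

namespace Pool.Agent.R170.Net

open Set Pool.Agent.Helper697.Rep

/-- `N` is an edge-unfolding net of the unit cube: a polyomino that folds onto the surface of the
unit cube, one-to-one apart from identifications of boundary points, with no crease inside a
square (each unit square is mapped isometrically). -/
def IsEdgeNet (N : Finset (ℤ × ℤ)) : Prop :=
  IsPolyomino N ∧ ∃ f : Plane → Space, ContinuousOn f (region N) ∧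
    f '' region N = cubeSurface 1 ∧
    (∀ x ∈ interior (region N), ∀ y ∈ region N, f x = f y → x = y) ∧
    ∀ c ∈ N, ∀ x ∈ square c, ∀ y ∈ square c, dist (f x) (f y) = dist x y

/-- The complement of the polyomino is connected through shared edges of unit squares: there are
no holes (and no two squares of the polyomino touch at a corner only), so that the boundary of the
polyomino is a simple closed curve. -/
def NoHoles (P : Finset (ℤ × ℤ)) : Prop :=
  ∀ c ∉ P, ∀ d ∉ P, Relation.ReflTransGen (fun a b => a ∉ P ∧ b ∉ P ∧ EdgeAdj a b) c d

/-- `B` is the image of `A` under a rotation by a multiple of a right angle followed by a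
translation of the square grid (a set of unit squares is given by their lower left corners). -/
def SameOneSided (A B : Finset (ℤ × ℤ)) : Prop :=
  ∃ a b s t : ℤ, a * a + b * b = 1 ∧
    B = A.image (fun c => (a * c.1 - b * c.2 + s, b * c.1 + a * c.2 + t))

/-- squared distance of the centres of two squares -/
def sqd (c d : ℤ × ℤ) : ℤ := (c.1 - d.1) ^ 2 + (c.2 - d.2) ^ 2

/-- `A` and `B` are congruent (reflections allowed): a bijection of the set of all unit squares of
the grid that preserves the distances of the centres takes `A` to `B`. -/
def Congruent (A B : Finset (ℤ × ℤ)) : Prop :=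
  ∃ g : (ℤ × ℤ) ≃ (ℤ × ℤ), (∀ c d, sqd (g c) (g d) = sqd c d) ∧ B = A.map g.toEmbedding

end Pool.Agent.R170.Net
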