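import Mathlib
import Pool.Agent.Helper697.RepData
import Pool.Agent.Helper697.PythScale
import Pool.Agent.R170.NetDefs

/-!
Edge-unfolding nets of the unit cube: from the folding map to integer data.
-/

set_option autoImplicit false

namespace Pool.Agent.R170.Net

open Set Pool.Agent.Helper697.Rep

/-- a lattice point -/
noncomputable def lp (v : ℤ × ℤ) : Plane := !₂[(v.1 : ℝ), (v.2 : ℝ)]

/-- the centre of a cell -/
noncomputable def mp (v : ℤ × ℤ) : Plane := !₂[(v.1 : ℝ) + 1 / 2, (v.2 : ℝ) + 1 / 2]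

lemma dist3 (x y : Space) : dist x y ^ 2 = (x 0 - y 0) ^ 2 + (x 1 - y 1) ^ 2 + (x 2 - y 2) ^ 2 := by
  rw [EuclideanSpace.dist_eq, Real.sq_sqrt (by positivity), Fin.sum_univ_three]
  simp only [Real.dist_eq, sq_abs]

lemma dist2 (x y : Plane) : dist x y ^ 2 = (x 0 - y 0) ^ 2 + (x 1 - y 1) ^ 2 := by
  rw [EuclideanSpace.dist_eq, Real.sq_sqrt (by positivity), Fin.sum_univ_two]
  simp only [Real.dist_eq, sq_abs]

lemma ssq {a b c : ℝ} (h : a ^ 2 + b ^ 2 + c ^ 2 = 0) : a = 0 ∧ b = 0 ∧ c = 0 := by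
  have ha := sq_nonneg a
  have hb := sq_nonneg b
  have hc := sq_nonneg c
  exact ⟨pow_eq_zero_iff (two_ne_zero) |>.1 (by linarith),
    pow_eq_zero_iff (two_ne_zero) |>.1 (by linarith),
    pow_eq_zero_iff (two_ne_zero) |>.1 (by linarith)⟩

lemma three (a : Fin 3 → ℝ) (h : a 0 + a 1 + a 2 = 2) (hl : ∀ j, a j ≤ 1) (i : Fin 3)
    (hi : a i = 0) : ∀ j, j = i ∨ a j = 1 := by
  have h0 := hl 0
  have h1 := hl 1
  have h2 := hl 2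
  intro j
  fin_cases i <;> fin_cases j <;> simp at hi ⊢ <;> linarith

/-- real coordinates version of a good square -/
lemma sq_aux {A B C D M : Space}
    (hA : ∀ i, 0 ≤ A i ∧ A i ≤ 1) (hB : ∀ i, 0 ≤ B i ∧ B i ≤ 1) (hC : ∀ i, 0 ≤ C i ∧ C i ≤ 1)
    (hD : ∀ i, 0 ≤ D i ∧ D i ≤ 1) (hM : ∃ i, M i = 0 ∨ M i = 1)
    (dAD : dist A D ^ 2 = 2) (dBC : dist B C ^ 2 = 2)
    (mA : dist M A ^ 2 = 1 / 2) (mB : dist M B ^ 2 = 1 / 2) (mC : dist M C ^ 2 = 1 / 2)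
    (mD : dist M D ^ 2 = 1 / 2) :
    (∀ i, A i + D i = 2 * M i ∧ B i + C i = 2 * M i) ∧
    (∃ i, A i = M i ∧ B i = M i ∧ C i = M i ∧ D i = M i) ∧
    (∀ i, (A i = 0 ∨ A i = 1) ∧ (B i = 0 ∨ B i = 1) ∧ (C i = 0 ∨ C i = 1) ∧
      (D i = 0 ∨ D i = 1)) := by
  rw [dist3] at dAD dBC mA mB mC mD
  have key : ∀ X Y : Space, (X 0 - Y 0) ^ 2 + (X 1 - Y 1) ^ 2 + (X 2 - Y 2) ^ 2 = 2 →
      (M 0 - X 0) ^ 2 + (M 1 - X 1) ^ 2 + (M 2 - X 2) ^ 2 = 1 / 2 →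
      (M 0 - Y 0) ^ 2 + (M 1 - Y 1) ^ 2 + (M 2 - Y 2) ^ 2 = 1 / 2 →
      ∀ i, X i + Y i = 2 * M i := by
    intro X Y h1 h2 h3
    have h : (2 * M 0 - X 0 - Y 0) ^ 2 + (2 * M 1 - X 1 - Y 1) ^ 2 +
        (2 * M 2 - X 2 - Y 2) ^ 2 = 0 := by
      linear_combination 2 * h2 + 2 * h3 - h1
    obtain ⟨e0, e1, e2⟩ := ssq h
    intro i
    fin_cases i
    · change X 0 + Y 0 = 2 * M 0; linarith
    · change X 1 + Y 1 = 2 * M 1; linarith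
    · change X 2 + Y 2 = 2 * M 2; linarith
  have k1 := key A D dAD mA mD
  have k2 := key B C dBC mB mC
  have key2 : ∀ X Y : Space, (∀ i, 0 ≤ X i ∧ X i ≤ 1) → (∀ i, 0 ≤ Y i ∧ Y i ≤ 1) →
      (X 0 - Y 0) ^ 2 + (X 1 - Y 1) ^ 2 + (X 2 - Y 2) ^ 2 = 2 → (∀ i, X i + Y i = 2 * M i) →
      ∀ i, (M i = 0 ∨ M i = 1) → (X i = M i ∧ Y i = M i) ∧
        ∀ j, (X j = 0 ∨ X j = 1) ∧ (Y j = 0 ∨ Y j = 1) := by
    intro X Y hX hY h1 h2 i hi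
    have hXi : X i = M i ∧ Y i = M i := by
      have a1 := hX i
      have a2 := hY i
      have a3 := h2 i
      rcases hi with h | h <;> constructor <;> linarith [a1.1, a1.2, a2.1, a2.2]
    refine ⟨hXi, ?_⟩
    have sqle : ∀ j, (X j - Y j) ^ 2 ≤ 1 := by
      intro j
      have a1 := hX j
      have a2 := hY j
      rw [sq_le_one_iff_abs_le_one, abs_le]
      constructor <;> linarith [a1.1, a1.2, a2.1, a2.2]
    have hzero : (X i - Y i) ^ 2 = 0 := by rw [hXi.1, hXi.2]; ring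
    have fin : ∀ j, (X j - Y j) ^ 2 = 1 → (X j = 0 ∨ X j = 1) ∧ (Y j = 0 ∨ Y j = 1) := by
      intro j hj
      have a1 := hX j
      have a2 := hY j
      have hj' : (X j - Y j - 1) * (X j - Y j + 1) = 0 := by linear_combination hj
      rcases mul_eq_zero.1 hj' with h | h
      · exact ⟨Or.inr (by linarith [a1.1, a1.2, a2.1, a2.2]),
          Or.inl (by linarith [a1.1, a1.2, a2.1, a2.2])⟩
      · exact ⟨Or.inl (by linarith [a1.1, a1.2, a2.1, a2.2]),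
          Or.inr (by linarith [a1.1, a1.2, a2.1, a2.2])⟩
    have mi : (X i = 0 ∨ X i = 1) ∧ (Y i = 0 ∨ Y i = 1) := by
      rw [hXi.1, hXi.2]; exact ⟨hi, hi⟩
    have tri := three (fun j => (X j - Y j) ^ 2) h1 sqle i hzero
    intro j
    rcases tri j with h | h
    · rw [h]; exact mi
    · exact fin j h
  obtain ⟨i, hi⟩ := hM
  obtain ⟨⟨a1, a2⟩, a3⟩ := key2 A D hA hD dAD k1 i hi
  obtain ⟨⟨b1, b2⟩, b3⟩ := key2 B C hB hC dBC k2 i hi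
  exact ⟨fun j => ⟨k1 j, k2 j⟩, ⟨i, a1, b1, b2, a2⟩,
    fun j => ⟨(a3 j).1, (b3 j).1, (b3 j).2, (a3 j).2⟩⟩

/-- integer point with given coordinates -/
noncomputable def flo (z : Space) : ℤ × ℤ × ℤ := (⌊z 0⌋, ⌊z 1⌋, ⌊z 2⌋)

lemma floor01 {t : ℝ} (h : t = 0 ∨ t = 1) : ((⌊t⌋ : ℤ) : ℝ) = t := by
  rcases h with h | h <;> rw [h] <;> simp

lemma floor01' {t : ℝ} (h : t = 0 ∨ t = 1) : ⌊t⌋ = 0 ∨ ⌊t⌋ = 1 := by
  rcases h with h | h <;> rw [h] <;> simp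

section

variable {N : Finset (ℤ × ℤ)} {f : Plane → Space}

lemma mem_lp (c : ℤ × ℤ) : lp c ∈ square c ∧ lp (c.1 + 1, c.2) ∈ square c ∧
    lp (c.1, c.2 + 1) ∈ square c ∧ lp (c.1 + 1, c.2 + 1) ∈ square c ∧ mp c ∈ square c := by
  unfold square lp mp
  refine ⟨⟨⟨?_, ?_⟩, ?_, ?_⟩, ⟨⟨?_, ?_⟩, ?_, ?_⟩, ⟨⟨?_, ?_⟩, ?_, ?_⟩, ⟨⟨?_, ?_⟩, ?_, ?_⟩,
    ⟨⟨?_, ?_⟩, ?_, ?_⟩⟩ <;> simp <;> norm_num

/-- the facts on one cell -/
structure CellFact (f : Plane → Space) (c : ℤ × ℤ) : Prop where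
  mid : ∀ i, f (lp c) i + f (lp (c.1 + 1, c.2 + 1)) i = 2 * f (mp c) i ∧
    f (lp (c.1 + 1, c.2)) i + f (lp (c.1, c.2 + 1)) i = 2 * f (mp c) i
  face : ∃ i, f (lp c) i = f (mp c) i ∧ f (lp (c.1 + 1, c.2)) i = f (mp c) i ∧
    f (lp (c.1, c.2 + 1)) i = f (mp c) i ∧ f (lp (c.1 + 1, c.2 + 1)) i = f (mp c) i
  int : ∀ i, (f (lp c) i = 0 ∨ f (lp c) i = 1) ∧
    (f (lp (c.1 + 1, c.2)) i = 0 ∨ f (lp (c.1 + 1, c.2)) i = 1) ∧
    (f (lp (c.1, c.2 + 1)) i = 0 ∨ f (lp (c.1, c.2 + 1)) i = 1) ∧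
    (f (lp (c.1 + 1, c.2 + 1)) i = 0 ∨ f (lp (c.1 + 1, c.2 + 1)) i = 1)

lemma cellFact (hf : f '' region N = cubeSurface 1)
    (hd : ∀ c ∈ N, ∀ x ∈ square c, ∀ y ∈ square c, dist (f x) (f y) = dist x y) {c : ℤ × ℤ}
    (hc : c ∈ N) : CellFact f c := by
  obtain ⟨p0, p1, p2, p3, p4⟩ := mem_lp c
  have hs : ∀ x ∈ square c, f x ∈ cubeSurface 1 := by
    intro x hx
    rw [← hf]
    exact ⟨x, mem_biUnion hc hx, rfl⟩
  have dd : ∀ x ∈ square c, ∀ y ∈ square c, dist (f x) (f y) ^ 2 = (x 0 - y 0) ^ 2 +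
      (x 1 - y 1) ^ 2 := by
    intro x hx y hy
    rw [hd c hc x hx y hy, dist2]
  obtain ⟨h1, h2, h3⟩ := sq_aux (hs _ p0).1 (hs _ p1).1 (hs _ p2).1 (hs _ p3).1 (hs _ p4).2
    (by rw [dd _ p0 _ p3]; simp [lp]; norm_num) (by rw [dd _ p1 _ p2]; simp [lp]; norm_num)
    (by rw [dd _ p4 _ p0]; simp [lp, mp]; norm_num) (by rw [dd _ p4 _ p1]; simp [lp, mp]; norm_num)
    (by rw [dd _ p4 _ p2]; simp [lp, mp]; norm_num) (by rw [dd _ p4 _ p3]; simp [lp, mp]; norm_num)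
  exact ⟨h1, h2, h3⟩

/-- the integer data of a folding -/
noncomputable def FF (f : Plane → Space) (v : ℤ × ℤ) : ℤ × ℤ × ℤ := flo (f (lp v))

lemma FF_cast {v : ℤ × ℤ} (h : ∀ i, f (lp v) i = 0 ∨ f (lp v) i = 1) :
    (((FF f v).1 : ℤ) : ℝ) = f (lp v) 0 ∧ (((FF f v).2.1 : ℤ) : ℝ) = f (lp v) 1 ∧
      (((FF f v).2.2 : ℤ) : ℝ) = f (lp v) 2 :=
  ⟨floor01 (h 0), floor01 (h 1), floor01 (h 2)⟩

lemma good_of_fact {c : ℤ × ℤ} (H : CellFact f c)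
    (d1 : dist (f (lp (c.1 + 1, c.2))) (f (lp c)) = dist (lp (c.1 + 1, c.2)) (lp c))
    (d2 : dist (f (lp (c.1, c.2 + 1))) (f (lp c)) = dist (lp (c.1, c.2 + 1)) (lp c))
    (d3 : dist (f (lp (c.1 + 1, c.2))) (f (lp (c.1, c.2 + 1))) =
      dist (lp (c.1 + 1, c.2)) (lp (c.1, c.2 + 1))) :
    GoodSq 1 (FF f c) (FF f (c.1 + 1, c.2)) (FF f (c.1, c.2 + 1)) (FF f (c.1 + 1, c.2 + 1)) := by
  have e1 := congrArg (· ^ 2) d1
  have e2 := congrArg (· ^ 2) d2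
  have e3 := congrArg (· ^ 2) d3
  simp only [dist3, dist2] at e1 e2 e3
  obtain ⟨a0, a1, a2⟩ := FF_cast (f := f) (v := c) fun i => (H.int i).1
  obtain ⟨b0, b1, b2⟩ := FF_cast (f := f) (v := (c.1 + 1, c.2)) fun i => (H.int i).2.1
  obtain ⟨c0, c1, c2⟩ := FF_cast (f := f) (v := (c.1, c.2 + 1)) fun i => (H.int i).2.2.1
  obtain ⟨g0, g1, g2⟩ := FF_cast (f := f) (v := (c.1 + 1, c.2 + 1)) fun i => (H.int i).2.2.2
  rw [← a0, ← a1, ← a2, ← b0, ← b1, ← b2] at e1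
  rw [← a0, ← a1, ← a2, ← c0, ← c1, ← c2] at e2
  rw [← b0, ← b1, ← b2, ← c0, ← c1, ← c2] at e3
  have r1 : (lp (c.1 + 1, c.2) 0 - lp c 0) ^ 2 + (lp (c.1 + 1, c.2) 1 - lp c 1) ^ 2 = 1 := by
    simp [lp]
  have r2 : (lp (c.1, c.2 + 1) 0 - lp c 0) ^ 2 + (lp (c.1, c.2 + 1) 1 - lp c 1) ^ 2 = 1 := by
    simp [lp]
  have r3 : (lp (c.1 + 1, c.2) 0 - lp (c.1, c.2 + 1) 0) ^ 2 +
      (lp (c.1 + 1, c.2) 1 - lp (c.1, c.2 + 1) 1) ^ 2 = 2 := by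
    simp [lp]; norm_num
  rw [r1] at e1
  rw [r2] at e2
  rw [r3] at e3
  have m0 := H.mid 0
  have m1 := H.mid 1
  have m2 := H.mid 2
  have i0 := H.int 0
  have i1 := H.int 1
  have i2 := H.int 2
  have s0 : f (lp (c.1 + 1, c.2 + 1)) 0 = f (lp (c.1 + 1, c.2)) 0 + f (lp (c.1, c.2 + 1)) 0 -
    f (lp c) 0 := by linarith [m0.1, m0.2]
  have s1 : f (lp (c.1 + 1, c.2 + 1)) 1 = f (lp (c.1 + 1, c.2)) 1 + f (lp (c.1, c.2 + 1)) 1 -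
    f (lp c) 1 := by linarith [m1.1, m1.2]
  have s2 : f (lp (c.1 + 1, c.2 + 1)) 2 = f (lp (c.1 + 1, c.2)) 2 + f (lp (c.1, c.2 + 1)) 2 -
    f (lp c) 2 := by linarith [m2.1, m2.2]
  have fl : ∀ t : ℝ, (t = 0 ∨ t = 1) → 0 ≤ ⌊t⌋ ∧ ⌊t⌋ ≤ 1 := by
    intro t ht
    rcases floor01' ht with h | h <;> rw [h] <;> norm_num
  obtain ⟨i, fi, gi, hi, ki⟩ := H.face
  refine ⟨?_, ?_, ?_, ?_, ?_, ?_, ?_, ?_, ?_, ?_, ?_⟩
  · have : ((FF f (c.1 + 1, c.2 + 1)).1 : ℝ) = (FF f (c.1 + 1, c.2)).1 +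
        (FF f (c.1, c.2 + 1)).1 - (FF f c).1 := by
      rw [g0, s0, ← a0, ← b0, ← c0]
    exact_mod_cast this
  · have : ((FF f (c.1 + 1, c.2 + 1)).2.1 : ℝ) = (FF f (c.1 + 1, c.2)).2.1 +
        (FF f (c.1, c.2 + 1)).2.1 - (FF f c).2.1 := by
      rw [g1, s1, ← a1, ← b1, ← c1]
    exact_mod_cast this
  · have : ((FF f (c.1 + 1, c.2 + 1)).2.2 : ℝ) = (FF f (c.1 + 1, c.2)).2.2 +
        (FF f (c.1, c.2 + 1)).2.2 - (FF f c).2.2 := by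
      rw [g2, s2, ← a2, ← b2, ← c2]
    exact_mod_cast this
  · have : (((FF f (c.1 + 1, c.2)).1 : ℝ) - (FF f c).1) * ((FF f (c.1 + 1, c.2)).1 - (FF f c).1) +
      ((FF f (c.1 + 1, c.2)).2.1 - (FF f c).2.1) * ((FF f (c.1 + 1, c.2)).2.1 - (FF f c).2.1) +
      ((FF f (c.1 + 1, c.2)).2.2 - (FF f c).2.2) * ((FF f (c.1 + 1, c.2)).2.2 - (FF f c).2.2) = 1 := by
      linear_combination e1
    exact_mod_cast this
  · have : (((FF f (c.1, c.2 + 1)).1 : ℝ) - (FF f c).1) * ((FF f (c.1, c.2 + 1)).1 - (FF f c).1) +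
      ((FF f (c.1, c.2 + 1)).2.1 - (FF f c).2.1) * ((FF f (c.1, c.2 + 1)).2.1 - (FF f c).2.1) +
      ((FF f (c.1, c.2 + 1)).2.2 - (FF f c).2.2) * ((FF f (c.1, c.2 + 1)).2.2 - (FF f c).2.2) = 1 := by
      linear_combination e2
    exact_mod_cast this
  · have : (((FF f (c.1 + 1, c.2)).1 : ℝ) - (FF f c).1) * ((FF f (c.1, c.2 + 1)).1 - (FF f c).1) +
      ((FF f (c.1 + 1, c.2)).2.1 - (FF f c).2.1) * ((FF f (c.1, c.2 + 1)).2.1 - (FF f c).2.1) +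
      ((FF f (c.1 + 1, c.2)).2.2 - (FF f c).2.2) * ((FF f (c.1, c.2 + 1)).2.2 - (FF f c).2.2) = 0 := by
      linear_combination (1 / 2) * e1 + (1 / 2) * e2 - (1 / 2) * e3
    exact_mod_cast this
  · exact ⟨(fl _ i0.1).1, (fl _ i0.1).2, (fl _ i1.1).1, (fl _ i1.1).2, (fl _ i2.1).1,
      (fl _ i2.1).2⟩
  · exact ⟨(fl _ i0.2.1).1, (fl _ i0.2.1).2, (fl _ i1.2.1).1, (fl _ i1.2.1).2, (fl _ i2.2.1).1,
      (fl _ i2.2.1).2⟩
  · exact ⟨(fl _ i0.2.2.1).1, (fl _ i0.2.2.1).2, (fl _ i1.2.2.1).1, (fl _ i1.2.2.1).2,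
      (fl _ i2.2.2.1).1, (fl _ i2.2.2.1).2⟩
  · exact ⟨(fl _ i0.2.2.2).1, (fl _ i0.2.2.2).2, (fl _ i1.2.2.2).1, (fl _ i1.2.2.2).2,
      (fl _ i2.2.2.2).1, (fl _ i2.2.2.2).2⟩
  · fin_cases i
    · have h1 : f (lp c) 0 = f (lp (c.1 + 1, c.2)) 0 := fi.trans gi.symm
      have h2 : f (lp c) 0 = f (lp (c.1, c.2 + 1)) 0 := fi.trans hi.symm
      left
      exact ⟨congrArg Int.floor h1, congrArg Int.floor h2, floor01' i0.1⟩
    · have h1 : f (lp c) 1 = f (lp (c.1 + 1, c.2)) 1 := fi.trans gi.symm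
      have h2 : f (lp c) 1 = f (lp (c.1, c.2 + 1)) 1 := fi.trans hi.symm
      right; left
      exact ⟨congrArg Int.floor h1, congrArg Int.floor h2, floor01' i1.1⟩
    · have h1 : f (lp c) 2 = f (lp (c.1 + 1, c.2)) 2 := fi.trans gi.symm
      have h2 : f (lp c) 2 = f (lp (c.1, c.2 + 1)) 2 := fi.trans hi.symm
      right; right
      exact ⟨congrArg Int.floor h1, congrArg Int.floor h2, floor01' i2.1⟩

lemma mp_interior {c : ℤ × ℤ} (hc : c ∈ N) : mp c ∈ interior (region N) := by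
  rw [mem_interior]
  refine ⟨{x : Plane | ((c.1 : ℝ) < x 0 ∧ x 0 < (c.1 : ℝ) + 1) ∧
    ((c.2 : ℝ) < x 1 ∧ x 1 < (c.2 : ℝ) + 1)}, ?_, ?_, ?_⟩
  · intro x hx
    exact mem_biUnion hc ⟨⟨hx.1.1.le, hx.1.2.le⟩, hx.2.1.le, hx.2.2.le⟩
  · have h0 : Continuous fun p : Plane => p 0 := by fun_prop
    have h1 : Continuous fun p : Plane => p 1 := by fun_prop
    exact ((isOpen_lt continuous_const h0).inter (isOpen_lt h0 continuous_const)).inter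
      ((isOpen_lt continuous_const h1).inter (isOpen_lt h1 continuous_const))
  · unfold mp
    refine ⟨⟨?_, ?_⟩, ?_, ?_⟩ <;> simp <;> norm_num

/-- twice the image of the centre -/
lemma ctr_eq {c : ℤ × ℤ} (H : CellFact f c) :
    (((ctr (FF f) c).1 : ℤ) : ℝ) = 2 * f (mp c) 0 ∧
    (((ctr (FF f) c).2.1 : ℤ) : ℝ) = 2 * f (mp c) 1 ∧
    (((ctr (FF f) c).2.2 : ℤ) : ℝ) = 2 * f (mp c) 2 := by
  obtain ⟨a0, a1, a2⟩ := FF_cast (f := f) (v := c) fun i => (H.int i).1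
  obtain ⟨g0, g1, g2⟩ := FF_cast (f := f) (v := (c.1 + 1, c.2 + 1)) fun i => (H.int i).2.2.2
  refine ⟨?_, ?_, ?_⟩
  · rw [← (H.mid 0).1, ← a0, ← g0]; simp [ctr]
  · rw [← (H.mid 1).1, ← a1, ← g1]; simp [ctr]
  · rw [← (H.mid 2).1, ← a2, ← g2]; simp [ctr]

lemma ctr_injOn (hf : f '' region N = cubeSurface 1)
    (hi : ∀ x ∈ interior (region N), ∀ y ∈ region N, f x = f y → x = y)
    (hd : ∀ c ∈ N, ∀ x ∈ square c, ∀ y ∈ square c, dist (f x) (f y) = dist x y) {c d : ℤ × ℤ}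
    (hc : c ∈ N) (hd' : d ∈ N) (h : ctr (FF f) c = ctr (FF f) d) : c = d := by
  obtain ⟨a0, a1, a2⟩ := ctr_eq (cellFact hf hd hc)
  obtain ⟨b0, b1, b2⟩ := ctr_eq (cellFact hf hd hd')
  rw [h] at a0 a1 a2
  have e : f (mp c) = f (mp d) := by
    ext i
    fin_cases i
    · change f (mp c) 0 = f (mp d) 0; linarith
    · change f (mp c) 1 = f (mp d) 1; linarith
    · change f (mp c) 2 = f (mp d) 2; linarith
  have e2 := hi _ (mp_interior hc) _ (mem_biUnion hd' (mem_lp d).2.2.2.2) e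
  have e3 : mp c 0 = mp d 0 := by rw [e2]
  have e4 : mp c 1 = mp d 1 := by rw [e2]
  simp only [mp, PiLp.toLp_apply, Matrix.cons_val_zero, Matrix.cons_val_one,
    Matrix.cons_val_fin_one] at e3 e4
  ext
  · exact_mod_cast (add_right_cancel e3)
  · exact_mod_cast (add_right_cancel e4)

lemma face_fin {z0 z1 z2 : ℝ} {A0 A1 A2 m0 m1 m2 : ℤ}
    (hm : IsCtr 1 (m0, m1, m2)) (h0 : 2 * z0 = m0) (h1 : 2 * z1 = m1) (h2 : 2 * z2 = m2) :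
    ((z0 - A0) ^ 2 = 0 → m0 = 2 * A0 ∧ m1 = 1 ∧ m2 = 1) ∧
    ((z1 - A1) ^ 2 = 0 → m0 = 1 ∧ m1 = 2 * A1 ∧ m2 = 1) ∧
    ((z2 - A2) ^ 2 = 0 → m0 = 1 ∧ m1 = 1 ∧ m2 = 2 * A2) := by
  unfold IsCtr at hm
  simp only at hm
  refine ⟨fun h => ?_, fun h => ?_, fun h => ?_⟩
  · have e : z0 = A0 := by
      have := pow_eq_zero_iff (two_ne_zero) |>.1 h
      linarith
    have e2 : m0 = 2 * A0 := by rw [e] at h0; exact_mod_cast h0.symm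
    omega
  · have e : z1 = A1 := by
      have := pow_eq_zero_iff (two_ne_zero) |>.1 h
      linarith
    have e2 : m1 = 2 * A1 := by rw [e] at h1; exact_mod_cast h1.symm
    omega
  · have e : z2 = A2 := by
      have := pow_eq_zero_iff (two_ne_zero) |>.1 h
      linarith
    have e2 : m2 = 2 * A2 := by rw [e] at h2; exact_mod_cast h2.symm
    omega

lemma face_aux {A0 A1 A2 B0 B1 B2 C0 C1 C2 m0 m1 m2 : ℤ} {z0 z1 z2 s t : ℝ}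
    (n1 : (B0 - A0) * (B0 - A0) + (B1 - A1) * (B1 - A1) + (B2 - A2) * (B2 - A2) = 1)
    (n2 : (C0 - A0) * (C0 - A0) + (C1 - A1) * (C1 - A1) + (C2 - A2) * (C2 - A2) = 1)
    (n3 : (B0 - A0) * (C0 - A0) + (B1 - A1) * (C1 - A1) + (B2 - A2) * (C2 - A2) = 0)
    (rA : 0 ≤ A0 ∧ A0 ≤ 1 ∧ 0 ≤ A1 ∧ A1 ≤ 1 ∧ 0 ≤ A2 ∧ A2 ≤ 1)
    (rB : 0 ≤ B0 ∧ B0 ≤ 1 ∧ 0 ≤ B1 ∧ B1 ≤ 1 ∧ 0 ≤ B2 ∧ B2 ≤ 1)
    (rC : 0 ≤ C0 ∧ C0 ≤ 1 ∧ 0 ≤ C1 ∧ C1 ≤ 1 ∧ 0 ≤ C2 ∧ C2 ≤ 1)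
    (e1 : (z0 - A0) ^ 2 + (z1 - A1) ^ 2 + (z2 - A2) ^ 2 = s ^ 2 + t ^ 2)
    (e2 : (z0 - B0) ^ 2 + (z1 - B1) ^ 2 + (z2 - B2) ^ 2 = (s - 1) ^ 2 + t ^ 2)
    (e3 : (z0 - C0) ^ 2 + (z1 - C1) ^ 2 + (z2 - C2) ^ 2 = s ^ 2 + (t - 1) ^ 2)
    (hm : IsCtr 1 (m0, m1, m2)) (h0 : 2 * z0 = m0) (h1 : 2 * z1 = m1) (h2 : 2 * z2 = m2) :
    m0 = B0 + C0 ∧ m1 = B1 + C1 ∧ m2 = B2 + C2 := by
  obtain ⟨F0, F1, F2⟩ := face_fin (A0 := A0) (A1 := A1) (A2 := A2) hm h0 h1 h2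
  have n1' : ((B0 : ℝ) - A0) * (B0 - A0) + (B1 - A1) * (B1 - A1) + (B2 - A2) * (B2 - A2) = 1 := by
    exact_mod_cast n1
  have n2' : ((C0 : ℝ) - A0) * (C0 - A0) + (C1 - A1) * (C1 - A1) + (C2 - A2) * (C2 - A2) = 1 := by
    exact_mod_cast n2
  have hE : (z0 - A0) * (B0 - A0) + (z1 - A1) * (B1 - A1) + (z2 - A2) * (B2 - A2) = s := by
    linear_combination (1 / 2) * e1 - (1 / 2) * e2 + (1 / 2) * n1'
  have hG : (z0 - A0) * (C0 - A0) + (z1 - A1) * (C1 - A1) + (z2 - A2) * (C2 - A2) = t := by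
    linear_combination (1 / 2) * e1 - (1 / 2) * e3 + (1 / 2) * n2'
  rw [← hE, ← hG] at e1
  clear e2 e3 hE hG n1' n2'
  have cast : ∀ {X Y Z : ℤ}, X - Y = Z → (X : ℝ) - Y = Z := by
    intro X Y Z h
    rw [← h]; push_cast; ring
  rcases unit_cases n1 with ⟨a, b, c⟩ | ⟨a, b, c⟩ | ⟨a, b, c⟩ | ⟨a, b, c⟩ | ⟨a, b, c⟩ | ⟨a, b, c⟩ <;>
  rcases unit_cases n2 with ⟨a', b', c'⟩ | ⟨a', b', c'⟩ | ⟨a', b', c'⟩ | ⟨a', b', c'⟩ |
    ⟨a', b', c'⟩ | ⟨a', b', c'⟩ <;> rw [a, b, c, a', b', c'] at n3 <;> first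
    | (exfalso; norm_num at n3; done)
    | (rw [cast a, cast b, cast c, cast a', cast b', cast c'] at e1
       first
       | (have := F0 (by push_cast at e1; linear_combination e1); omega)
       | (have := F1 (by push_cast at e1; linear_combination e1); omega)
       | (have := F2 (by push_cast at e1; linear_combination e1); omega))

/-- a point of a cell is mapped into the face of that cell -/
lemma face_of_mem {c : ℤ × ℤ} (H : CellFact f c)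
    (hG : GoodSq 1 (FF f c) (FF f (c.1 + 1, c.2)) (FF f (c.1, c.2 + 1)) (FF f (c.1 + 1, c.2 + 1)))
    {x : Plane}
    (hd : ∀ y ∈ square c, dist (f x) (f y) = dist x y) {m : ℤ × ℤ × ℤ} (hm : IsCtr 1 m)
    (h0 : 2 * f x 0 = m.1) (h1 : 2 * f x 1 = m.2.1) (h2 : 2 * f x 2 = m.2.2) :
    ctr (FF f) c = m := by
  obtain ⟨p0, p1, p2, p3, p4⟩ := mem_lp c
  obtain ⟨a0, a1, a2⟩ := FF_cast (f := f) (v := c) fun i => (H.int i).1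
  obtain ⟨b0, b1, b2⟩ := FF_cast (f := f) (v := (c.1 + 1, c.2)) fun i => (H.int i).2.1
  obtain ⟨c0, c1, c2⟩ := FF_cast (f := f) (v := (c.1, c.2 + 1)) fun i => (H.int i).2.2.1
  have e1 := congrArg (· ^ 2) (hd _ p0)
  have e2 := congrArg (· ^ 2) (hd _ p1)
  have e3 := congrArg (· ^ 2) (hd _ p2)
  simp only [dist3, dist2] at e1 e2 e3
  rw [← a0, ← a1, ← a2] at e1
  rw [← b0, ← b1, ← b2] at e2
  rw [← c0, ← c1, ← c2] at e3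
  simp only [lp, PiLp.toLp_apply, Matrix.cons_val_zero, Matrix.cons_val_one,
    Matrix.cons_val_fin_one] at e1 e2 e3
  push_cast at e2 e3
  obtain ⟨m0, m1, m2⟩ := m
  simp only at h0 h1 h2
  obtain ⟨g0, g1, g2, n1, n2, n3, rA, rB, rC, rD, -⟩ := hG
  obtain ⟨k0, k1, k2⟩ := face_aux (s := x 0 - c.1) (t := x 1 - c.2) n1 n2 n3 rA rB rC e1
    (by rw [e2]; ring) (by rw [e3]; ring) hm h0 h1 h2
  have d : ctr (FF f) c = FF f c + FF f (c.1 + 1, c.2 + 1) := rfl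
  rw [d]
  ext
  · change (FF f c).1 + (FF f (c.1 + 1, c.2 + 1)).1 = m0
    rw [g0, k0]; ring
  · change (FF f c).2.1 + (FF f (c.1 + 1, c.2 + 1)).2.1 = m1
    rw [g1, k1]; ring
  · change (FF f c).2.2 + (FF f (c.1 + 1, c.2 + 1)).2.2 = m2
    rw [g2, k2]; ring

end

/-- an edge-unfolding net has a folding along grid lines, in integer data -/
theorem IsEdgeNet.gridFold {N : Finset (ℤ × ℤ)} (h : IsEdgeNet N) : ∃ F, GridFold N 1 F := by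
  obtain ⟨-, f, -, hf, hi, hd⟩ := h
  have hG : ∀ c ∈ N, GoodSq 1 (FF f c) (FF f (c.1 + 1, c.2)) (FF f (c.1, c.2 + 1))
      (FF f (c.1 + 1, c.2 + 1)) := by
    intro c hc
    obtain ⟨p0, p1, p2, p3, p4⟩ := mem_lp c
    exact good_of_fact (cellFact hf hd hc) (hd c hc _ p1 _ p0) (hd c hc _ p2 _ p0)
      (hd c hc _ p1 _ p2)
  refine ⟨FF f, by norm_num, hG, fun c hc d hd' e => ctr_injOn hf hi hd hc hd' e, ?_⟩
  intro m hm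
  have hz : (!₂[(m.1 : ℝ) / 2, (m.2.1 : ℝ) / 2, (m.2.2 : ℝ) / 2] : Space) ∈ cubeSurface 1 := by
    obtain ⟨⟨r0, r1, r2, r3, r4, r5⟩, hp⟩ := hm
    have c0 : (0 : ℝ) ≤ m.1 := by exact_mod_cast r0
    have c1 : (m.1 : ℝ) ≤ 2 * 1 := by exact_mod_cast r1
    have c2 : (0 : ℝ) ≤ m.2.1 := by exact_mod_cast r2
    have c3 : (m.2.1 : ℝ) ≤ 2 * 1 := by exact_mod_cast r3
    have c4 : (0 : ℝ) ≤ m.2.2 := by exact_mod_cast r4
    have c5 : (m.2.2 : ℝ) ≤ 2 * 1 := by exact_mod_cast r5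
    refine ⟨?_, ?_⟩
    · intro i
      fin_cases i
      · change 0 ≤ (m.1 : ℝ) / 2 ∧ (m.1 : ℝ) / 2 ≤ 1
        constructor <;> linarith
      · change 0 ≤ (m.2.1 : ℝ) / 2 ∧ (m.2.1 : ℝ) / 2 ≤ 1
        constructor <;> linarith
      · change 0 ≤ (m.2.2 : ℝ) / 2 ∧ (m.2.2 : ℝ) / 2 ≤ 1
        constructor <;> linarith
    · rcases hp with ⟨h | h, -, -⟩ | ⟨-, h | h, -⟩ | ⟨-, -, h | h⟩
      · exact ⟨0, Or.inl (by change (m.1 : ℝ) / 2 = 0; rw [h]; norm_num)⟩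
      · exact ⟨0, Or.inr (by change (m.1 : ℝ) / 2 = 1; rw [h]; norm_num)⟩
      · exact ⟨1, Or.inl (by change (m.2.1 : ℝ) / 2 = 0; rw [h]; norm_num)⟩
      · exact ⟨1, Or.inr (by change (m.2.1 : ℝ) / 2 = 1; rw [h]; norm_num)⟩
      · exact ⟨2, Or.inl (by change (m.2.2 : ℝ) / 2 = 0; rw [h]; norm_num)⟩
      · exact ⟨2, Or.inr (by change (m.2.2 : ℝ) / 2 = 1; rw [h]; norm_num)⟩
  rw [← hf] at hz
  obtain ⟨x, hx, hxe⟩ := hz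
  simp only [region, Set.mem_iUnion] at hx
  obtain ⟨c, hc, hxc⟩ := hx
  refine ⟨c, hc, face_of_mem (cellFact hf hd hc) (hG c hc) (x := x) (hd c hc x hxc) hm ?_ ?_ ?_⟩
  · rw [hxe]; change 2 * ((m.1 : ℝ) / 2) = m.1; ring
  · rw [hxe]; change 2 * ((m.2.1 : ℝ) / 2) = m.2.1; ring
  · rw [hxe]; change 2 * ((m.2.2 : ℝ) / 2) = m.2.2; ring

/-- conversely, integer data give an edge-unfolding net -/
theorem isEdgeNet_of_gridFold {N : Finset (ℤ × ℤ)} (hN : IsPolyomino N) {F : ℤ × ℤ → ℤ × ℤ × ℤ}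
    (h : GridFold N 1 F) : IsEdgeNet N := by
  refine ⟨hN, fmap N F, (fmap_continuous N F).continuousOn, ?_,
    fun x hx y hy hxy => h.interior_inj hx hy hxy, fun c hc x hx y hy => h.dist_eq hc hx hy⟩
  apply Set.Subset.antisymm
  · rintro _ ⟨x, hx, rfl⟩
    simp only [region, Set.mem_iUnion] at hx
    obtain ⟨c, hc, hxc⟩ := hx
    have := mem_surface (ctr_isCtr h hc) (h.onSq hc hxc)
    exact_mod_cast this
  · intro z hz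
    obtain ⟨m, hm, hmz⟩ := exists_ctr h.pos (z := z) (by exact_mod_cast hz)
    obtain ⟨c, hc, rfl⟩ := h.surj m hm
    obtain ⟨x, hx, rfl⟩ := cell_onto h hc hmz
    exact ⟨x, Set.mem_biUnion hc hx, rfl⟩

end Pool.Agent.R170.Net
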