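import Mathlib
import Pool.Agent.R170.Net1

/-!
The classification of the edge-unfolding nets of the unit cube.
-/

set_option autoImplicit false

namespace Pool.Agent.R170.Net

open Set Pool.Agent.Helper697.Rep

abbrev V3 := ℤ × ℤ × ℤ

def cubeV : List V3 :=
  [(0,0,0),(0,0,1),(0,1,0),(0,1,1),(1,0,0),(1,0,1),(1,1,0),(1,1,1)]

lemma mem_cubeV {A : V3} (h : 0 ≤ A.1 ∧ A.1 ≤ 1 ∧ 0 ≤ A.2.1 ∧ A.2.1 ≤ 1 ∧ 0 ≤ A.2.2 ∧ A.2.2 ≤ 1) :
    A ∈ cubeV := by
  obtain ⟨a, b, c⟩ := A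
  obtain ⟨h1, h2, h3, h4, h5, h6⟩ := h
  simp only at h1 h2 h3 h4 h5 h6
  interval_cases a <;> interval_cases b <;> interval_cases c <;> decide

def one3 : V3 := (1, 1, 1)

def rollP (A B C E : V3) : Bool :=
  let D := B + C - A
  let G := E + D - B
  !(decide (GoodSq 1 A B C D)) || (!(decide (GoodSq 1 B E D G)) || (decide (A + D = B + G) ||
    (decide (E - B = one3 - (A + D)) && decide (one3 - (B + G) = -(B - A)))))

lemma roll_fin : (cubeV.all fun A => cubeV.all fun B => cubeV.all fun C => cubeV.all fun E =>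
    rollP A B C E) = true := by decide +kernel

lemma good_D {A B C D : V3} (h : GoodSq 1 A B C D) : D = B + C - A := by
  obtain ⟨h0, h1, h2, -⟩ := h
  ext
  · exact h0
  · exact h1
  · exact h2

lemma good_range {A B C D : V3} (h : GoodSq 1 A B C D) :
    A ∈ cubeV ∧ B ∈ cubeV ∧ C ∈ cubeV ∧ D ∈ cubeV := by
  obtain ⟨-, -, -, -, -, -, r1, r2, r3, r4, -⟩ := h
  exact ⟨mem_cubeV r1, mem_cubeV r2, mem_cubeV r3, mem_cubeV r4⟩

lemma roll_aux {A B C D E G : V3} (h : GoodSq 1 A B C D) (h' : GoodSq 1 B E D G)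
    (hne : A + D ≠ B + G) :
    E - B = one3 - (A + D) ∧ D - B = C - A ∧ one3 - (B + G) = -(B - A) := by
  obtain ⟨a1, a2, a3, a4⟩ := good_range h
  obtain ⟨b1, b2, b3, b4⟩ := good_range h'
  have hD := good_D h
  have hG := good_D h'
  have key := roll_fin
  simp only [List.all_eq_true] at key
  have := key A a1 B a2 C a3 E b2
  simp only [rollP] at this
  rw [← hD, ← hG] at this
  simp only [Bool.or_eq_true, Bool.and_eq_true, Bool.not_eq_true', decide_eq_true_eq,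
    decide_eq_false_iff_not] at this
  have h3 := ((this.resolve_left (fun f => f h)).resolve_left (fun f => f h')).resolve_left hne
  refine ⟨h3.1, ?_, h3.2⟩
  rw [hD]
  abel

lemma good_swap {A B C D : V3} (h : GoodSq 1 A B C D) : GoodSq 1 A C B D := by
  obtain ⟨h0, h1, h2, n1, n2, n3, r1, r2, r3, r4, hf⟩ := h
  exact ⟨by omega, by omega, by omega, n2, n1, by linarith, r1, r3, r2, r4, by
    rcases hf with ⟨x, y, z⟩ | ⟨x, y, z⟩ | ⟨x, y, z⟩
    · exact Or.inl ⟨y, x, z⟩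
    · exact Or.inr (Or.inl ⟨y, x, z⟩)
    · exact Or.inr (Or.inr ⟨y, x, z⟩)⟩

/-! ### frames -/

section

variable (F : ℤ × ℤ → V3)

def fU (c : ℤ × ℤ) : V3 := F (c.1 + 1, c.2) - F c
def fV (c : ℤ × ℤ) : V3 := F (c.1, c.2 + 1) - F c
def fW (c : ℤ × ℤ) : V3 := one3 - ctr F c

end

lemma rollE {N : Finset (ℤ × ℤ)} {F : ℤ × ℤ → V3} (H : GridFold N 1 F) {c : ℤ × ℤ} (hc : c ∈ N)
    (hd : (c.1 + 1, c.2) ∈ N) : fU F (c.1 + 1, c.2) = fW F c ∧ fV F (c.1 + 1, c.2) = fV F c ∧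
      fW F (c.1 + 1, c.2) = - fU F c := by
  have h1 := H.good c hc
  have h2 := H.good _ hd
  simp only at h2
  have hne : F c + F (c.1 + 1, c.2 + 1) ≠ F (c.1 + 1, c.2) + F (c.1 + 1 + 1, c.2 + 1) := by
    intro e
    have := H.inj c hc _ hd e
    have := congrArg Prod.fst this
    simp at this
  exact roll_aux h1 h2 hne

lemma rollN {N : Finset (ℤ × ℤ)} {F : ℤ × ℤ → V3} (H : GridFold N 1 F) {c : ℤ × ℤ} (hc : c ∈ N)
    (hd : (c.1, c.2 + 1) ∈ N) : fV F (c.1, c.2 + 1) = fW F c ∧ fU F (c.1, c.2 + 1) = fU F c ∧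
      fW F (c.1, c.2 + 1) = - fV F c := by
  have h1 := good_swap (H.good c hc)
  have h2 := good_swap (H.good _ hd)
  simp only at h2
  have hne : F c + F (c.1 + 1, c.2 + 1) ≠ F (c.1, c.2 + 1) + F (c.1 + 1, c.2 + 1 + 1) := by
    intro e
    have := H.inj c hc _ hd e
    have := congrArg Prod.snd this
    simp at this
  exact roll_aux h1 h2 hne

lemma rollW {N : Finset (ℤ × ℤ)} {F : ℤ × ℤ → V3} (H : GridFold N 1 F) {c : ℤ × ℤ} (hc : c ∈ N)
    (hd : (c.1 - 1, c.2) ∈ N) : fU F (c.1 - 1, c.2) = - fW F c ∧ fV F (c.1 - 1, c.2) = fV F c ∧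
      fW F (c.1 - 1, c.2) = fU F c := by
  have h := rollE H hd (by simpa using hc)
  simp only [sub_add_cancel, Prod.mk.eta] at h
  obtain ⟨h1, h2, h3⟩ := h
  exact ⟨by rw [h3, neg_neg], h2.symm, h1.symm⟩

lemma rollS {N : Finset (ℤ × ℤ)} {F : ℤ × ℤ → V3} (H : GridFold N 1 F) {c : ℤ × ℤ} (hc : c ∈ N)
    (hd : (c.1, c.2 - 1) ∈ N) : fV F (c.1, c.2 - 1) = - fW F c ∧ fU F (c.1, c.2 - 1) = fU F c ∧
      fW F (c.1, c.2 - 1) = fV F c := by
  have h := rollN H hd (by simpa using hc)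
  simp only [sub_add_cancel, Prod.mk.eta] at h
  obtain ⟨h1, h2, h3⟩ := h
  exact ⟨by rw [h3, neg_neg], h2.symm, h1.symm⟩

/-! ### labels -/

def act (u v w : V3) (x : ℤ) : V3 :=
  if x = 1 then u else if x = -1 then -u else if x = 2 then v else if x = -2 then -v else
    if x = 3 then w else -w

def labels : List ℤ := [1, -1, 2, -2, 3, -3]

lemma act_neg {u v w : V3} {x : ℤ} (h : x ∈ labels) : act u v w (-x) = - act u v w x := by
  simp only [labels, List.mem_cons, List.not_mem_nil, or_false] at h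
  rcases h with rfl | rfl | rfl | rfl | rfl | rfl <;> simp [act]

lemma neg_label {x : ℤ} (h : x ∈ labels) : -x ∈ labels := by
  simp only [labels, List.mem_cons, List.not_mem_nil, or_false] at *
  omega

def actP (A B C : V3) : Bool :=
  let D := B + C - A
  !(decide (GoodSq 1 A B C D)) || (labels.all fun x => labels.all fun y => decide (x = y) ||
    !(decide (act (B - A) (C - A) (one3 - (A + D)) x = act (B - A) (C - A) (one3 - (A + D)) y)))

lemma act_fin : (cubeV.all fun A => cubeV.all fun B => cubeV.all fun C => actP A B C) = true := by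
  decide +kernel

lemma act_inj {N : Finset (ℤ × ℤ)} {F : ℤ × ℤ → V3} (H : GridFold N 1 F) {c : ℤ × ℤ} (hc : c ∈ N)
    {x y : ℤ} (hx : x ∈ labels) (hy : y ∈ labels)
    (h : act (fU F c) (fV F c) (fW F c) x = act (fU F c) (fV F c) (fW F c) y) : x = y := by
  have hg := H.good c hc
  obtain ⟨a1, a2, a3, a4⟩ := good_range hg
  have hD := good_D hg
  have key := act_fin
  simp only [List.all_eq_true] at key
  have := key _ a1 _ a2 _ a3
  simp only [actP] at this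
  rw [← hD] at this
  simp only [Bool.or_eq_true, Bool.not_eq_true', decide_eq_true_eq, List.all_eq_true,
    decide_eq_false_iff_not] at this
  exact ((this.resolve_left (fun f => f hg)) x hx y hy).resolve_right (fun f => f h)

/-- one step of rolling, on relative data -/
def step (k : ℕ) (x : (ℤ × ℤ) × V3) : (ℤ × ℤ) × V3 :=
  match k with
  | 0 => ((x.1.1 + 1, x.1.2), (x.2.2.2, x.2.2.1, -x.2.1))
  | 1 => ((x.1.1, x.1.2 + 1), (x.2.1, x.2.2.2, -x.2.2.1))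
  | 2 => ((x.1.1 - 1, x.1.2), (-x.2.2.2, x.2.2.1, x.2.1))
  | _ => ((x.1.1, x.1.2 - 1), (x.2.1, -x.2.2.2, x.2.2.1))

/-- relative data `x` describe the folding at the cell `x.1 + c0` -/
structure Ok (N : Finset (ℤ × ℤ)) (F : ℤ × ℤ → V3) (c0 : ℤ × ℤ) (x : (ℤ × ℤ) × V3) : Prop where
  mem : x.1 + c0 ∈ N
  l1 : x.2.1 ∈ labels
  l2 : x.2.2.1 ∈ labels
  l3 : x.2.2.2 ∈ labels
  e1 : fU F (x.1 + c0) = act (fU F c0) (fV F c0) (fW F c0) x.2.1
  e2 : fV F (x.1 + c0) = act (fU F c0) (fV F c0) (fW F c0) x.2.2.1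
  e3 : fW F (x.1 + c0) = act (fU F c0) (fV F c0) (fW F c0) x.2.2.2

lemma Ok.step {N : Finset (ℤ × ℤ)} {F : ℤ × ℤ → V3} (H : GridFold N 1 F) {c0 : ℤ × ℤ}
    {x : (ℤ × ℤ) × V3} (hx : Ok N F c0 x) (k : ℕ) (hk : (Net.step k x).1 + c0 ∈ N) :
    Ok N F c0 (Net.step k x) := by
  obtain ⟨m, l1, l2, l3, e1, e2, e3⟩ := hx
  match k with
  | 0 =>
    have ec : ((x.1.1 + 1, x.1.2) : ℤ × ℤ) + c0 = ((x.1 + c0).1 + 1, (x.1 + c0).2) := by
      ext <;> simp; ring
    simp only [Net.step] at hk ⊢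
    rw [ec] at hk
    obtain ⟨h1, h2, h3⟩ := rollE H m hk
    exact ⟨by rw [ec]; exact hk, l3, l2, neg_label l1, by rw [ec, h1, e3], by rw [ec, h2, e2],
      by rw [ec, h3, e1, act_neg l1]⟩
  | 1 =>
    have ec : ((x.1.1, x.1.2 + 1) : ℤ × ℤ) + c0 = ((x.1 + c0).1, (x.1 + c0).2 + 1) := by
      ext <;> simp; ring
    simp only [Net.step] at hk ⊢
    rw [ec] at hk
    obtain ⟨h1, h2, h3⟩ := rollN H m hk
    exact ⟨by rw [ec]; exact hk, l1, l3, neg_label l2, by rw [ec, h2, e1], by rw [ec, h1, e3],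
      by rw [ec, h3, e2, act_neg l2]⟩
  | 2 =>
    have ec : ((x.1.1 - 1, x.1.2) : ℤ × ℤ) + c0 = ((x.1 + c0).1 - 1, (x.1 + c0).2) := by
      ext <;> simp; ring
    simp only [Net.step] at hk ⊢
    rw [ec] at hk
    obtain ⟨h1, h2, h3⟩ := rollW H m hk
    exact ⟨by rw [ec]; exact hk, neg_label l3, l2, l1, by rw [ec, h1, e3, act_neg l3],
      by rw [ec, h2, e2], by rw [ec, h3, e1]⟩
  | (n + 3) =>
    have ec : ((x.1.1, x.1.2 - 1) : ℤ × ℤ) + c0 = ((x.1 + c0).1, (x.1 + c0).2 - 1) := by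
      ext <;> simp; ring
    simp only [Net.step] at hk ⊢
    rw [ec] at hk
    obtain ⟨h1, h2, h3⟩ := rollS H m hk
    exact ⟨by rw [ec]; exact hk, l1, neg_label l3, l2, by rw [ec, h2, e1],
      by rw [ec, h1, e3, act_neg l3], by rw [ec, h3, e2]⟩

lemma Ok.unique {N : Finset (ℤ × ℤ)} {F : ℤ × ℤ → V3} (H : GridFold N 1 F) {c0 : ℤ × ℤ}
    (h0 : c0 ∈ N) {x y : (ℤ × ℤ) × V3} (hx : Ok N F c0 x) (hy : Ok N F c0 y) (h : x.1 = y.1) :
    x = y := by
  have k1 := act_inj H h0 hx.l1 hy.l1 (by rw [← hx.e1, ← hy.e1, h])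
  have k2 := act_inj H h0 hx.l2 hy.l2 (by rw [← hx.e2, ← hy.e2, h])
  have k3 := act_inj H h0 hx.l3 hy.l3 (by rw [← hx.e3, ← hy.e3, h])
  exact Prod.ext h (Prod.ext k1 (Prod.ext k2 k3))

lemma Ok.label {N : Finset (ℤ × ℤ)} {F : ℤ × ℤ → V3} (H : GridFold N 1 F) {c0 : ℤ × ℤ}
    {x y : (ℤ × ℤ) × V3} (hx : Ok N F c0 x) (hy : Ok N F c0 y)
    (h : x.2.2.2 = y.2.2.2) : x.1 = y.1 := by
  have e : fW F (x.1 + c0) = fW F (y.1 + c0) := by rw [hx.e3, hy.e3, h]
  have e2 : ctr F (x.1 + c0) = ctr F (y.1 + c0) := by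
    unfold fW at e
    exact sub_right_injective e
  exact add_right_cancel (H.inj _ hx.mem _ hy.mem e2)

end Pool.Agent.R170.Net
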