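import Mathlib
import Pool.Agent.R170.Net2

/-!
The classification of the edge-unfolding nets of the unit cube: enumeration.
-/

set_option autoImplicit false

namespace Pool.Agent.R170.Net

open Set Pool.Agent.Helper697.Rep

abbrev Elt := (ℤ × ℤ) × V3

def key (c : ℤ × ℤ) : ℤ := 100 * c.1 + c.2

def ins (x : Elt) : List Elt → List Elt
  | [] => [x]
  | y :: l => if key x.1 < key y.1 then x :: y :: l else y :: ins x l

lemma ins_perm {x : Elt} : ∀ {l : List Elt}, (ins x l).Perm (x :: l)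
  | [] => by simp [ins]
  | y :: l => by
    unfold ins
    split
    · exact List.Perm.refl _
    · exact (List.Perm.cons y ins_perm).trans (List.Perm.swap x y l)

/-- the new element `y` may be added to `st` -/
def okNew (st : List Elt) (y : Elt) : Bool :=
  decide (0 ≤ key y.1) && (st.all fun z => !(decide (z.1 = y.1)) && (!(decide (z.2.2.2 = y.2.2.2)) &&
    ((List.range 4).all fun k => !(decide ((step k z).1 = y.1)) || decide (step k z = y))))

def cands (st : List Elt) : List (List Elt) :=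
  st.flatMap fun x => (List.range 4).flatMap fun k =>
    if okNew st (step k x) = true then [ins (step k x) st] else []

def lev : ℕ → List (List Elt)
  | 0 => [[((0, 0), (1, 2, 3))]]
  | n + 1 => ((lev n).flatMap cands).dedup

/-- the twenty one-sided nets, by lower left corners of their squares -/
def nets : List (List (ℤ × ℤ)) := [
  [(3, 1), (2, 1), (0, 2), (1, 1), (0, 1), (0, 0)],
  [(1, 4), (1, 3), (1, 2), (0, 2), (0, 1), (0, 0)],
  [(1, 0), (0, 4), (1, 1), (0, 3), (1, 2), (0, 2)],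
  [(1, 3), (1, 2), (2, 1), (1, 1), (0, 1), (0, 0)],
  [(1, 3), (2, 0), (1, 2), (2, 1), (1, 1), (0, 1)],
  [(1, 3), (2, 2), (1, 2), (1, 1), (0, 1), (0, 0)],
  [(2, 0), (2, 1), (1, 1), (1, 3), (1, 2), (0, 2)],
  [(2, 3), (1, 3), (1, 2), (1, 1), (0, 1), (0, 0)],
  [(2, 0), (2, 1), (1, 1), (1, 2), (1, 3), (0, 3)],
  [(3, 1), (1, 2), (2, 1), (1, 1), (0, 1), (0, 0)],
  [(3, 0), (2, 2), (3, 1), (2, 1), (1, 1), (0, 1)],
  [(2, 3), (2, 2), (1, 2), (1, 1), (0, 1), (0, 0)],
  [(2, 0), (2, 1), (1, 1), (0, 3), (1, 2), (0, 2)],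
  [(2, 2), (3, 1), (2, 1), (1, 1), (0, 1), (0, 0)],
  [(3, 0), (3, 1), (1, 2), (2, 1), (1, 1), (0, 1)],
  [(3, 2), (3, 1), (2, 1), (1, 1), (0, 1), (0, 0)],
  [(3, 0), (3, 1), (2, 1), (0, 2), (1, 1), (0, 1)],
  [(1, 3), (1, 0), (1, 2), (2, 1), (1, 1), (0, 1)],
  [(1, 3), (2, 2), (1, 0), (1, 2), (1, 1), (0, 1)],
  [(1, 0), (2, 1), (1, 1), (1, 3), (1, 2), (0, 2)]]

def rots : List (ℤ × ℤ) := [(1, 0), (0, 1), (-1, 0), (0, -1)]

/-- rotation by the unit `r` and translation by `v` -/
def mv (r v c : ℤ × ℤ) : ℤ × ℤ := (r.1 * c.1 - r.2 * c.2 + v.1, r.2 * c.1 + r.1 * c.2 + v.2)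

/-- the cells `L` are all in the image of the net `n` under some motion -/
def matchB (n L : List (ℤ × ℤ)) : Bool :=
  rots.any fun r => n.any fun z => n.all fun c => decide (mv r (-(mv r (0, 0) z)) c ∈ L)

lemma match_all : ((lev 5).all fun st => nets.any fun n => matchB n (st.map Prod.fst)) = true := by
  decide +kernel

lemma nets_good : ∀ n ∈ nets, n.Nodup ∧ n.length = 6 := by decide +kernel

lemma rots_unit : ∀ r ∈ rots, r.1 * r.1 + r.2 * r.2 = 1 := by decide

lemma mv_inj {r v c d : ℤ × ℤ} (hr : r.1 * r.1 + r.2 * r.2 = 1) (h : mv r v c = mv r v d) :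
    c = d := by
  simp only [mv, Prod.mk.injEq, add_left_inj] at h
  obtain ⟨h1, h2⟩ := h
  have e1 : c.1 = d.1 := by
    linear_combination r.1 * h1 + r.2 * h2 - (c.1 - d.1) * hr
  have e2 : c.2 = d.2 := by
    linear_combination r.1 * h2 - r.2 * h1 - (c.2 - d.2) * hr
  exact Prod.ext e1 e2

lemma exists_leave {α : Type*} {r : α → α → Prop} {S : Set α} {a b : α}
    (h : Relation.ReflTransGen r a b) (ha : a ∈ S) (hb : b ∉ S) :
    ∃ x y, r x y ∧ x ∈ S ∧ y ∉ S := by
  induction h with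
  | refl => exact absurd ha hb
  | @tail y z _ hyz ih =>
    by_cases hy : y ∈ S
    · exact ⟨y, z, hyz, hy, hb⟩
    · exact ih hy

def cens : List V3 := [(0, 1, 1), (2, 1, 1), (1, 0, 1), (1, 2, 1), (1, 1, 0), (1, 1, 2)]

lemma mem_cens {m : V3} (h : IsCtr 1 m) : m ∈ cens := by
  obtain ⟨a, b, c⟩ := m
  unfold IsCtr at h
  simp only at h
  simp only [cens, List.mem_cons, List.not_mem_nil, or_false, Prod.mk.injEq]
  omega

lemma cens_ctr : ∀ m ∈ cens, IsCtr 1 m := by decide

lemma card_six {N : Finset (ℤ × ℤ)} {F : ℤ × ℤ → V3} (H : GridFold N 1 F) : N.card = 6 := by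
  have h1 : N.image (ctr F) = cens.toFinset := by
    ext m
    rw [Finset.mem_image, List.mem_toFinset]
    constructor
    · rintro ⟨c, hc, rfl⟩
      exact mem_cens (ctr_isCtr H hc)
    · intro hm
      exact H.surj m (cens_ctr m hm)
  have h2 : (N.image (ctr F)).card = N.card :=
    Finset.card_image_of_injOn (fun c hc d hd h => H.inj c hc d hd h)
  rw [← h2, h1]
  decide

lemma key_add (c d : ℤ × ℤ) : key (c + d) = key c + key d := by
  simp only [key, Prod.fst_add, Prod.snd_add]; ring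

lemma step_adj {z : Elt} {c0 y : ℤ × ℤ} (h : EdgeAdj (z.1 + c0) y) :
    ∃ k < 4, (step k z).1 + c0 = y := by
  obtain ⟨⟨a, b⟩, fr⟩ := z
  obtain ⟨p, q⟩ := c0
  obtain ⟨u, v⟩ := y
  simp only [EdgeAdj, Prod.mk_add_mk] at h
  have h4 : (u = a + p + 1 ∧ v = b + q) ∨ (u = a + p ∧ v = b + q + 1) ∨
      (u = a + p - 1 ∧ v = b + q) ∨ (u = a + p ∧ v = b + q - 1) := by
    rcases abs_cases (a + p - u) with ⟨e1, _⟩ | ⟨e1, _⟩ <;>
      rcases abs_cases (b + q - v) with ⟨e2, _⟩ | ⟨e2, _⟩ <;> rw [e1, e2] at h <;> omega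
  rcases h4 with ⟨rfl, rfl⟩ | ⟨rfl, rfl⟩ | ⟨rfl, rfl⟩ | ⟨rfl, rfl⟩
  · exact ⟨0, by norm_num, by ext <;> simp [step] <;> ring⟩
  · exact ⟨1, by norm_num, by ext <;> simp [step] <;> ring⟩
  · exact ⟨2, by norm_num, by ext <;> simp [step] <;> ring⟩
  · exact ⟨3, by norm_num, by ext <;> simp [step] <;> ring⟩

lemma exists_lev {N : Finset (ℤ × ℤ)} {F : ℤ × ℤ → V3} (H : GridFold N 1 F)
    (hN : IsPolyomino N) {c0 : ℤ × ℤ} (h0 : c0 ∈ N) (hmin : ∀ d ∈ N, key c0 ≤ key d) :
    ∀ n ≤ 5, ∃ st ∈ lev n, (∀ x ∈ st, Ok N F c0 x) ∧ (st.map Prod.fst).Nodup ∧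
      st.length = n + 1 ∧ ((0, 0) : ℤ × ℤ) ∈ st.map Prod.fst := by
  intro n
  induction n with
  | zero =>
    intro _
    refine ⟨[((0, 0), (1, 2, 3))], by simp [lev], ?_, by simp, by simp, by simp⟩
    intro x hx
    simp only [List.mem_singleton] at hx
    subst hx
    have e : ((0, 0) : ℤ × ℤ) + c0 = c0 := by ext <;> simp
    exact ⟨by rw [e]; exact h0, by decide, by decide, by decide, by rw [e]; simp [act],
      by rw [e]; simp [act], by rw [e]; simp [act]⟩
  | succ n ih =>
    intro hn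
    obtain ⟨st, hst, hok, hnd, hlen, hz⟩ := ih (by omega)
    -- the cells of the state
    have hcard : (((st.map Prod.fst).toFinset).image (fun c => c + c0)).card = n + 1 := by
      rw [Finset.card_image_of_injective _ (fun a b h => add_right_cancel h),
        List.toFinset_card_of_nodup hnd, List.length_map, hlen]
    obtain ⟨d', hd', hdS⟩ : ∃ d ∈ N, d ∉ ((st.map Prod.fst).toFinset).image (fun c => c + c0) := by
      by_contra hcon
      push Not at hcon
      have := Finset.card_le_card (show N ⊆ _ from hcon)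
      rw [hcard, card_six H] at this
      omega
    have hc0S : c0 ∈ (((st.map Prod.fst).toFinset).image (fun c => c + c0) : Set (ℤ × ℤ)) := by
      rw [Finset.mem_coe, Finset.mem_image]
      exact ⟨(0, 0), by simpa using hz, by ext <;> simp⟩
    obtain ⟨x, y, ⟨-, hy, hxy⟩, hxS, hyS⟩ := exists_leave (hN.2 c0 h0 d' hd') hc0S
      (by simpa using hdS)
    rw [Finset.mem_coe, Finset.mem_image] at hxS hyS
    obtain ⟨xc, hxc, rfl⟩ := hxS
    rw [List.mem_toFinset, List.mem_map] at hxc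
    obtain ⟨z, hz2, rfl⟩ := hxc
    obtain ⟨k, hk, hky⟩ := step_adj hxy
    have hOk : Ok N F c0 (step k z) := (hok z hz2).step H k (by rw [hky]; exact hy)
    have hnot : ∀ w ∈ st, w.1 ≠ (step k z).1 := by
      intro w hw e
      apply hyS
      exact ⟨w.1, by rw [List.mem_toFinset, List.mem_map]; exact ⟨w, hw, rfl⟩, by rw [e, hky]⟩
    have hnew : okNew st (step k z) = true := by
      simp only [okNew, Bool.and_eq_true, decide_eq_true_eq, List.all_eq_true, Bool.not_eq_true',
        decide_eq_false_iff_not, Bool.or_eq_true, List.mem_range]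
      refine ⟨?_, fun w hw => ⟨hnot w hw, ?_, ?_⟩⟩
      · have h1 := hmin y hy
        rw [← hky, key_add] at h1
        linarith
      · intro e
        exact hnot w hw (Ok.label H (hok w hw) hOk e)
      · intro k' hk'
        by_cases e : (step k' w).1 = (step k z).1
        · right
          refine Ok.unique H h0 ((hok w hw).step H k' (by rw [e, hky]; exact hy)) hOk e
        · exact Or.inl e
    refine ⟨ins (step k z) st, ?_, ?_, ?_, ?_, ?_⟩
    · rw [lev, List.mem_dedup, List.mem_flatMap]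
      refine ⟨st, hst, ?_⟩
      rw [cands, List.mem_flatMap]
      refine ⟨z, hz2, ?_⟩
      rw [List.mem_flatMap]
      refine ⟨k, List.mem_range.2 hk, ?_⟩
      rw [if_pos hnew]
      exact List.mem_singleton.2 rfl
    · intro w hw
      rcases List.mem_cons.1 (ins_perm.mem_iff.1 hw) with rfl | hw
      · exact hOk
      · exact hok w hw
    · rw [(ins_perm.map Prod.fst).nodup_iff, List.map_cons, List.nodup_cons]
      refine ⟨?_, hnd⟩
      rw [List.mem_map]
      rintro ⟨w, hw, e⟩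
      exact hnot w hw e
    · rw [ins_perm.length_eq, List.length_cons, hlen]
    · rw [(ins_perm.map Prod.fst).mem_iff, List.map_cons]
      exact List.mem_cons_of_mem _ hz

/-- every edge-unfolding net is, up to a rotation and a translation, one of the twenty -/
theorem classify {N : Finset (ℤ × ℤ)} (h : IsEdgeNet N) :
    ∃ n ∈ nets, SameOneSided n.toFinset N := by
  obtain ⟨F, H⟩ := h.gridFold
  obtain ⟨c0, h0, hmin⟩ := N.exists_min_image key h.1.1
  obtain ⟨st, hst, hok, hnd, hlen, -⟩ := exists_lev H h.1 h0 hmin 5 le_rfl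
  have hm := match_all
  simp only [List.all_eq_true, List.any_eq_true] at hm
  obtain ⟨n, hn, hnm⟩ := hm st hst
  simp only [matchB, List.any_eq_true, List.all_eq_true, decide_eq_true_eq] at hnm
  obtain ⟨r, hr, z, hz, hmem⟩ := hnm
  obtain ⟨hn1, hn2⟩ := nets_good n hn
  have hru := rots_unit r hr
  set v := -(mv r (0, 0) z) with hv
  refine ⟨n, hn, r.1, r.2, v.1 + c0.1, v.2 + c0.2, hru, ?_⟩
  symm
  apply Finset.eq_of_subset_of_card_le
  · intro c hc
    rw [Finset.mem_image] at hc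
    obtain ⟨d, hd, rfl⟩ := hc
    have h2 := hmem d (by simpa using hd)
    rw [List.mem_map] at h2
    obtain ⟨w, hw, hwe⟩ := h2
    have h3 := (hok w hw).mem
    rw [hwe] at h3
    have e : mv r v d + c0 = (r.1 * d.1 - r.2 * d.2 + (v.1 + c0.1),
        r.2 * d.1 + r.1 * d.2 + (v.2 + c0.2)) := by
      ext <;> simp [mv] <;> ring
    rw [e] at h3
    exact h3
  · rw [card_six H, Finset.card_image_of_injOn, List.toFinset_card_of_nodup hn1, hn2]
    intro c _ d _ hcd
    exact mv_inj (v := (v.1 + c0.1, v.2 + c0.2)) hru hcd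

end Pool.Agent.R170.Net
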