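import Mathlib
import Pool.Agent.Helper697.RepCrit4
import Pool.Agent.Helper697.PythDefs

/-!
Foldings of polyominoes onto a cube whose edge is the lattice vector `(p, q)`, that is, onto the
cube of edge `√(p² + q²)`: integer data and a finite criterion.
-/

set_option autoImplicit false

namespace Pool.Agent.R170.Tilt

open Set Pool.Agent.Helper697.Rep

/-- a chart: a face `j` of the cube and a lattice isometry of the plane -/
structure Chart where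
  j : ℕ
  a : ℤ
  b : ℤ
  s : ℤ
  t : ℤ
deriving DecidableEq

/-- `(a, b)` is a unit vector -/
def Chart.U (m : Chart) : Prop :=
  (m.a = 1 ∧ m.b = 0) ∨ (m.a = 0 ∧ m.b = 1) ∨ (m.a = -1 ∧ m.b = 0) ∨ (m.a = 0 ∧ m.b = -1)

instance (m : Chart) : Decidable m.U := by unfold Chart.U; infer_instance

def Chart.X (m : Chart) (c : ℤ × ℤ) : ℤ := m.a * c.1 - m.b * c.2 + m.s
def Chart.Y (m : Chart) (c : ℤ × ℤ) : ℤ := m.b * c.1 + m.a * c.2 + m.t
def Chart.XR (m : Chart) (x : Plane) : ℝ := m.a * x 0 - m.b * x 1 + m.s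
def Chart.YR (m : Chart) (x : Plane) : ℝ := m.b * x 0 + m.a * x 1 + m.t

/-- the lattice cell corresponding to `c` in the chart `m` -/
def Chart.cell (m : Chart) (c : ℤ × ℤ) : ℤ × ℤ :=
  (m.X c + min 0 m.a + min 0 (-m.b), m.Y c + min 0 m.b + min 0 m.a)

/-- membership in a closed lattice cell -/
def InSq (s : ℤ × ℤ) (X Y : ℝ) : Prop :=
  ((s.1 : ℝ) ≤ X ∧ X ≤ (s.1 : ℝ) + 1) ∧ ((s.2 : ℝ) ≤ Y ∧ Y ≤ (s.2 : ℝ) + 1)

lemma cell_mem {m : Chart} (hm : m.U) (c : ℤ × ℤ) (x : Plane) :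
    x ∈ square c ↔ InSq (m.cell c) (m.XR x) (m.YR x) := by
  unfold square InSq Chart.cell Chart.XR Chart.YR Chart.X Chart.Y
  simp only [mem_ofPred_eq]
  rcases hm with ⟨ha, hb⟩ | ⟨ha, hb⟩ | ⟨ha, hb⟩ | ⟨ha, hb⟩ <;> rw [ha, hb] <;> norm_num <;>
    constructor <;> rintro ⟨⟨h1, h2⟩, h3, h4⟩ <;> refine ⟨⟨?_, ?_⟩, ?_, ?_⟩ <;> linarith

lemma cell_surj {m : Chart} (hm : m.U) (s : ℤ × ℤ) : ∃ c, m.cell c = s := by
  unfold Chart.cell Chart.X Chart.Y
  rcases hm with ⟨ha, hb⟩ | ⟨ha, hb⟩ | ⟨ha, hb⟩ | ⟨ha, hb⟩ <;> rw [ha, hb]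
  · exact ⟨(s.1 - m.s, s.2 - m.t), by ext <;> simp⟩
  · exact ⟨(s.2 - m.t, -(s.1 - m.s) - 1), by ext <;> simp <;> ring⟩
  · exact ⟨(-(s.1 - m.s) - 1, -(s.2 - m.t) - 1), by ext <;> simp <;> ring⟩
  · exact ⟨(-(s.2 - m.t) - 1, s.1 - m.s), by ext <;> simp <;> ring⟩

/-- `x` is a lattice point -/
def Lat (x : Plane) : Prop := ∃ v : ℤ × ℤ, x 0 = v.1 ∧ x 1 = v.2

lemma lat_of_chart {m : Chart} (hm : m.U) {x : Plane} {X Y : ℤ} (h1 : m.XR x = X)
    (h2 : m.YR x = Y) : Lat x := by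
  unfold Chart.XR at h1
  unfold Chart.YR at h2
  rcases hm with ⟨ha, hb⟩ | ⟨ha, hb⟩ | ⟨ha, hb⟩ | ⟨ha, hb⟩ <;> rw [ha, hb] at h1 h2 <;>
    norm_num at h1 h2
  · exact ⟨(X - m.s, Y - m.t), by push_cast; linarith, by push_cast; linarith⟩
  · exact ⟨(Y - m.t, -(X - m.s)), by push_cast; linarith, by push_cast; linarith⟩
  · exact ⟨(-(X - m.s), -(Y - m.t)), by push_cast; linarith, by push_cast; linarith⟩
  · exact ⟨(-(Y - m.t), X - m.s), by push_cast; linarith, by push_cast; linarith⟩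

lemma chart_inj {m : Chart} (hm : m.U) {x y : Plane} (h1 : m.XR x = m.XR y)
    (h2 : m.YR x = m.YR y) : x = y := by
  unfold Chart.XR at h1
  unfold Chart.YR at h2
  have : x 0 = y 0 ∧ x 1 = y 1 := by
    rcases hm with ⟨ha, hb⟩ | ⟨ha, hb⟩ | ⟨ha, hb⟩ | ⟨ha, hb⟩ <;> rw [ha, hb] at h1 h2 <;>
      norm_num at h1 h2 <;> constructor <;> linarith
  ext i
  fin_cases i
  · exact this.1
  · exact this.2

/-- scaled coordinates in the face -/
def cu {R : Type*} [Ring R] (p q X Y : R) : R := p * X + q * Y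
def cv {R : Type*} [Ring R] (p q X Y : R) : R := -q * X + p * Y

/-- signed violation of the `i`-th side of the face `[0, k]²` -/
def vi {R : Type*} [Ring R] (i : ℕ) (k u v : R) : R :=
  match i with
  | 0 => -v
  | 1 => u - k
  | 2 => v - k
  | _ => -u

/-- the point of face `j` of `[0, k]³` with face coordinates `u`, `v` -/
def nn {R : Type*} [Ring R] (j : ℕ) (k u v : R) : R × R × R :=
  match j with
  | 0 => (0, v, u)
  | 1 => (k, u, v)
  | 2 => (u, 0, v)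
  | 3 => (v, k, u)
  | 4 => (v, u, 0)
  | _ => (u, v, k)

/-- the point lies in the plane of face `j` -/
def onF {R : Type*} [Ring R] (j : ℕ) (k : R) (z : R × R × R) : Prop :=
  match j with
  | 0 => z.1 = 0
  | 1 => z.1 = k
  | 2 => z.2.1 = 0
  | 3 => z.2.1 = k
  | 4 => z.2.2 = 0
  | _ => z.2.2 = k

instance (j : ℕ) (k : ℤ) (z : ℤ × ℤ × ℤ) : Decidable (onF j k z) := by
  unfold onF; split <;> infer_instance

/-- the side of face `j0` along which face `j` is attached (`4` for the opposite face) -/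
def sd (j0 j : ℕ) : ℕ :=
  match j0, j with
  | 0, 2 => 0 | 0, 3 => 2 | 0, 4 => 3 | 0, 5 => 1 | 0, _ => 4
  | 1, 2 => 3 | 1, 3 => 1 | 1, 4 => 0 | 1, 5 => 2 | 1, _ => 4
  | 2, 0 => 3 | 2, 1 => 1 | 2, 4 => 0 | 2, 5 => 2 | 2, _ => 4
  | 3, 0 => 0 | 3, 1 => 2 | 3, 4 => 3 | 3, 5 => 1 | 3, _ => 4
  | 4, 0 => 0 | 4, 1 => 2 | 4, 2 => 3 | 4, 3 => 1 | 4, _ => 4
  | 5, 0 => 3 | 5, 1 => 1 | 5, 2 => 0 | 5, 3 => 2 | 5, _ => 4
  | _, _ => 4

lemma sd_inj : ∀ j0 < 6, ∀ j < 6, ∀ j' < 6, sd j0 j < 4 → sd j0 j = sd j0 j' → j = j' := by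
  decide

lemma onF_nn_self {k u v : ℝ} (j : ℕ) : onF j k (nn j k u v) := by
  unfold onF nn
  split <;> simp_all

lemma onF_sd {k u v : ℝ} (hk : 0 < k) {j0 j : ℕ} (h0 : j0 < 6) (h : j < 6) (hne : j ≠ j0)
    (hf : onF j k (nn j0 k u v)) : sd j0 j < 4 ∧ vi (sd j0 j) k u v = 0 := by
  interval_cases j0 <;> interval_cases j <;>
    simp only [onF, nn, sd, vi] at hf hne ⊢ <;> first
    | exact absurd rfl hne
    | (exfalso; linarith)
    | (refine ⟨by norm_num, by linarith⟩)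

/-- points of the face -/
def InT {R : Type*} [Ring R] [LE R] (k u v : R) : Prop := (0 ≤ u ∧ u ≤ k) ∧ (0 ≤ v ∧ v ≤ k)

instance (k u v : ℤ) : Decidable (InT k u v) := by unfold InT; infer_instance

lemma inT_iff {k u v : ℝ} : InT k u v ↔ ∀ i < 4, vi i k u v ≤ 0 := by
  constructor
  · rintro ⟨⟨h1, h2⟩, h3, h4⟩ i hi
    interval_cases i <;> simp only [vi] <;> linarith
  · intro h
    have h0 := h 0 (by norm_num)
    have h1 := h 1 (by norm_num)
    have h2 := h 2 (by norm_num)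
    have h3 := h 3 (by norm_num)
    simp only [vi] at h0 h1 h2 h3
    exact ⟨⟨by linarith, by linarith⟩, by linarith, by linarith⟩

lemma nn_inj {k u v u' v' : ℝ} {j : ℕ} (h : nn j k u v = nn j k u' v') : u = u' ∧ v = v' := by
  unfold nn at h
  split at h <;> simp_all

end Pool.Agent.R170.Tilt
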