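import Mathlib
import Pool.Agent.R170.Tilt1

set_option autoImplicit false

namespace Pool.Agent.R170.Tilt

open Set Pool.Agent.Helper697.Rep

/-! ### Values of a chart -/

section vals
variable (p q : ℤ) (m : Chart)

def Chart.u (c : ℤ × ℤ) : ℤ := cu p q (m.X c) (m.Y c)
def Chart.v (c : ℤ × ℤ) : ℤ := cv p q (m.X c) (m.Y c)
noncomputable def Chart.uR (x : Plane) : ℝ := cu (p : ℝ) (q : ℝ) (m.XR x) (m.YR x)
noncomputable def Chart.vR (x : Plane) : ℝ := cv (p : ℝ) (q : ℝ) (m.XR x) (m.YR x)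

def kk : ℤ := p * p + q * q

def Chart.vio (i : ℕ) (c : ℤ × ℤ) : ℤ := vi i (kk p q) (m.u p q c) (m.v p q c)
noncomputable def Chart.vioR (i : ℕ) (x : Plane) : ℝ :=
  vi i (kk p q : ℝ) (m.uR p q x) (m.vR p q x)
def Chart.pt (c : ℤ × ℤ) : ℤ × ℤ × ℤ := nn m.j (kk p q) (m.u p q c) (m.v p q c)
noncomputable def Chart.ptR (x : Plane) : ℝ × ℝ × ℝ :=
  nn m.j (kk p q : ℝ) (m.uR p q x) (m.vR p q x)
def Chart.In (c : ℤ × ℤ) : Prop := InT (kk p q) (m.u p q c) (m.v p q c)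
def Chart.InR (x : Plane) : Prop := InT (kk p q : ℝ) (m.uR p q x) (m.vR p q x)

instance (c : ℤ × ℤ) : Decidable (m.In p q c) := by unfold Chart.In; infer_instance

end vals

variable {p q : ℤ} {m m' : Chart}

/-- the function `h` on the lattice and `g` on the plane are the same affine function -/
def Aff (h : ℤ × ℤ → ℤ) (g : Plane → ℝ) : Prop :=
  ∃ A B C : ℤ, (∀ c, h c = A * c.1 + B * c.2 + C) ∧ ∀ x, g x = A * x 0 + B * x 1 + C

lemma Aff.at {h : ℤ × ℤ → ℤ} {g : Plane → ℝ} (H : Aff h g) (c : ℤ × ℤ) (x : Plane) :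
    g x = h c + (x 0 - c.1) * ((h (c.1 + 1, c.2) : ℝ) - h c) +
      (x 1 - c.2) * ((h (c.1, c.2 + 1) : ℝ) - h c) := by
  obtain ⟨A, B, C, h1, h2⟩ := H
  rw [h2, h1, h1, h1]
  push_cast
  ring

lemma Aff.corner {h : ℤ × ℤ → ℤ} {g : Plane → ℝ} (H : Aff h g) (c : ℤ × ℤ) :
    h (c.1 + 1, c.2 + 1) = h (c.1 + 1, c.2) + h (c.1, c.2 + 1) - h c := by
  obtain ⟨A, B, C, h1, h2⟩ := H
  rw [h1, h1, h1, h1]
  ring

lemma Aff.lat {h : ℤ × ℤ → ℤ} {g : Plane → ℝ} (H : Aff h g) {v : ℤ × ℤ} {x : Plane}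
    (h0 : x 0 = v.1) (h1 : x 1 = v.2) : g x = h v := by
  rw [H.at v x, h0, h1]; ring

lemma aff_u : Aff (m.u p q) (m.uR p q) :=
  ⟨p * m.a + q * m.b, -p * m.b + q * m.a, p * m.s + q * m.t,
    fun c => by unfold Chart.u cu Chart.X Chart.Y; ring,
    fun x => by unfold Chart.uR cu Chart.XR Chart.YR; push_cast; ring⟩

lemma aff_v : Aff (m.v p q) (m.vR p q) :=
  ⟨-q * m.a + p * m.b, q * m.b + p * m.a, -q * m.s + p * m.t,
    fun c => by unfold Chart.v cv Chart.X Chart.Y; ring,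
    fun x => by unfold Chart.vR cv Chart.XR Chart.YR; push_cast; ring⟩

lemma Aff.neg {h : ℤ × ℤ → ℤ} {g : Plane → ℝ} (H : Aff h g) :
    Aff (fun c => - h c) (fun x => - g x) := by
  obtain ⟨A, B, C, h1, h2⟩ := H
  exact ⟨-A, -B, -C, fun c => by simp only [h1]; ring, fun x => by simp only [h2]; push_cast; ring⟩

lemma Aff.sub_const {h : ℤ × ℤ → ℤ} {g : Plane → ℝ} (H : Aff h g) (D : ℤ) :
    Aff (fun c => h c - D) (fun x => g x - (D : ℝ)) := by
  obtain ⟨A, B, C, h1, h2⟩ := H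
  exact ⟨A, B, C - D, fun c => by simp only [h1]; ring, fun x => by simp only [h2]; push_cast; ring⟩

lemma aff_const (D : ℤ) : Aff (fun _ => D) (fun _ => (D : ℝ)) :=
  ⟨0, 0, D, fun c => by ring, fun x => by push_cast; ring⟩

lemma aff_zero : Aff (fun _ => 0) (fun _ => (0 : ℝ)) :=
  ⟨0, 0, 0, fun c => by ring, fun x => by push_cast; ring⟩

lemma aff_vio (i : ℕ) : Aff (m.vio p q i) (m.vioR p q i) := by
  unfold Chart.vio Chart.vioR vi
  match i with
  | 0 => exact aff_v.neg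
  | 1 => exact aff_u.sub_const _
  | 2 => exact aff_v.sub_const _
  | (n + 3) => exact aff_u.neg

lemma aff_pt0 : Aff (fun c => (m.pt p q c).1) (fun x => (m.ptR p q x).1) := by
  unfold Chart.pt Chart.ptR
  obtain ⟨j, a, b, s, t⟩ := m
  match j with
  | 0 => exact aff_zero
  | 1 => exact aff_const _
  | 2 => exact aff_u
  | 3 => exact aff_v
  | 4 => exact aff_v
  | (n + 5) => exact aff_u

lemma aff_pt1 : Aff (fun c => (m.pt p q c).2.1) (fun x => (m.ptR p q x).2.1) := by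
  unfold Chart.pt Chart.ptR
  obtain ⟨j, a, b, s, t⟩ := m
  match j with
  | 0 => exact aff_v
  | 1 => exact aff_u
  | 2 => exact aff_zero
  | 3 => exact aff_const _
  | 4 => exact aff_u
  | (n + 5) => exact aff_v

lemma aff_pt2 : Aff (fun c => (m.pt p q c).2.2) (fun x => (m.ptR p q x).2.2) := by
  unfold Chart.pt Chart.ptR
  obtain ⟨j, a, b, s, t⟩ := m
  match j with
  | 0 => exact aff_u
  | 1 => exact aff_v
  | 2 => exact aff_v
  | 3 => exact aff_u
  | 4 => exact aff_zero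
  | (n + 5) => exact aff_const _

lemma InR_iff {x : Plane} : m.InR p q x ↔ ∀ i < 4, m.vioR p q i x ≤ 0 := inT_iff

/-- corners of a cell -/
def cor (c : ℤ × ℤ) : List (ℤ × ℤ) := [c, (c.1 + 1, c.2), (c.1, c.2 + 1), (c.1 + 1, c.2 + 1)]

lemma aff_le {h : ℤ × ℤ → ℤ} {g : Plane → ℝ} (H : Aff h g) {c : ℤ × ℤ}
    (hc : ∀ v ∈ cor c, h v ≤ 0) {x : Plane} (hx : x ∈ square c) : g x ≤ 0 := by
  have h00 : (h c : ℝ) ≤ 0 := by exact_mod_cast hc c (by simp [cor])
  have h10 : (h (c.1 + 1, c.2) : ℝ) ≤ 0 := by exact_mod_cast hc _ (by simp [cor])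
  have h01 : (h (c.1, c.2 + 1) : ℝ) ≤ 0 := by exact_mod_cast hc _ (by simp [cor])
  have h11 : (h (c.1 + 1, c.2 + 1) : ℝ) ≤ 0 := by exact_mod_cast hc _ (by simp [cor])
  have e : (h (c.1 + 1, c.2 + 1) : ℝ) = h (c.1 + 1, c.2) + h (c.1, c.2 + 1) - h c := by
    exact_mod_cast H.corner c
  obtain ⟨⟨a1, a2⟩, b1, b2⟩ := hx
  rw [H.at c x]
  set A := x 0 - c.1 with hA
  set B := x 1 - c.2 with hB
  have A0 : 0 ≤ A := by rw [hA]; linarith
  have A1 : A ≤ 1 := by rw [hA]; linarith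
  have B0 : 0 ≤ B := by rw [hB]; linarith
  have B1 : B ≤ 1 := by rw [hB]; linarith
  have key : (h c : ℝ) + A * ((h (c.1 + 1, c.2) : ℝ) - h c) + B * ((h (c.1, c.2 + 1) : ℝ) - h c) =
      (1 - A) * (1 - B) * h c + A * (1 - B) * h (c.1 + 1, c.2) +
        (1 - A) * B * h (c.1, c.2 + 1) + A * B * h (c.1 + 1, c.2 + 1) := by
    rw [e]; ring
  rw [key]
  have t1 := mul_nonneg (sub_nonneg.2 A1) (sub_nonneg.2 B1)
  have t2 := mul_nonneg A0 (sub_nonneg.2 B1)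
  have t3 := mul_nonneg (sub_nonneg.2 A1) B0
  have t4 := mul_nonneg A0 B0
  have := mul_nonpos_of_nonneg_of_nonpos t1 h00
  have := mul_nonpos_of_nonneg_of_nonpos t2 h10
  have := mul_nonpos_of_nonneg_of_nonpos t3 h01
  have := mul_nonpos_of_nonneg_of_nonpos t4 h11
  linarith

/-- an affine function, nonconstant in both directions, that is nonpositive on the corners of a
cell and vanishes at a point of the cell vanishes at a corner only -/
lemma aff_strict {h : ℤ × ℤ → ℤ} {g : Plane → ℝ} (H : Aff h g) {c : ℤ × ℤ}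
    (hc : ∀ v ∈ cor c, h v ≤ 0) (n1 : h (c.1 + 1, c.2) ≠ h c) (n2 : h (c.1, c.2 + 1) ≠ h c)
    {x : Plane} (hx : x ∈ square c) (h0 : g x = 0) : Lat x := by
  have h00 : (h c : ℝ) ≤ 0 := by exact_mod_cast hc c (by simp [cor])
  have h10 : (h (c.1 + 1, c.2) : ℝ) ≤ 0 := by exact_mod_cast hc _ (by simp [cor])
  have h01 : (h (c.1, c.2 + 1) : ℝ) ≤ 0 := by exact_mod_cast hc _ (by simp [cor])
  have h11 : (h (c.1 + 1, c.2 + 1) : ℝ) ≤ 0 := by exact_mod_cast hc _ (by simp [cor])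
  have e : (h (c.1 + 1, c.2 + 1) : ℝ) = h (c.1 + 1, c.2) + h (c.1, c.2 + 1) - h c := by
    exact_mod_cast H.corner c
  have n1' : (h (c.1 + 1, c.2) : ℝ) ≠ h c := by exact_mod_cast n1
  have n2' : (h (c.1, c.2 + 1) : ℝ) ≠ h c := by exact_mod_cast n2
  obtain ⟨⟨a1, a2⟩, b1, b2⟩ := hx
  rw [H.at c x] at h0
  set A := x 0 - c.1 with hA
  set B := x 1 - c.2 with hB
  have A0 : 0 ≤ A := by rw [hA]; linarith
  have A1 : A ≤ 1 := by rw [hA]; linarith
  have B0 : 0 ≤ B := by rw [hB]; linarith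
  have B1 : B ≤ 1 := by rw [hB]; linarith
  have key : (1 - A) * (1 - B) * h c + A * (1 - B) * h (c.1 + 1, c.2) +
        (1 - A) * B * h (c.1, c.2 + 1) + A * B * h (c.1 + 1, c.2 + 1) = 0 := by
    rw [e]; linear_combination h0
  have t1 := mul_nonpos_of_nonneg_of_nonpos (mul_nonneg (sub_nonneg.2 A1) (sub_nonneg.2 B1)) h00
  have t2 := mul_nonpos_of_nonneg_of_nonpos (mul_nonneg A0 (sub_nonneg.2 B1)) h10
  have t3 := mul_nonpos_of_nonneg_of_nonpos (mul_nonneg (sub_nonneg.2 A1) B0) h01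
  have t4 := mul_nonpos_of_nonneg_of_nonpos (mul_nonneg A0 B0) h11
  have s1 : (1 - A) * (1 - B) * (h c : ℝ) = 0 := by linarith
  have s2 : A * (1 - B) * (h (c.1 + 1, c.2) : ℝ) = 0 := by linarith
  have s3 : (1 - A) * B * (h (c.1, c.2 + 1) : ℝ) = 0 := by linarith
  have s4 : A * B * (h (c.1 + 1, c.2 + 1) : ℝ) = 0 := by linarith
  have hAA : A = 0 ∨ A = 1 := by
    by_contra hcon
    push Not at hcon
    have p1 : 0 < A := lt_of_le_of_ne A0 (Ne.symm hcon.1)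
    have p2 : 0 < 1 - A := sub_pos.2 (lt_of_le_of_ne A1 hcon.2)
    by_cases hb : B = 1
    · rw [hb, mul_one] at s3 s4
      have q1 : (h (c.1, c.2 + 1) : ℝ) = 0 := (mul_eq_zero.1 s3).resolve_left p2.ne'
      have q2 : (h (c.1 + 1, c.2 + 1) : ℝ) = 0 := (mul_eq_zero.1 s4).resolve_left p1.ne'
      rw [q1, q2] at e
      exact n1' (by linarith)
    · have p3 : 0 < 1 - B := sub_pos.2 (lt_of_le_of_ne B1 hb)
      have q1 : (h c : ℝ) = 0 := by
        rcases mul_eq_zero.1 s1 with h | h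
        · exact absurd h (mul_pos p2 p3).ne'
        · exact h
      have q2 : (h (c.1 + 1, c.2) : ℝ) = 0 := by
        rcases mul_eq_zero.1 s2 with h | h
        · exact absurd h (mul_pos p1 p3).ne'
        · exact h
      exact n1' (by rw [q1, q2])
  have hBB : B = 0 ∨ B = 1 := by
    by_contra hcon
    push Not at hcon
    have p1 : 0 < B := lt_of_le_of_ne B0 (Ne.symm hcon.1)
    have p2 : 0 < 1 - B := sub_pos.2 (lt_of_le_of_ne B1 hcon.2)
    rcases hAA with ha | ha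
    · rw [ha, sub_zero, one_mul] at s1 s3
      have q1 : (h c : ℝ) = 0 := (mul_eq_zero.1 s1).resolve_left p2.ne'
      have q2 : (h (c.1, c.2 + 1) : ℝ) = 0 := (mul_eq_zero.1 s3).resolve_left p1.ne'
      exact n2' (by rw [q1, q2])
    · rw [ha, one_mul] at s2 s4
      have q1 : (h (c.1 + 1, c.2) : ℝ) = 0 := (mul_eq_zero.1 s2).resolve_left p2.ne'
      have q2 : (h (c.1 + 1, c.2 + 1) : ℝ) = 0 := (mul_eq_zero.1 s4).resolve_left p1.ne'
      rw [q1, q2] at e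
      exact n2' (by linarith)
  rcases hAA with ha | ha <;> rcases hBB with hb | hb
  · exact ⟨c, by linarith, by linarith⟩
  · exact ⟨(c.1, c.2 + 1), by linarith, by push_cast; linarith⟩
  · exact ⟨(c.1 + 1, c.2), by push_cast; linarith, by linarith⟩
  · exact ⟨(c.1 + 1, c.2 + 1), by push_cast; linarith, by push_cast; linarith⟩

lemma vio_nonconst (hp : 1 ≤ p) (hq : 1 ≤ q) (hm : m.U) {i : ℕ} (hi : i < 4) (c : ℤ × ℤ) :
    m.vio p q i (c.1 + 1, c.2) ≠ m.vio p q i c ∧ m.vio p q i (c.1, c.2 + 1) ≠ m.vio p q i c := by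
  unfold Chart.vio Chart.u Chart.v Chart.X Chart.Y cu cv
  rcases hm with ⟨ha, hb⟩ | ⟨ha, hb⟩ | ⟨ha, hb⟩ | ⟨ha, hb⟩ <;> rw [ha, hb] <;>
    interval_cases i <;> simp only [vi] <;> constructor <;> intro h <;> nlinarith

end Pool.Agent.R170.Tilt
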