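import Mathlib
import Pool.Agent.R170.Tilt2

set_option autoImplicit false

namespace Pool.Agent.R170.Tilt

open Set Pool.Agent.Helper697.Rep

/-- the lattice cell `s` does not meet the open face -/
def Sep (p q : ℤ) (s : ℤ × ℤ) : Prop :=
  cu p q s.1 s.2 + p + q ≤ 0 ∨ kk p q ≤ cu p q s.1 s.2 ∨ cv p q s.1 s.2 + p ≤ 0 ∨
    kk p q ≤ cv p q s.1 s.2 - q

instance (p q : ℤ) (s : ℤ × ℤ) : Decidable (Sep p q s) := by unfold Sep; infer_instance

/-- a cell bent over an edge of the cube -/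
structure Bent (p q : ℤ) (m m' : Chart) (i i' : ℕ) (x : ℤ × ℤ × ℤ) (c : ℤ × ℤ) : Prop where
  hi : i < 4
  hi' : i' < 4
  hj : m.j ≠ m'.j
  o1 : ∀ v ∈ cor c, ∀ i2 < 4, i2 ≠ i → m.vio p q i2 v ≤ 0
  o2 : ∀ v ∈ cor c, ∀ i2 < 4, i2 ≠ i' → m'.vio p q i2 v ≤ 0
  s : ∀ v ∈ cor c, m.vio p q i v + m'.vio p q i' v = 0
  d0 : ∀ v ∈ cor c, (m.pt p q v).1 - (m'.pt p q v).1 = m.vio p q i v * x.1
  d1 : ∀ v ∈ cor c, (m.pt p q v).2.1 - (m'.pt p q v).2.1 = m.vio p q i v * x.2.1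
  d2 : ∀ v ∈ cor c, (m.pt p q v).2.2 - (m'.pt p q v).2.2 = m.vio p q i v * x.2.2

/-- the four cells around the lattice point `c` -/
def around (c : ℤ × ℤ) : List (ℤ × ℤ) := [c, (c.1 - 1, c.2), (c.1, c.2 - 1), (c.1 - 1, c.2 - 1)]

/-- integer data of a folding onto the cube with edge vector `(p, q)` -/
structure Fold (p q : ℤ) (P : Finset (ℤ × ℤ)) (L : ℤ × ℤ → List Chart) : Prop where
  hp : 1 ≤ p
  hq : 1 ≤ q
  unit : ∀ c ∈ P, ∀ m ∈ L c, m.U ∧ m.j < 6 ∧ ¬ Sep p q (m.cell c)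
  cell : ∀ c ∈ P, (∃ m, L c = [m] ∧ ∀ v ∈ cor c, m.In p q v) ∨
    ∃ m m' i i' x, L c = [m, m'] ∧ Bent p q m m' i i' x c
  latt : ∀ c ∈ P, ∀ c' ∈ P, ∀ m ∈ L c, ∀ m' ∈ L c', ∀ v ∈ cor c, v ∈ cor c' →
    m.In p q v → m'.In p q v → m.pt p q v = m'.pt p q v
  cont : ∀ c ∈ P, ∀ c' ∈ P, c ≠ c' → |c.1 - c'.1| ≤ 1 → |c.2 - c'.2| ≤ 1 → (c.1, c'.2) ∈ P →
    (c'.1, c.2) ∈ P → ∀ m ∈ L c, m ∈ L c' ∨ Sep p q (m.cell c')
  inj : ∀ c ∈ P, ∀ c' ∈ P, ∀ m ∈ L c, ∀ m' ∈ L c', m.j = m'.j → m.cell c = m'.cell c' →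
    c = c' ∧ m = m'
  surj : ∀ j < 6, ∀ a ∈ Finset.Icc (-q - 1) p, ∀ b ∈ Finset.Icc (-1) (p + q), ¬ Sep p q (a, b) →
    ∃ c ∈ P, ∃ m ∈ L c, m.j = j ∧ m.cell c = (a, b)
  vert : ∀ c ∈ P, (c.1 - 1, c.2) ∈ P → (c.1, c.2 - 1) ∈ P → (c.1 - 1, c.2 - 1) ∈ P →
    ∀ d ∈ around c, ∀ m ∈ L d, m.In p q c → ∀ j < 6, onF j (kk p q) (m.pt p q c) →
      ∃ d' ∈ around c, ∃ m' ∈ L d', m'.j = j ∧ m'.In p q c ∧ m'.pt p q c = m.pt p q c

section geom

variable {p q : ℤ}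

lemma kk_pos (hp : 1 ≤ p) (hq : 1 ≤ q) : 0 < kk p q := by unfold kk; nlinarith

lemma sep_lat (hp : 1 ≤ p) (hq : 1 ≤ q) {s : ℤ × ℤ} {X Y : ℝ} (h : InSq s X Y)
    (hT : InT (kk p q : ℝ) (cu (p : ℝ) q X Y) (cv (p : ℝ) q X Y)) (hs : Sep p q s) :
    ∃ a b : ℤ, X = a ∧ Y = b := by
  obtain ⟨⟨x1, x2⟩, y1, y2⟩ := h
  obtain ⟨⟨u0, u1⟩, v0, v1⟩ := hT
  have hp' : (1 : ℝ) ≤ p := by exact_mod_cast hp
  have hq' : (1 : ℝ) ≤ q := by exact_mod_cast hq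
  unfold cu at u0 u1
  unfold cv at v0 v1
  unfold Sep cu cv at hs
  rcases hs with hs | hs | hs | hs
  · have hs' : (p : ℝ) * s.1 + q * s.2 + p + q ≤ 0 := by exact_mod_cast hs
    have e1 : X = s.1 + 1 := by nlinarith
    have e2 : Y = s.2 + 1 := by nlinarith
    exact ⟨s.1 + 1, s.2 + 1, by push_cast; exact e1, by push_cast; exact e2⟩
  · have hs' : (kk p q : ℝ) ≤ (p : ℝ) * s.1 + q * s.2 := by exact_mod_cast hs
    have e1 : X = s.1 := by nlinarith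
    have e2 : Y = s.2 := by nlinarith
    exact ⟨s.1, s.2, e1, e2⟩
  · have hs' : -(q : ℝ) * s.1 + p * s.2 + p ≤ 0 := by exact_mod_cast hs
    have e1 : X = s.1 := by nlinarith
    have e2 : Y = s.2 + 1 := by nlinarith
    exact ⟨s.1, s.2 + 1, e1, by push_cast; exact e2⟩
  · have hs' : (kk p q : ℝ) ≤ -(q : ℝ) * s.1 + p * s.2 - q := by exact_mod_cast hs
    have e1 : X = s.1 + 1 := by nlinarith
    have e2 : Y = s.2 := by nlinarith
    exact ⟨s.1 + 1, s.2, by push_cast; exact e1, e2⟩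

lemma find_cell (hp : 1 ≤ p) (hq : 1 ≤ q) {X Y : ℝ}
    (hT : InT (kk p q : ℝ) (cu (p : ℝ) q X Y) (cv (p : ℝ) q X Y)) :
    ∃ a ∈ Finset.Icc (-q - 1) p, ∃ b ∈ Finset.Icc (-1) (p + q), ¬ Sep p q (a, b) ∧
      InSq (a, b) X Y := by
  obtain ⟨⟨u0, u1⟩, v0, v1⟩ := hT
  have hp' : (1 : ℝ) ≤ p := by exact_mod_cast hp
  have hq' : (1 : ℝ) ≤ q := by exact_mod_cast hq
  unfold cu at u0 u1
  unfold cv at v0 v1
  have hk : (kk p q : ℝ) = p * p + q * q := by unfold kk; push_cast; ring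
  rw [hk] at u1 v1
  have hk0 : (0 : ℝ) < p * p + q * q := by nlinarith
  have X1 : X ≤ p := by
    have : (p * p + q * q : ℝ) * X ≤ (p * p + q * q) * p := by nlinarith
    exact le_of_mul_le_mul_left this hk0
  have X0 : -(q : ℝ) ≤ X := by
    have : (p * p + q * q : ℝ) * (-q) ≤ (p * p + q * q) * X := by nlinarith
    exact le_of_mul_le_mul_left this hk0
  have Y1 : Y ≤ p + q := by
    have : (p * p + q * q : ℝ) * Y ≤ (p * p + q * q) * (p + q) := by nlinarith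
    exact le_of_mul_le_mul_left this hk0
  have Y0 : 0 ≤ Y := by
    have : (p * p + q * q : ℝ) * 0 ≤ (p * p + q * q) * Y := by nlinarith
    exact le_of_mul_le_mul_left this hk0
  obtain ⟨i, hi⟩ : ∃ i, i = ⌊X⌋ := ⟨_, rfl⟩
  obtain ⟨j, hj⟩ : ∃ j, j = ⌊Y⌋ := ⟨_, rfl⟩
  have i1 : (i : ℝ) ≤ X := by rw [hi]; exact Int.floor_le _
  have i2 : X < (i : ℝ) + 1 := by rw [hi]; exact Int.lt_floor_add_one _
  have j1 : (j : ℝ) ≤ Y := by rw [hj]; exact Int.floor_le _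
  have j2 : Y < (j : ℝ) + 1 := by rw [hj]; exact Int.lt_floor_add_one _
  have bi1 : i ≤ p := by exact_mod_cast i1.trans X1
  have bi0 : -q - 1 < i := by
    have : -(q : ℝ) - 1 < i := by linarith
    exact_mod_cast this
  have bj1 : j ≤ p + q := by exact_mod_cast j1.trans Y1
  have bj0 : -1 < j := by
    have : -(1 : ℝ) < j := by linarith
    exact_mod_cast this
  by_cases hs : Sep p q (i, j)
  · unfold Sep cu cv at hs
    rcases hs with hs | hs | hs | hs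
    · exfalso
      have hs' : (p : ℝ) * i + q * j + p + q ≤ 0 := by exact_mod_cast hs
      nlinarith
    · have hs' : (p * p + q * q : ℝ) ≤ (p : ℝ) * i + q * j := by
        rw [← hk]; exact_mod_cast hs
      have e1 : X = i := by nlinarith
      have e2 : Y = j := by nlinarith
      have u1' : p * i + q * j ≤ p * p + q * q := by
        rw [e1, e2] at u1; exact_mod_cast u1
      have v0' : 0 ≤ -q * i + p * j := by
        rw [e1, e2] at v0; exact_mod_cast v0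
      have v1' : -q * i + p * j ≤ p * p + q * q := by
        rw [e1, e2] at v1; exact_mod_cast v1
      have X0' : -q ≤ i := by rw [e1] at X0; exact_mod_cast X0
      have Y0' : 0 ≤ j := by rw [e2] at Y0; exact_mod_cast Y0
      refine ⟨i - 1, by rw [Finset.mem_Icc]; omega, j - 1, by rw [Finset.mem_Icc]; omega, ?_, ?_⟩
      · unfold Sep cu cv kk
        simp only
        have hs2 : p * p + q * q ≤ p * i + q * j := hs
        rintro (h | h | h | h) <;> nlinarith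
      · refine ⟨⟨?_, ?_⟩, ?_, ?_⟩ <;> push_cast <;> linarith
    · exfalso
      have hs' : -(q : ℝ) * i + p * j + p ≤ 0 := by exact_mod_cast hs
      nlinarith
    · exfalso
      have hs' : (p * p + q * q : ℝ) ≤ -(q : ℝ) * i + p * j - q := by
        rw [← hk]; exact_mod_cast hs
      nlinarith
  · exact ⟨i, by rw [Finset.mem_Icc]; omega, j, by rw [Finset.mem_Icc]; omega, hs,
      ⟨i1, i2.le⟩, j1, j2.le⟩

end geom

lemma chart_surj {m : Chart} (hm : m.U) (X Y : ℝ) : ∃ x : Plane, m.XR x = X ∧ m.YR x = Y := by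
  unfold Chart.XR Chart.YR
  rcases hm with ⟨ha, hb⟩ | ⟨ha, hb⟩ | ⟨ha, hb⟩ | ⟨ha, hb⟩ <;> rw [ha, hb]
  · exact ⟨!₂[X - m.s, Y - m.t], by simp, by simp⟩
  · exact ⟨!₂[Y - m.t, -(X - m.s)], by simp, by simp⟩
  · exact ⟨!₂[-(X - m.s), -(Y - m.t)], by simp, by simp⟩
  · exact ⟨!₂[-(Y - m.t), X - m.s], by simp, by simp⟩

lemma inT_vi_int {k u v : ℤ} (h : InT k u v) {i : ℕ} (hi : i < 4) : vi i k u v ≤ 0 := by
  obtain ⟨⟨h1, h2⟩, h3, h4⟩ := h
  interval_cases i <;> simp only [vi] <;> omega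

namespace Bent

variable {p q : ℤ} {m m' : Chart} {i i' : ℕ} {xi : ℤ × ℤ × ℤ} {c : ℤ × ℤ}

lemma sum (B : Bent p q m m' i i' xi c) (x : Plane) : m.vioR p q i x + m'.vioR p q i' x = 0 := by
  have e0 := B.s c (by simp [cor])
  have e1 := B.s (c.1 + 1, c.2) (by simp [cor])
  have e2 := B.s (c.1, c.2 + 1) (by simp [cor])
  have f0 : (m.vio p q i c : ℝ) + m'.vio p q i' c = 0 := by exact_mod_cast e0
  have f1 : (m.vio p q i (c.1 + 1, c.2) : ℝ) + m'.vio p q i' (c.1 + 1, c.2) = 0 := by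
    exact_mod_cast e1
  have f2 : (m.vio p q i (c.1, c.2 + 1) : ℝ) + m'.vio p q i' (c.1, c.2 + 1) = 0 := by
    exact_mod_cast e2
  rw [(aff_vio i).at c x, (aff_vio i').at c x]
  linear_combination f0 + (x 0 - c.1) * (f1 - f0) + (x 1 - c.2) * (f2 - f0)

lemma diff_aux {h h' : ℤ × ℤ → ℤ} {g g' : Plane → ℝ} (H : Aff h g) (H' : Aff h' g') (t : ℤ)
    (hd : ∀ v ∈ cor c, h v - h' v = m.vio p q i v * t) (x : Plane) :
    g x - g' x = m.vioR p q i x * t := by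
  have f0 : (h c : ℝ) - h' c = m.vio p q i c * t := by
    exact_mod_cast hd c (by simp [cor])
  have f1 : (h (c.1 + 1, c.2) : ℝ) - h' (c.1 + 1, c.2) = m.vio p q i (c.1 + 1, c.2) * t := by
    exact_mod_cast hd (c.1 + 1, c.2) (by simp [cor])
  have f2 : (h (c.1, c.2 + 1) : ℝ) - h' (c.1, c.2 + 1) = m.vio p q i (c.1, c.2 + 1) * t := by
    exact_mod_cast hd (c.1, c.2 + 1) (by simp [cor])
  rw [(aff_vio i).at c x, H.at c x, H'.at c x]
  linear_combination f0 + (x 0 - c.1) * (f1 - f0) + (x 1 - c.2) * (f2 - f0)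

lemma pt_eq (B : Bent p q m m' i i' xi c) {x : Plane} (h0 : m.vioR p q i x = 0) :
    m.ptR p q x = m'.ptR p q x := by
  have e0 := diff_aux aff_pt0 aff_pt0 xi.1 B.d0 x
  have e1 := diff_aux aff_pt1 aff_pt1 xi.2.1 B.d1 x
  have e2 := diff_aux aff_pt2 aff_pt2 xi.2.2 B.d2 x
  rw [h0, zero_mul] at e0 e1 e2
  exact Prod.ext (sub_eq_zero.1 e0) (Prod.ext (sub_eq_zero.1 e1) (sub_eq_zero.1 e2))

end Bent

end Pool.Agent.R170.Tilt
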