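import Mathlib
import Pool.Agent.R170.Tilt3

set_option autoImplicit false

namespace Pool.Agent.R170.Tilt

open Set Pool.Agent.Helper697.Rep

noncomputable def toSp (k : ℝ) (z : ℝ × ℝ × ℝ) : Space :=
  !₂[z.1 / √k, z.2.1 / √k, z.2.2 / √k]

lemma toSp_inj {k : ℝ} (hk : 0 < k) {z w : ℝ × ℝ × ℝ} (h : toSp k z = toSp k w) : z = w := by
  have hs : √k ≠ 0 := (Real.sqrt_pos.2 hk).ne'
  have h0 : z.1 / √k = w.1 / √k := congrArg (fun v : Space => v 0) h
  have h1 : z.2.1 / √k = w.2.1 / √k := congrArg (fun v : Space => v 1) h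
  have h2 : z.2.2 / √k = w.2.2 / √k := congrArg (fun v : Space => v 2) h
  rw [div_left_inj' hs] at h0 h1 h2
  exact Prod.ext h0 (Prod.ext h1 h2)

lemma cor_of_lat {c v : ℤ × ℤ} {x : Plane} (hx : x ∈ square c) (h0 : x 0 = v.1)
    (h1 : x 1 = v.2) : v ∈ cor c := by
  obtain ⟨⟨a1, a2⟩, b1, b2⟩ := hx
  rw [h0] at a1 a2
  rw [h1] at b1 b2
  have a3 : (v.1 : ℝ) ≤ ((c.1 + 1 : ℤ) : ℝ) := by push_cast; exact a2
  have b3 : (v.2 : ℝ) ≤ ((c.2 + 1 : ℤ) : ℝ) := by push_cast; exact b2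
  have a1' : c.1 ≤ v.1 := Int.cast_le.1 a1
  have a2' : v.1 ≤ c.1 + 1 := Int.cast_le.1 a3
  have b1' : c.2 ≤ v.2 := Int.cast_le.1 b1
  have b2' : v.2 ≤ c.2 + 1 := Int.cast_le.1 b3
  simp only [cor, List.mem_cons, List.not_mem_nil, or_false, Prod.ext_iff]
  omega

lemma creased_cont {f : Plane → Space} {R : Set Plane} (h : CreasedOn f R) : ContinuousOn f R := by
  obtain ⟨C, hC, rfl, h⟩ := h
  have key : ∀ S ∈ C, ContinuousOn f S := by
    intro S hS
    have := (h S hS).2.2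
    intro x hx
    rw [Metric.continuousWithinAt_iff]
    intro ε hε
    exact ⟨ε, hε, fun {y} hy hd => by rw [this y hy x hx]; exact hd⟩
  have hcl : ∀ S ∈ C, IsClosed S := fun S hS => (h S hS).2.1
  clear h
  induction C, hC using Set.Finite.induction_on with
  | empty => simp
  | @insert S C _ hC ih =>
    rw [sUnion_insert]
    refine ContinuousOn.union_of_isClosed (key S (mem_insert _ _))
      (ih (fun T hT => key T (mem_insert_of_mem _ hT)) (fun T hT => hcl T (mem_insert_of_mem _ hT)))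
      (hcl S (mem_insert _ _)) ?_
    rw [sUnion_eq_biUnion]
    exact hC.isClosed_biUnion fun T hT => hcl T (mem_insert_of_mem _ hT)

namespace Fold

variable {p q : ℤ} {P : Finset (ℤ × ℤ)} {L : ℤ × ℤ → List Chart}

lemma kpos (H : Fold p q P L) : (0 : ℝ) < kk p q := by exact_mod_cast kk_pos H.hp H.hq

lemma cover (H : Fold p q P L) {c : ℤ × ℤ} (hc : c ∈ P) {x : Plane} (hx : x ∈ square c) :
    ∃ m ∈ L c, m.InR p q x := by
  rcases H.cell c hc with ⟨m, hm, h⟩ | ⟨m, m', i, i', xi, hm, B⟩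
  · refine ⟨m, by simp [hm], ?_⟩
    rw [InR_iff]
    intro i hi
    exact aff_le (aff_vio i) (fun v hv => inT_vi_int (h v hv) hi) hx
  · rcases le_total (m.vioR p q i x) 0 with h | h
    · refine ⟨m, by simp [hm], ?_⟩
      rw [InR_iff]
      intro i2 hi2
      by_cases e : i2 = i
      · rw [e]; exact h
      · exact aff_le (aff_vio i2) (fun v hv => B.o1 v hv i2 hi2 e) hx
    · refine ⟨m', by simp [hm], ?_⟩
      rw [InR_iff]
      intro i2 hi2
      by_cases e : i2 = i'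
      · rw [e]
        have := B.sum x
        linarith
      · exact aff_le (aff_vio i2) (fun v hv => B.o2 v hv i2 hi2 e) hx

lemma cons (H : Fold p q P L) {c : ℤ × ℤ} (hc : c ∈ P) {x : Plane}
    {m m' : Chart} (hm : m ∈ L c) (hm' : m' ∈ L c) (h : m.InR p q x) (h' : m'.InR p q x) :
    m.ptR p q x = m'.ptR p q x := by
  rcases H.cell c hc with ⟨m0, h0, -⟩ | ⟨m1, m2, i, i', xi, h0, B⟩
  · rw [h0] at hm hm'
    simp only [List.mem_singleton] at hm hm'
    rw [hm, hm']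
  · have key : m1.InR p q x → m2.InR p q x → m1.ptR p q x = m2.ptR p q x := by
      intro g g'
      have s1 := InR_iff.1 g i B.hi
      have s2 := InR_iff.1 g' i' B.hi'
      exact B.pt_eq (by have := B.sum x; linarith)
    rw [h0] at hm hm'
    simp only [List.mem_cons, List.not_mem_nil, or_false] at hm hm'
    rcases hm with rfl | rfl <;> rcases hm' with rfl | rfl
    · rfl
    · exact key h h'
    · exact (key h' h).symm
    · rfl

lemma lat_int {m : Chart} {x : Plane} {v : ℤ × ℤ} (h0 : x 0 = v.1) (h1 : x 1 = v.2) :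
    (m.InR p q x ↔ m.In p q v) ∧
      m.ptR p q x = (((m.pt p q v).1 : ℝ), ((m.pt p q v).2.1 : ℝ), ((m.pt p q v).2.2 : ℝ)) := by
  refine ⟨?_, ?_⟩
  · unfold Chart.InR Chart.In InT
    rw [(aff_u).lat h0 h1, (aff_v).lat h0 h1]
    norm_cast
  · exact Prod.ext (aff_pt0.lat h0 h1) (Prod.ext (aff_pt1.lat h0 h1) (aff_pt2.lat h0 h1))

lemma close_of_mem {c c' : ℤ × ℤ} {x : Plane} (hx : x ∈ square c) (hx' : x ∈ square c') :
    |c.1 - c'.1| ≤ 1 ∧ |c.2 - c'.2| ≤ 1 := by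
  obtain ⟨⟨a1, a2⟩, b1, b2⟩ := hx
  obtain ⟨⟨a1', a2'⟩, b1', b2'⟩ := hx'
  have e1 : (c.1 : ℝ) ≤ c'.1 + 1 := by linarith
  have e2 : (c'.1 : ℝ) ≤ c.1 + 1 := by linarith
  have e3 : (c.2 : ℝ) ≤ c'.2 + 1 := by linarith
  have e4 : (c'.2 : ℝ) ≤ c.2 + 1 := by linarith
  have e1' : c.1 ≤ c'.1 + 1 := by exact_mod_cast e1
  have e2' : c'.1 ≤ c.1 + 1 := by exact_mod_cast e2
  have e3' : c.2 ≤ c'.2 + 1 := by exact_mod_cast e3
  have e4' : c'.2 ≤ c.2 + 1 := by exact_mod_cast e4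
  rw [abs_le, abs_le]
  omega

lemma edge_of_not_lat {c c' : ℤ × ℤ} {x : Plane} (hx : x ∈ square c) (hx' : x ∈ square c')
    (hl : ¬ Lat x) : c.1 = c'.1 ∨ c.2 = c'.2 := by
  by_contra hcon
  push Not at hcon
  obtain ⟨n1, n2⟩ := hcon
  obtain ⟨h1, h2⟩ := close_of_mem hx hx'
  rw [abs_le] at h1 h2
  obtain ⟨⟨a1, a2⟩, b1, b2⟩ := hx
  obtain ⟨⟨a1', a2'⟩, b1', b2'⟩ := hx'
  apply hl
  have k1 : ∃ a : ℤ, x 0 = a := by
    rcases lt_or_gt_of_ne n1 with h | h
    · have e : c'.1 = c.1 + 1 := by omega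
      rw [e] at a1'
      push_cast at a1'
      exact ⟨c.1 + 1, by push_cast; linarith⟩
    · have e : c.1 = c'.1 + 1 := by omega
      rw [e] at a1
      push_cast at a1
      exact ⟨c'.1 + 1, by push_cast; linarith⟩
  have k2 : ∃ a : ℤ, x 1 = a := by
    rcases lt_or_gt_of_ne n2 with h | h
    · have e : c'.2 = c.2 + 1 := by omega
      rw [e] at b1'
      push_cast at b1'
      exact ⟨c.2 + 1, by push_cast; linarith⟩
    · have e : c.2 = c'.2 + 1 := by omega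
      rw [e] at b1
      push_cast at b1
      exact ⟨c'.2 + 1, by push_cast; linarith⟩
  obtain ⟨a, ha⟩ := k1
  obtain ⟨b, hb⟩ := k2
  exact ⟨(a, b), ha, hb⟩

lemma not_sep (H : Fold p q P L) {m : Chart} (hm : m.U) {c : ℤ × ℤ} {x : Plane}
    (hx : x ∈ square c) (hl : ¬ Lat x) (h : m.InR p q x) : ¬ Sep p q (m.cell c) := by
  intro hs
  obtain ⟨a, b, ha, hb⟩ := sep_lat H.hp H.hq ((cell_mem hm c x).1 hx) h hs
  exact hl (lat_of_chart hm ha hb)

lemma well (H : Fold p q P L) {c c' : ℤ × ℤ} (hc : c ∈ P) (hc' : c' ∈ P) {x : Plane}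
    (hx : x ∈ square c) (hx' : x ∈ square c') {m m' : Chart} (hm : m ∈ L c) (hm' : m' ∈ L c')
    (h : m.InR p q x) (h' : m'.InR p q x) : m.ptR p q x = m'.ptR p q x := by
  by_cases hl : Lat x
  · obtain ⟨v, v0, v1⟩ := hl
    obtain ⟨i1, e1⟩ := lat_int (p := p) (q := q) (m := m) v0 v1
    obtain ⟨i2, e2⟩ := lat_int (p := p) (q := q) (m := m') v0 v1
    rw [e1, e2, H.latt c hc c' hc' m hm m' hm' v (cor_of_lat hx v0 v1) (cor_of_lat hx' v0 v1)
      (i1.1 h) (i2.1 h')]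
  · by_cases e : c = c'
    · subst e
      exact H.cons hc hm hm' h h'
    · obtain ⟨k1, k2⟩ := close_of_mem hx hx'
      have hmU := (H.unit c hc m hm).1
      have hcorn : (c.1, c'.2) ∈ P ∧ (c'.1, c.2) ∈ P := by
        rcases edge_of_not_lat hx hx' hl with g | g
        · rw [g]; exact ⟨hc', by rw [← g]; exact hc⟩
        · rw [g, ← g]; exact ⟨hc, by rw [g]; exact hc'⟩
      have := (H.cont c hc c' hc' e k1 k2 hcorn.1 hcorn.2 m hm).resolve_right
        (H.not_sep hmU hx' hl h)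
      exact H.cons hc' this hm' h h'

open Classical in
noncomputable def fm (p q : ℤ) (P : Finset (ℤ × ℤ)) (L : ℤ × ℤ → List Chart) (x : Plane) : Space :=
  if h : ∃ z : ℝ × ℝ × ℝ, ∃ c ∈ P, ∃ m ∈ L c, x ∈ square c ∧ m.InR p q x ∧ z = m.ptR p q x then
    toSp (kk p q) h.choose else 0

lemma fm_eq (H : Fold p q P L) {c : ℤ × ℤ} (hc : c ∈ P) {x : Plane} (hx : x ∈ square c)
    {m : Chart} (hm : m ∈ L c) (h : m.InR p q x) : fm p q P L x = toSp (kk p q) (m.ptR p q x) := by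
  have hex : ∃ z : ℝ × ℝ × ℝ, ∃ c ∈ P, ∃ m ∈ L c, x ∈ square c ∧ m.InR p q x ∧
      z = m.ptR p q x := ⟨_, c, hc, m, hm, hx, h, rfl⟩
  rw [fm, dif_pos hex]
  obtain ⟨c', hc', m', hm', hx', h', e⟩ := hex.choose_spec
  rw [e, H.well hc hc' hx hx' hm hm' h h']

lemma sq_sum {m : Chart} (hm : m.U) (x y : Plane) :
    (m.uR p q x - m.uR p q y) ^ 2 + (m.vR p q x - m.vR p q y) ^ 2 =
      (kk p q : ℝ) * ((x 0 - y 0) ^ 2 + (x 1 - y 1) ^ 2) := by
  unfold Chart.uR Chart.vR cu cv Chart.XR Chart.YR kk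
  push_cast
  rcases hm with ⟨ha, hb⟩ | ⟨ha, hb⟩ | ⟨ha, hb⟩ | ⟨ha, hb⟩ <;> rw [ha, hb] <;> push_cast <;> ring

lemma nn_sq {k u v u' v' : ℝ} (j : ℕ) :
    ((nn j k u v).1 - (nn j k u' v').1) ^ 2 + ((nn j k u v).2.1 - (nn j k u' v').2.1) ^ 2 +
      ((nn j k u v).2.2 - (nn j k u' v').2.2) ^ 2 = (u - u') ^ 2 + (v - v') ^ 2 := by
  unfold nn
  split <;> simp only <;> ring

lemma dist_toSp (H : Fold p q P L) {m : Chart} (hm : m.U) (x y : Plane) :
    dist (toSp (kk p q) (m.ptR p q x)) (toSp (kk p q) (m.ptR p q y)) = dist x y := by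
  have hk := H.kpos
  have hs : √(kk p q : ℝ) ≠ 0 := (Real.sqrt_pos.2 hk).ne'
  have hss : √(kk p q : ℝ) ^ 2 = kk p q := Real.sq_sqrt hk.le
  rw [EuclideanSpace.dist_eq, EuclideanSpace.dist_eq, Fin.sum_univ_three, Fin.sum_univ_two]
  simp only [Real.dist_eq, sq_abs]
  have e0 : (toSp (kk p q) (m.ptR p q x)) 0 = (m.ptR p q x).1 / √(kk p q) := rfl
  have e1 : (toSp (kk p q) (m.ptR p q x)) 1 = (m.ptR p q x).2.1 / √(kk p q) := rfl
  have e2 : (toSp (kk p q) (m.ptR p q x)) 2 = (m.ptR p q x).2.2 / √(kk p q) := rfl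
  have f0 : (toSp (kk p q) (m.ptR p q y)) 0 = (m.ptR p q y).1 / √(kk p q) := rfl
  have f1 : (toSp (kk p q) (m.ptR p q y)) 1 = (m.ptR p q y).2.1 / √(kk p q) := rfl
  have f2 : (toSp (kk p q) (m.ptR p q y)) 2 = (m.ptR p q y).2.2 / √(kk p q) := rfl
  rw [e0, e1, e2, f0, f1, f2, ← sub_div, ← sub_div, ← sub_div, div_pow, div_pow, div_pow,
    ← add_div, ← add_div, hss]
  congr 1
  unfold Chart.ptR
  rw [nn_sq, sq_sum hm]
  field_simp

lemma toSp_mem {k : ℝ} (hk : 0 < k) (j : ℕ) {u v : ℝ} (h : InT k u v) :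
    toSp k (nn j k u v) ∈ cubeSurface (√k) := by
  obtain ⟨⟨u0, u1⟩, v0, v1⟩ := h
  have hs : 0 < √k := Real.sqrt_pos.2 hk
  have hkk : k / √k = √k := Real.div_sqrt
  have key : ∀ t : ℝ, 0 ≤ t → t ≤ k → 0 ≤ t / √k ∧ t / √k ≤ √k := by
    intro t t0 t1
    refine ⟨by positivity, ?_⟩
    calc t / √k ≤ k / √k := by gcongr
      _ = √k := hkk
  have hz : (0 : ℝ) / √k = 0 := zero_div _
  have k0 := key 0 le_rfl hk.le
  have k1 := key k hk.le le_rfl
  have ku := key u u0 u1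
  have kv := key v v0 v1
  refine ⟨?_, ?_⟩
  · intro i
    fin_cases i
    · change 0 ≤ (nn j k u v).1 / √k ∧ (nn j k u v).1 / √k ≤ √k
      unfold nn; split <;> assumption
    · change 0 ≤ (nn j k u v).2.1 / √k ∧ (nn j k u v).2.1 / √k ≤ √k
      unfold nn; split <;> assumption
    · change 0 ≤ (nn j k u v).2.2 / √k ∧ (nn j k u v).2.2 / √k ≤ √k
      unfold nn; split <;> assumption
  · match j with
    | 0 => exact ⟨0, Or.inl hz⟩
    | 1 => exact ⟨0, Or.inr hkk⟩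
    | 2 => exact ⟨1, Or.inl hz⟩
    | 3 => exact ⟨1, Or.inr hkk⟩
    | 4 => exact ⟨2, Or.inl hz⟩
    | (n + 5) => exact ⟨2, Or.inr hkk⟩

lemma surface_nn {k : ℝ} (hk : 0 < k) {z : Space} (hz : z ∈ cubeSurface (√k)) :
    ∃ j < 6, ∃ u v, InT k u v ∧ z = toSp k (nn j k u v) := by
  obtain ⟨hb, hf⟩ := hz
  have hs : 0 < √k := Real.sqrt_pos.2 hk
  have hss : √k * √k = k := Real.mul_self_sqrt hk.le
  have key : ∀ i, 0 ≤ z i * √k ∧ z i * √k ≤ k := fun i =>
    ⟨mul_nonneg (hb i).1 hs.le, by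
      calc z i * √k ≤ √k * √k := by gcongr; exact (hb i).2
        _ = k := hss⟩
  have hd : ∀ t : ℝ, t * √k / √k = t := fun t => mul_div_cancel_right₀ t hs.ne'
  have hkk : k / √k = √k := Real.div_sqrt
  have mk : ∀ a b c : ℝ, a / √k = z 0 → b / √k = z 1 → c / √k = z 2 → z = toSp k (a, b, c) := by
    intro a b c h0 h1 h2
    ext i
    fin_cases i
    · exact h0.symm
    · exact h1.symm
    · exact h2.symm
  obtain ⟨i, hi⟩ := hf
  fin_cases i
  · rcases hi with h | h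
    · exact ⟨0, by norm_num, z 2 * √k, z 1 * √k, ⟨key 2, key 1⟩,
        mk _ _ _ (by rw [zero_div]; exact h.symm) (hd _) (hd _)⟩
    · exact ⟨1, by norm_num, z 1 * √k, z 2 * √k, ⟨key 1, key 2⟩,
        mk _ _ _ (by rw [hkk]; exact h.symm) (hd _) (hd _)⟩
  · rcases hi with h | h
    · exact ⟨2, by norm_num, z 0 * √k, z 2 * √k, ⟨key 0, key 2⟩,
        mk _ _ _ (hd _) (by rw [zero_div]; exact h.symm) (hd _)⟩
    · exact ⟨3, by norm_num, z 2 * √k, z 0 * √k, ⟨key 2, key 0⟩,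
        mk _ _ _ (hd _) (by rw [hkk]; exact h.symm) (hd _)⟩
  · rcases hi with h | h
    · exact ⟨4, by norm_num, z 1 * √k, z 0 * √k, ⟨key 1, key 0⟩,
        mk _ _ _ (hd _) (hd _) (by rw [zero_div]; exact h.symm)⟩
    · exact ⟨5, by norm_num, z 0 * √k, z 1 * √k, ⟨key 0, key 1⟩,
        mk _ _ _ (hd _) (hd _) (by rw [hkk]; exact h.symm)⟩

lemma onto (H : Fold p q P L) {z : Space} (hz : z ∈ cubeSurface (√(kk p q : ℝ))) :
    ∃ x ∈ region P, fm p q P L x = z := by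
  have hk := H.kpos
  obtain ⟨j, hj, u, v, hT, rfl⟩ := surface_nn hk hz
  have hk2 : (kk p q : ℝ) = p * p + q * q := by unfold kk; push_cast; ring
  obtain ⟨X, hX⟩ : ∃ X : ℝ, X = (p * u - q * v) / kk p q := ⟨_, rfl⟩
  obtain ⟨Y, hY⟩ : ∃ Y : ℝ, Y = (q * u + p * v) / kk p q := ⟨_, rfl⟩
  have eu : cu (p : ℝ) q X Y = u := by
    unfold cu; rw [hX, hY]; field_simp; rw [hk2]; ring
  have ev : cv (p : ℝ) q X Y = v := by
    unfold cv; rw [hX, hY]; field_simp; rw [hk2]; ring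
  obtain ⟨a, ha, b, hb, hs, hin⟩ := find_cell (X := X) (Y := Y) H.hp H.hq (by rw [eu, ev]; exact hT)
  obtain ⟨c, hc, m, hm, hmj, hmc⟩ := H.surj j hj a ha b hb hs
  have hmU := (H.unit c hc m hm).1
  obtain ⟨x, x0, x1⟩ := chart_surj hmU X Y
  have hxc : x ∈ square c := by
    rw [cell_mem hmU, hmc, x0, x1]; exact hin
  have hu : m.uR p q x = u := by unfold Chart.uR; rw [x0, x1]; exact eu
  have hv : m.vR p q x = v := by unfold Chart.vR; rw [x0, x1]; exact ev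
  have hI : m.InR p q x := by unfold Chart.InR; rw [hu, hv]; exact hT
  refine ⟨x, mem_biUnion hc hxc, ?_⟩
  rw [H.fm_eq hc hxc hm hI]
  unfold Chart.ptR
  rw [hu, hv, hmj]

lemma creased (H : Fold p q P L) : CreasedOn (fm p q P L) (region P) := by
  classical
  refine ⟨⋃ c ∈ P, (fun m : Chart => square c ∩ {x | m.InR p q x}) '' {m | m ∈ L c}, ?_, ?_, ?_⟩
  · refine Set.Finite.biUnion P.finite_toSet fun c _ => ?_
    exact (List.finite_toSet (L c)).image _
  · ext x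
    constructor
    · rintro ⟨S, hS, hx⟩
      simp only [mem_iUnion, mem_image] at hS
      obtain ⟨c, hc, m, hm, rfl⟩ := hS
      exact mem_biUnion hc hx.1
    · intro hx
      simp only [region, mem_iUnion] at hx
      obtain ⟨c, hc, hxc⟩ := hx
      obtain ⟨m, hm, hI⟩ := H.cover hc hxc
      refine ⟨square c ∩ {x | m.InR p q x}, ?_, hxc, hI⟩
      simp only [mem_iUnion, mem_image]
      exact ⟨c, hc, m, hm, rfl⟩
  · intro S hS
    simp only [mem_iUnion, mem_image] at hS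
    obtain ⟨c, hc, m, hm, rfl⟩ := hS
    have hmU := (H.unit c hc m hm).1
    obtain ⟨A, B, C, -, hu⟩ := aff_u (p := p) (q := q) (m := m)
    obtain ⟨A', B', C', -, hv⟩ := aff_v (p := p) (q := q) (m := m)
    refine ⟨(square_convex c).inter ?_, (square_closed c).inter ?_, ?_⟩
    · intro x hx y hy a b ha hb hab
      have e1 : m.uR p q (a • x + b • y) = a * m.uR p q x + b * m.uR p q y := by
        rw [hu, hu, hu]
        have e : a = 1 - b := by linarith
        subst e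
        simp only [PiLp.add_apply, PiLp.smul_apply, smul_eq_mul]
        ring
      have e2 : m.vR p q (a • x + b • y) = a * m.vR p q x + b * m.vR p q y := by
        rw [hv, hv, hv]
        have e : a = 1 - b := by linarith
        subst e
        simp only [PiLp.add_apply, PiLp.smul_apply, smul_eq_mul]
        ring
      have i1 := convex_Icc (0 : ℝ) (kk p q : ℝ) hx.1 hy.1 ha hb hab
      have i2 := convex_Icc (0 : ℝ) (kk p q : ℝ) hx.2 hy.2 ha hb hab
      simp only [smul_eq_mul] at i1 i2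
      rw [← e1] at i1
      rw [← e2] at i2
      exact ⟨i1, i2⟩
    · have c1 : Continuous (m.uR p q) := by
        rw [show m.uR p q = fun x => (A : ℝ) * x 0 + B * x 1 + C from funext hu]
        fun_prop
      have c2 : Continuous (m.vR p q) := by
        rw [show m.vR p q = fun x => (A' : ℝ) * x 0 + B' * x 1 + C' from funext hv]
        fun_prop
      have : {x | m.InR p q x} = (m.uR p q) ⁻¹' Icc 0 (kk p q : ℝ) ∩
          (m.vR p q) ⁻¹' Icc 0 (kk p q : ℝ) := by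
        ext x; rfl
      rw [this]
      exact (isClosed_Icc.preimage c1).inter (isClosed_Icc.preimage c2)
    · intro x hx y hy
      rw [H.fm_eq hc hx.1 hm hx.2, H.fm_eq hc hy.1 hm hy.2, H.dist_toSp hmU]

end Fold

end Pool.Agent.R170.Tilt
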