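import Mathlib
import Pool.Agent.R170.Tilt4

set_option autoImplicit false

namespace Pool.Agent.R170.Tilt

open Set Pool.Agent.Helper697.Rep

lemma Bent.symm {p q : ℤ} {m m' : Chart} {i i' : ℕ} {xi : ℤ × ℤ × ℤ} {c : ℤ × ℤ}
    (B : Bent p q m m' i i' xi c) : Bent p q m' m i' i xi c where
  hi := B.hi'
  hi' := B.hi
  hj := B.hj.symm
  o1 := B.o2
  o2 := B.o1
  s := fun v hv => by have := B.s v hv; omega
  d0 := fun v hv => by
    have h1 := B.s v hv
    have h2 := B.d0 v hv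
    have h3 : m'.vio p q i' v = - m.vio p q i v := by omega
    rw [h3]; linarith
  d1 := fun v hv => by
    have h1 := B.s v hv
    have h2 := B.d1 v hv
    have h3 : m'.vio p q i' v = - m.vio p q i v := by omega
    rw [h3]; linarith
  d2 := fun v hv => by
    have h1 := B.s v hv
    have h2 := B.d2 v hv
    have h3 : m'.vio p q i' v = - m.vio p q i v := by omega
    rw [h3]; linarith

/-- in a bent cell, a nonlattice point of the first part lying in the plane of another face `j`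
is also a point of the second part, which is in face `j` -/
lemma Bent.other {p q : ℤ} {m m' : Chart} {i i' : ℕ} {xi : ℤ × ℤ × ℤ} {c : ℤ × ℤ}
    (B : Bent p q m m' i i' xi c) (hp : 1 ≤ p) (hq : 1 ≤ q) (hm : m.U)
    (h6 : m.j < 6) (h6' : m'.j < 6) {x : Plane} (hx : x ∈ square c) (hl : ¬ Lat x) {j : ℕ}
    (hj : j < 6) (hne : j ≠ m.j) (hf : onF j (kk p q : ℝ) (m.ptR p q x)) :
    m'.j = j ∧ m'.InR p q x ∧ m'.ptR p q x = m.ptR p q x := by
  have hk : (0 : ℝ) < kk p q := by exact_mod_cast kk_pos hp hq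
  have key : ∀ j2 < 6, j2 ≠ m.j → onF j2 (kk p q : ℝ) (m.ptR p q x) →
      sd m.j j2 = i ∧ m.vioR p q i x = 0 ∧ sd m.j j2 < 4 := by
    intro j2 hj2 hn hf2
    obtain ⟨s4, s0⟩ := onF_sd hk h6 hj2 hn hf2
    have s0' : m.vioR p q (sd m.j j2) x = 0 := s0
    by_cases e : sd m.j j2 = i
    · rw [e] at s0' s4
      exact ⟨e, s0', by rw [e]; exact s4⟩
    · exfalso
      obtain ⟨n1, n2⟩ := vio_nonconst hp hq hm s4 c
      exact hl (aff_strict (aff_vio _) (fun v hv => B.o1 v hv _ s4 e) n1 n2 hx s0')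
  obtain ⟨k1, k2, k3⟩ := key j hj hne hf
  have e := B.pt_eq k2
  have hf' : onF m'.j (kk p q : ℝ) (m.ptR p q x) := by
    rw [e]; exact onF_nn_self _
  obtain ⟨k1', -, k3'⟩ := key m'.j h6' B.hj.symm hf'
  refine ⟨(sd_inj m.j h6 j hj m'.j h6' k3 (by rw [k1, k1'])).symm, ?_, e.symm⟩
  rw [InR_iff]
  intro i2 hi2
  by_cases e2 : i2 = i'
  · rw [e2]
    have := B.sum x
    linarith
  · exact aff_le (aff_vio i2) (fun v hv => B.o2 v hv i2 hi2 e2) hx

lemma around_of_cor {c v : ℤ × ℤ} (h : v ∈ cor c) : c ∈ around v := by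
  simp only [cor, around, List.mem_cons, List.not_mem_nil, or_false, Prod.ext_iff] at *
  omega

lemma lat_mem_around {v d : ℤ × ℤ} {x : Plane} (h0 : x 0 = v.1) (h1 : x 1 = v.2)
    (hd : d ∈ around v) : x ∈ square d := by
  simp only [around, List.mem_cons, List.not_mem_nil, or_false] at hd
  rcases hd with rfl | rfl | rfl | rfl <;> refine ⟨⟨?_, ?_⟩, ?_, ?_⟩ <;>
    (try rw [h0]) <;> (try rw [h1]) <;> push_cast <;> linarith

lemma onF_cast {j : ℕ} {k a b c : ℤ} (h : onF j (k : ℝ) ((a : ℝ), (b : ℝ), (c : ℝ))) :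
    onF j k (a, b, c) := by
  unfold onF at *
  split <;> simp_all

lemma XY_inj {p q : ℤ} (hp : 1 ≤ p) (hq : 1 ≤ q) {X Y X' Y' : ℝ}
    (h1 : cu (p : ℝ) q X Y = cu (p : ℝ) q X' Y') (h2 : cv (p : ℝ) q X Y = cv (p : ℝ) q X' Y') :
    X = X' ∧ Y = Y' := by
  unfold cu at h1
  unfold cv at h2
  have hp' : (1 : ℝ) ≤ p := by exact_mod_cast hp
  have hq' : (1 : ℝ) ≤ q := by exact_mod_cast hq
  have hk0 : (p * p + q * q : ℝ) ≠ 0 := by nlinarith
  constructor
  · apply mul_left_cancel₀ hk0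
    linear_combination p * h1 - q * h2
  · apply mul_left_cancel₀ hk0
    linear_combination q * h1 + p * h2

namespace Fold

variable {p q : ℤ} {P : Finset (ℤ × ℤ)} {L : ℤ × ℤ → List Chart}

lemma face_chart (H : Fold p q P L) {x : Plane} (hx : x ∈ interior (region P)) {c0 : ℤ × ℤ}
    (hc0 : c0 ∈ P) (hx0 : x ∈ square c0) {m0 : Chart} (hm0 : m0 ∈ L c0) (hI : m0.InR p q x)
    {j : ℕ} (hj : j < 6) (hf : onF j (kk p q : ℝ) (m0.ptR p q x)) :
    ∃ c ∈ P, x ∈ square c ∧ ∃ m ∈ L c, m.j = j ∧ m.InR p q x ∧ m.ptR p q x = m0.ptR p q x := by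
  by_cases hl : Lat x
  · obtain ⟨v, v0, v1⟩ := hl
    have hP : ∀ d ∈ around v, d ∈ P := fun d hd => mem_of_interior hx (lat_mem_around v0 v1 hd)
    obtain ⟨i1, e1⟩ := lat_int (p := p) (q := q) (m := m0) v0 v1
    rw [e1] at hf
    obtain ⟨d', hd', m', hm', h1, h2, h3⟩ := H.vert v (hP v (by simp [around]))
      (hP (v.1 - 1, v.2) (by simp [around])) (hP (v.1, v.2 - 1) (by simp [around]))
      (hP (v.1 - 1, v.2 - 1) (by simp [around])) c0 (around_of_cor (cor_of_lat hx0 v0 v1)) m0 hm0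
      (i1.1 hI) j hj (onF_cast hf)
    obtain ⟨i2, e2⟩ := lat_int (p := p) (q := q) (m := m') v0 v1
    exact ⟨d', hP d' hd', lat_mem_around v0 v1 hd', m', hm', h1, i2.2 h2, by rw [e2, e1, h3]⟩
  · by_cases hne : j = m0.j
    · exact ⟨c0, hc0, hx0, m0, hm0, hne.symm, hI, rfl⟩
    · obtain ⟨hU, h6, -⟩ := H.unit c0 hc0 m0 hm0
      rcases H.cell c0 hc0 with ⟨m, hm, h⟩ | ⟨m, m', i, i', xi, hm, B⟩
      · exfalso
        rw [hm] at hm0
        simp only [List.mem_singleton] at hm0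
        subst hm0
        obtain ⟨s4, s0⟩ := onF_sd H.kpos h6 hj hne hf
        obtain ⟨n1, n2⟩ := vio_nonconst H.hp H.hq hU s4 c0
        exact hl (aff_strict (aff_vio _) (fun v hv => inT_vi_int (h v hv) s4) n1 n2 hx0 s0)
      · obtain ⟨hU1, h61, -⟩ := H.unit c0 hc0 m (by simp [hm])
        obtain ⟨hU2, h62, -⟩ := H.unit c0 hc0 m' (by simp [hm])
        have hm0' := hm0
        rw [hm] at hm0'
        simp only [List.mem_cons, List.not_mem_nil, or_false] at hm0'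
        rcases hm0' with rfl | rfl
        · obtain ⟨a1, a2, a3⟩ := B.other H.hp H.hq hU1 h61 h62 hx0 hl hj hne hf
          exact ⟨c0, hc0, hx0, m', by simp [hm], a1, a2, a3⟩
        · obtain ⟨a1, a2, a3⟩ := B.symm.other H.hp H.hq hU2 h62 h61 hx0 hl hj hne hf
          exact ⟨c0, hc0, hx0, m, by simp [hm], a1, a2, a3⟩

lemma interior_inj (H : Fold p q P L) {x y : Plane} (hx : x ∈ interior (region P))
    (hy : y ∈ region P) (hxy : fm p q P L x = fm p q P L y) : x = y := by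
  have hxr := interior_subset hx
  simp only [region, Set.mem_iUnion] at hy hxr
  obtain ⟨d, hd, hyd⟩ := hy
  obtain ⟨c0, hc0, hx0⟩ := hxr
  obtain ⟨md, hmd, hId⟩ := H.cover hd hyd
  obtain ⟨m0, hm0, hI0⟩ := H.cover hc0 hx0
  rw [H.fm_eq hd hyd hmd hId, H.fm_eq hc0 hx0 hm0 hI0] at hxy
  have hz := toSp_inj H.kpos hxy
  obtain ⟨hUd, h6d, hsd⟩ := H.unit d hd md hmd
  have hf : onF md.j (kk p q : ℝ) (m0.ptR p q x) := by
    rw [hz]; exact onF_nn_self _
  obtain ⟨c, hc, hxc, m, hm, hj, hI, hpt⟩ := H.face_chart hx hc0 hx0 hm0 hI0 h6d hf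
  obtain ⟨hU, h6, hs⟩ := H.unit c hc m hm
  rw [hz] at hpt
  have hpt' : nn md.j (kk p q : ℝ) (m.uR p q x) (m.vR p q x) =
      nn md.j (kk p q : ℝ) (md.uR p q y) (md.vR p q y) := by
    have := hpt
    unfold Chart.ptR at this
    rw [hj] at this
    exact this
  obtain ⟨e1, e2⟩ := nn_inj hpt'
  obtain ⟨eX, eY⟩ := XY_inj H.hp H.hq (X := m.XR x) (Y := m.YR x) e1 e2
  obtain ⟨c', hc'⟩ := cell_surj hU (md.cell d)
  have hxc' : x ∈ square c' := by
    rw [cell_mem hU, hc', eX, eY, ← cell_mem hUd]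
    exact hyd
  have hcP' : c' ∈ P := mem_of_interior hx hxc'
  have hmc' : m ∈ L c' := by
    by_cases e : c = c'
    · rw [← e]; exact hm
    · obtain ⟨k1, k2⟩ := close_of_mem hxc hxc'
      have a1 : x ∈ square (c.1, c'.2) := ⟨hxc.1, hxc'.2⟩
      have a2 : x ∈ square (c'.1, c.2) := ⟨hxc'.1, hxc.2⟩
      refine (H.cont c hc c' hcP' e k1 k2 (mem_of_interior hx a1) (mem_of_interior hx a2)
        m hm).resolve_right ?_
      rw [hc']; exact hsd
  obtain ⟨-, rfl⟩ := H.inj c' hcP' d hd m hmc' md hmd hj hc'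
  exact chart_inj hU eX eY

theorem foldsOnto (H : Fold p q P L) : FoldsOnto (√(kk p q : ℝ)) P := by
  refine ⟨fm p q P L, creased_cont H.creased, ?_, fun x hx y hy => H.interior_inj hx hy,
    H.creased⟩
  apply Set.Subset.antisymm
  · rintro _ ⟨x, hx, rfl⟩
    simp only [region, Set.mem_iUnion] at hx
    obtain ⟨c, hc, hxc⟩ := hx
    obtain ⟨m, hm, hI⟩ := H.cover hc hxc
    rw [H.fm_eq hc hxc hm hI]
    exact toSp_mem H.kpos _ hI
  · intro z hz
    exact H.onto hz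

theorem foldsToCube (H : Fold p q P L) : FoldsToCube P :=
  ⟨√(kk p q : ℝ), Real.sqrt_pos.2 H.kpos, H.foldsOnto⟩

end Fold

end Pool.Agent.R170.Tilt
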