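import Mathlib
import Pool.Agent.R170.Tilt5
import Pool.Agent.Helper697.RepData

/-!
Fast verification of foldings onto a cube with edge vector `(p, q)`.
-/

set_option autoImplicit false

namespace Pool.Agent.R170.Tilt

open Set Pool.Agent.Helper697.Rep

/-- unit vector number `r` -/
def ua (r : ℕ) : ℤ := match r with | 0 => 1 | 1 => 0 | 2 => -1 | _ => 0
def ub (r : ℕ) : ℤ := match r with | 0 => 0 | 1 => 1 | 2 => 0 | _ => -1

/-- decoding of a chart -/
def dch (n : ℕ) : Chart :=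
  ⟨n % 8, ua (n / 8 % 4), ub (n / 8 % 4), ((n / 32 % 128 : ℕ) : ℤ) - 64,
    ((n / 4096 % 128 : ℕ) : ℤ) - 64⟩

lemma dch_U (n : ℕ) : (dch n).U := by
  unfold dch Chart.U
  simp only
  have h : n / 8 % 4 < 4 := Nat.mod_lt _ (by norm_num)
  interval_cases n / 8 % 4 <;> simp [ua, ub]

/-- table entry (`46` bits): a flag, a chart (`19` bits), a flag for the second chart,
a second chart (`19` bits), two sides; the vector `ξ` is in a second place (`6` bits) -/
def raw (w T : ℕ) (c : ℤ × ℤ) : ℕ := T / 2 ^ (50 * (c.1.toNat + w * c.2.toNat)) % 2 ^ 50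

def rL (n : ℕ) : List Chart :=
  if n % 2 = 0 then [] else
    if n / 2 % 2 = 0 then [dch (n / 4 % 2 ^ 19)] else
      [dch (n / 4 % 2 ^ 19), dch (n / 2 ^ 21 % 2 ^ 19)]

def ri (n : ℕ) : ℕ := n / 2 ^ 40 % 4
def ri' (n : ℕ) : ℕ := n / 2 ^ 42 % 4
def rx (n : ℕ) : ℤ × ℤ × ℤ :=
  (((n / 2 ^ 44 % 4 : ℕ) : ℤ) - 1, ((n / 2 ^ 46 % 4 : ℕ) : ℤ) - 1, ((n / 2 ^ 48 % 4 : ℕ) : ℤ) - 1)

instance (p q : ℤ) (m m' : Chart) (i i' : ℕ) (x : ℤ × ℤ × ℤ) (c : ℤ × ℤ) :
    Decidable (Bent p q m m' i i' x c) :=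
  decidable_of_iff (i < 4 ∧ i' < 4 ∧ m.j ≠ m'.j ∧
    (∀ v ∈ cor c, ∀ i2 < 4, i2 ≠ i → m.vio p q i2 v ≤ 0) ∧
    (∀ v ∈ cor c, ∀ i2 < 4, i2 ≠ i' → m'.vio p q i2 v ≤ 0) ∧
    (∀ v ∈ cor c, m.vio p q i v + m'.vio p q i' v = 0) ∧
    (∀ v ∈ cor c, (m.pt p q v).1 - (m'.pt p q v).1 = m.vio p q i v * x.1) ∧
    (∀ v ∈ cor c, (m.pt p q v).2.1 - (m'.pt p q v).2.1 = m.vio p q i v * x.2.1) ∧
    (∀ v ∈ cor c, (m.pt p q v).2.2 - (m'.pt p q v).2.2 = m.vio p q i v * x.2.2))
    ⟨fun ⟨a, b, c, d, e, f, g, h, k⟩ => ⟨a, b, c, d, e, f, g, h, k⟩,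
      fun ⟨a, b, c, d, e, f, g, h, k⟩ => ⟨a, b, c, d, e, f, g, h, k⟩⟩

/-- the check for the shape of the folding on one cell -/
def cellB (p q : ℤ) (n : ℕ) (c : ℤ × ℤ) : Bool :=
  match rL n with
  | [m] => (cor c).all fun v => decide (m.In p q v)
  | [m, m'] => decide (Bent p q m m' (ri n) (ri' n) (rx n) c)
  | _ => false

lemma cellB_spec {p q : ℤ} {n : ℕ} {c : ℤ × ℤ} (h : cellB p q n c = true) :
    (∃ m, rL n = [m] ∧ ∀ v ∈ cor c, m.In p q v) ∨
    ∃ m m' i i' x, rL n = [m, m'] ∧ Bent p q m m' i i' x c := by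
  unfold cellB at h
  split at h
  · rename_i m hm
    simp only [List.all_eq_true, decide_eq_true_eq] at h
    exact Or.inl ⟨m, hm, h⟩
  · rename_i m m' hm
    simp only [decide_eq_true_eq] at h
    exact Or.inr ⟨m, m', _, _, _, hm, h⟩
  · simp at h

/-- code of a face and a cell -/
def code (j : ℕ) (s : ℤ × ℤ) : ℕ := j + 8 * ((s.1 + 64).toNat + 128 * (s.2 + 64).toNat)

def rangeB (s : ℤ × ℤ) : Bool := decide (-64 ≤ s.1 ∧ s.1 < 64 ∧ -64 ≤ s.2 ∧ s.2 < 64)

lemma code_inj {j j' : ℕ} {s s' : ℤ × ℤ} (hj : j < 6) (hj' : j' < 6) (h : rangeB s = true)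
    (h' : rangeB s' = true) (e : code j s = code j' s') : j = j' ∧ s = s' := by
  obtain ⟨a, b⟩ := s
  obtain ⟨a', b'⟩ := s'
  simp only [rangeB, decide_eq_true_eq] at h h'
  simp only [code] at e
  have : j = j' ∧ a = a' ∧ b = b' := by omega
  obtain ⟨h1, h2, h3⟩ := this
  exact ⟨h1, by rw [h2, h3]⟩

structure Dat where
  p : ℤ
  q : ℤ
  w : ℕ
  T : ℕ
  V : ℕ
  P : List (ℤ × ℤ)
  K : List ℕ

def Dat.L (D : Dat) (c : ℤ × ℤ) : List Chart := rL (raw D.w D.T c)

/-- image of a lattice point -/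
def Dat.pv (D : Dat) (v : ℤ × ℤ) : ℤ × ℤ × ℤ :=
  let n := D.V / 2 ^ (24 * (v.1.toNat + D.w * v.2.toNat)) % 2 ^ 24
  (((n % 256 : ℕ) : ℤ), ((n / 256 % 256 : ℕ) : ℤ), ((n / 65536 % 256 : ℕ) : ℤ))

def Dat.mem (D : Dat) (c : ℤ × ℤ) : Bool := !(Nat.beq (raw D.w D.T c) 0)

def Dat.unitB (D : Dat) : Bool :=
  D.P.all fun c => D.mem c && ((D.L c).all fun m => decide (m.j < 6) && (rangeB (m.cell c) &&
    !(decide (Sep D.p D.q (m.cell c)))))

def Dat.cellsB (D : Dat) : Bool := D.P.all fun c => cellB D.p D.q (raw D.w D.T c) c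

def Dat.lattB (D : Dat) : Bool :=
  D.P.all fun c => (D.L c).all fun m => (cor c).all fun v =>
    !(decide (m.In D.p D.q v)) || decide (m.pt D.p D.q v = D.pv v)

def nbrs (c : ℤ × ℤ) : List (ℤ × ℤ) :=
  [(c.1 + 1, c.2), (c.1 + 1, c.2 + 1), (c.1, c.2 + 1), (c.1 - 1, c.2 + 1), (c.1 - 1, c.2),
    (c.1 - 1, c.2 - 1), (c.1, c.2 - 1), (c.1 + 1, c.2 - 1)]

def Dat.contB (D : Dat) : Bool :=
  D.P.all fun c => (nbrs c).all fun d => !(D.mem d) || (!(D.mem (c.1, d.2)) ||
    (!(D.mem (d.1, c.2)) || ((D.L c).all fun m => decide (m ∈ D.L d) ||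
      decide (Sep D.p D.q (m.cell d)))))

def Dat.pairs (D : Dat) : List ((ℤ × ℤ) × Chart) :=
  D.P.flatMap fun c => (D.L c).map fun m => (c, m)

def Dat.codes (D : Dat) : List ℕ := D.pairs.map fun x => code x.2.j (x.2.cell x.1)

def eqB : List ℕ → List ℕ → Bool
  | [], [] => true
  | a :: l, b :: m => Nat.beq a b && eqB l m
  | [], _ :: _ => false
  | _ :: _, [] => false

lemma eqB_eq : ∀ {l m : List ℕ}, eqB l m = true → l = m
  | [], [], _ => rfl
  | a :: l, b :: m, h => by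
    simp only [eqB, Bool.and_eq_true] at h
    rw [Nat.eq_of_beq_eq_true h.1, eqB_eq h.2]
  | [], _ :: _, h => by simp [eqB] at h
  | _ :: _, [], h => by simp [eqB] at h

def nodupB : List ℕ → Bool
  | [] => true
  | a :: l => l.all (fun b => !(Nat.beq a b)) && nodupB l

lemma nodupB_nodup : ∀ {l : List ℕ}, nodupB l = true → l.Nodup
  | [], _ => List.nodup_nil
  | a :: l, h => by
    simp only [nodupB, Bool.and_eq_true, List.all_eq_true, Bool.not_eq_true'] at h
    refine List.nodup_cons.mpr ⟨fun ha => ?_, nodupB_nodup h.2⟩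
    have h1 := h.1 a ha
    rw [Nat.beq_refl] at h1
    exact absurd h1 (by simp)

def icc (a : ℤ) (n : ℕ) : List ℤ := List.map (fun i : ℕ => a + (i : ℤ)) (List.range n)

lemma mem_icc {a x : ℤ} {n : ℕ} (h1 : a ≤ x) (h2 : x < a + n) : x ∈ icc a n := by
  have h3 : (x - a).toNat < n := by omega
  have h4 : a + (((x - a).toNat : ℕ) : ℤ) = x := by omega
  exact List.mem_map.2 ⟨(x - a).toNat, List.mem_range.2 h3, h4⟩

def Dat.surjB (D : Dat) : Bool :=
  (List.range 6).all fun j => (icc (-D.q - 1) (D.p + D.q + 2).toNat).all fun a =>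
    (icc (-1) (D.p + D.q + 2).toNat).all fun b =>
      decide (Sep D.p D.q (a, b)) || (rangeB (a, b) && D.K.any (fun x => Nat.beq x (code j (a, b))))

def Dat.vertB (D : Dat) : Bool :=
  D.P.all fun c => !(D.mem (c.1 - 1, c.2)) || (!(D.mem (c.1, c.2 - 1)) ||
    (!(D.mem (c.1 - 1, c.2 - 1)) ||
      ((around c).all fun d => (D.L d).all fun m => !(decide (m.In D.p D.q c)) ||
        ((List.range 6).all fun j => !(decide (onF j (kk D.p D.q) (m.pt D.p D.q c))) ||
          ((around c).any fun d' => (D.L d').any fun m' => decide (m'.j = j) &&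
            (decide (m'.In D.p D.q c) && decide (m'.pt D.p D.q c = m.pt D.p D.q c)))))))

def Dat.ok (D : Dat) : Bool :=
  decide (1 ≤ D.p) && (decide (1 ≤ D.q) && (connB D.P && (D.unitB && (D.cellsB && (D.lattB &&
    (D.contB && (eqB D.codes D.K && (nodupB D.K && (D.surjB && D.vertB)))))))))

lemma nbr_mem {c d : ℤ × ℤ} (h : c ≠ d) (h1 : |c.1 - d.1| ≤ 1) (h2 : |c.2 - d.2| ≤ 1) :
    d ∈ nbrs c := by
  obtain ⟨a, b⟩ := c
  obtain ⟨a', b'⟩ := d
  simp only [abs_le] at h1 h2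
  simp only [ne_eq, Prod.mk.injEq] at h
  simp only [nbrs, List.mem_cons, List.not_mem_nil, or_false, Prod.mk.injEq]
  omega

theorem Dat.fold {D : Dat} (h : D.ok = true) : Fold D.p D.q D.P.toFinset D.L := by
  simp only [Dat.ok, Bool.and_eq_true, decide_eq_true_eq] at h
  obtain ⟨hp, hq, hconn, hunit, hcell, hlatt, hcont, hcodes, hnodup, hsurj, hvert⟩ := h
  have hcodes := eqB_eq hcodes
  have hnodup := nodupB_nodup hnodup
  rw [← hcodes] at hnodup
  simp only [Dat.unitB, List.all_eq_true, Bool.and_eq_true, decide_eq_true_eq,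
    Bool.not_eq_true', decide_eq_false_iff_not] at hunit
  have hmem : ∀ c ∈ D.P.toFinset, D.mem c = true := fun c hc => (hunit c (by simpa using hc)).1
  have hpair : ∀ c ∈ D.P.toFinset, ∀ m ∈ D.L c, (c, m) ∈ D.pairs := by
    intro c hc m hm
    simp only [Dat.pairs, List.mem_flatMap, List.mem_map]
    exact ⟨c, by simpa using hc, m, hm, rfl⟩
  have hrL : ∀ n : ℕ, ∀ m ∈ rL n, m.U := by
    intro n m hm
    unfold rL at hm
    split at hm
    · simp at hm
    · split at hm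
      · simp only [List.mem_singleton] at hm
        rw [hm]; exact dch_U _
      · simp only [List.mem_cons, List.not_mem_nil, or_false] at hm
        rcases hm with hm | hm <;> rw [hm] <;> exact dch_U _
  refine ⟨hp, hq, ?_, ?_, ?_, ?_, ?_, ?_, ?_⟩
  · intro c hc m hm
    obtain ⟨h1, h2⟩ := hunit c (by simpa using hc)
    obtain ⟨h3, h4, h5⟩ := h2 m hm
    exact ⟨hrL _ m hm, h3, h5⟩
  · intro c hc
    simp only [Dat.cellsB, List.all_eq_true] at hcell
    exact cellB_spec (hcell c (by simpa using hc))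
  · intro c hc c' hc' m hm m' hm' v hv hv' hI hI'
    simp only [Dat.lattB, List.all_eq_true, Bool.or_eq_true, Bool.not_eq_true',
      decide_eq_false_iff_not, decide_eq_true_eq] at hlatt
    have e1 := (hlatt c (by simpa using hc) m hm v hv).resolve_left (fun h => h hI)
    have e2 := (hlatt c' (by simpa using hc') m' hm' v hv').resolve_left (fun h => h hI')
    rw [e1, e2]
  · intro c hc c' hc' hne h1 h2 h3 h4 m hm
    simp only [Dat.contB, List.all_eq_true, Bool.or_eq_true, Bool.not_eq_true',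
      decide_eq_true_eq] at hcont
    have e := hcont c (by simpa using hc) c' (nbr_mem hne h1 h2)
    have e1 := e.resolve_left (by rw [hmem c' hc']; simp)
    have e2 := e1.resolve_left (by rw [hmem _ h3]; simp)
    have e3 := e2.resolve_left (by rw [hmem _ h4]; simp)
    exact e3 m hm
  · intro c hc c' hc' m hm m' hm' hj hcc
    have := List.inj_on_of_nodup_map hnodup (hpair c hc m hm) (hpair c' hc' m' hm')
      (by simp only [hj, hcc])
    simp only [Prod.mk.injEq] at this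
    exact this
  · intro j hj a ha b hb hs
    simp only [Dat.surjB, List.all_eq_true, List.mem_range, Bool.or_eq_true, decide_eq_true_eq,
      Bool.and_eq_true, List.any_eq_true] at hsurj
    rw [Finset.mem_Icc] at ha hb
    have hma : a ∈ icc (-D.q - 1) (D.p + D.q + 2).toNat := mem_icc (by omega) (by omega)
    have hmb : b ∈ icc (-1) (D.p + D.q + 2).toNat := mem_icc (by omega) (by omega)
    obtain ⟨hr, x, hx, hxe⟩ := (hsurj j hj a hma b hmb).resolve_left hs
    have hxe := Nat.eq_of_beq_eq_true hxe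
    rw [← hcodes] at hx
    simp only [Dat.codes, List.mem_map] at hx
    obtain ⟨⟨c, m⟩, hcm, hk⟩ := hx
    simp only [Dat.pairs, List.mem_flatMap, List.mem_map, Prod.mk.injEq] at hcm
    obtain ⟨c2, hc2, m2, hm2, rfl, rfl⟩ := hcm
    obtain ⟨-, h2⟩ := hunit c2 hc2
    obtain ⟨h3, h4, -⟩ := h2 m2 hm2
    rw [hxe] at hk
    obtain ⟨k1, k2⟩ := code_inj h3 hj h4 hr hk
    exact ⟨c2, by simpa using hc2, m2, hm2, k1, k2⟩
  · intro c hc h1 h2 h3 d hd m hm hI j hj hf
    simp only [Dat.vertB, List.all_eq_true, Bool.or_eq_true, Bool.not_eq_true',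
      decide_eq_false_iff_not, decide_eq_true_eq, List.any_eq_true, Bool.and_eq_true,
      List.mem_range] at hvert
    have e := hvert c (by simpa using hc)
    have e1 := e.resolve_left (by rw [hmem _ h1]; simp)
    have e2 := e1.resolve_left (by rw [hmem _ h2]; simp)
    have e3 := e2.resolve_left (by rw [hmem _ h3]; simp)
    have e4 := (e3 d hd m hm).resolve_left (fun h => h hI)
    obtain ⟨d', hd', m', hm', k1, k2, k3⟩ := (e4 j hj).resolve_left (fun h => h hf)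
    exact ⟨d', hd', m', hm', k1, k2, k3⟩

theorem Dat.poly {D : Dat} (h : D.ok = true) : IsPolyomino D.P.toFinset := by
  simp only [Dat.ok, Bool.and_eq_true] at h
  exact polyomino_of_list _ h.2.2.1

end Pool.Agent.R170.Tilt
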