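import Mathlib
import Pool.Agent.R170.Net3
import Pool.Agent.R170.Tilt6
import Pool.Agent.Y211.RC.Check

/-!
Checking partitions into nets, the absence of holes, and congruence.
-/

set_option autoImplicit false

namespace Pool.Agent.R170.Net

open Set Pool.Agent.Helper697.Rep

/-! ### holes -/

section holes

variable {P : Finset (ℤ × ℤ)}

def CAdj (P : Finset (ℤ × ℤ)) (a b : ℤ × ℤ) : Prop := a ∉ P ∧ b ∉ P ∧ EdgeAdj a b

def CConn (P : Finset (ℤ × ℤ)) : ℤ × ℤ → ℤ × ℤ → Prop := Relation.ReflTransGen (CAdj P)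

lemma CConn.symm {a b : ℤ × ℤ} (h : CConn P a b) : CConn P b a := by
  unfold CConn at *
  induction h with
  | refl => exact Relation.ReflTransGen.refl
  | tail _ hbc ih =>
    refine Relation.ReflTransGen.head ⟨hbc.2.1, hbc.1, ?_⟩ ih
    have := hbc.2.2
    unfold EdgeAdj at *
    rw [abs_sub_comm, abs_sub_comm _ (_ : ℤ × ℤ).2]; exact this

lemma CConn.trans {a b c : ℤ × ℤ} (h : CConn P a b) (h' : CConn P b c) : CConn P a c :=
  Relation.ReflTransGen.trans h h'

lemma vert_conn {x : ℤ} (h : ∀ y, (x, y) ∉ P) : ∀ (n : ℕ) (y : ℤ), CConn P (x, y) (x, y + n)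
  | 0, y => by rw [Nat.cast_zero, add_zero]; exact Relation.ReflTransGen.refl
  | n + 1, y => by
    refine (vert_conn h n y).trans (Relation.ReflTransGen.single ⟨h _, h _, ?_⟩)
    unfold EdgeAdj
    push_cast
    norm_num

lemma horiz_conn {y : ℤ} (h : ∀ x, (x, y) ∉ P) : ∀ (n : ℕ) (x : ℤ), CConn P (x, y) (x + n, y)
  | 0, x => by rw [Nat.cast_zero, add_zero]; exact Relation.ReflTransGen.refl
  | n + 1, x => by
    refine (horiz_conn h n x).trans (Relation.ReflTransGen.single ⟨h _, h _, ?_⟩)
    unfold EdgeAdj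
    push_cast
    norm_num

lemma vert_conn' {x : ℤ} (h : ∀ y, (x, y) ∉ P) (y y' : ℤ) : CConn P (x, y) (x, y') := by
  rcases le_total y y' with hy | hy
  · have := vert_conn h (y' - y).toNat y
    rwa [Int.toNat_of_nonneg (by omega), add_sub_cancel] at this
  · have := vert_conn h (y - y').toNat y'
    rw [Int.toNat_of_nonneg (by omega), add_sub_cancel] at this
    exact this.symm

lemma horiz_conn' {y : ℤ} (h : ∀ x, (x, y) ∉ P) (x x' : ℤ) : CConn P (x, y) (x', y) := by
  rcases le_total x x' with hx | hx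
  · have := horiz_conn h (x' - x).toNat x
    rwa [Int.toNat_of_nonneg (by omega), add_sub_cancel] at this
  · have := horiz_conn h (x - x').toNat x'
    rw [Int.toNat_of_nonneg (by omega), add_sub_cancel] at this
    exact this.symm

def outB (w h : ℕ) (c : ℤ × ℤ) : Bool :=
  decide (c.1 < 0 ∨ (w : ℤ) < c.1 ∨ c.2 < 0 ∨ (h : ℤ) < c.2)

lemma out_conn {w h : ℕ} (hP : ∀ c ∈ P, outB w h c = false) {c : ℤ × ℤ} (hc : outB w h c = true) :
    CConn P c (-1, -1) := by
  simp only [outB, decide_eq_false_iff_not, decide_eq_true_eq] at hP hc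
  push Not at hP
  have v1 : ∀ x : ℤ, (x < 0 ∨ (w : ℤ) < x) → ∀ y, (x, y) ∉ P := by
    intro x hx y hy
    have := hP _ hy
    simp only at this
    omega
  have v2 : ∀ y : ℤ, (y < 0 ∨ (h : ℤ) < y) → ∀ x, (x, y) ∉ P := by
    intro y hx x hy
    have := hP _ hy
    simp only at this
    omega
  obtain ⟨x, y⟩ := c
  simp only at hc
  have h1 : x < 0 ∨ (w : ℤ) < x ∨ y < 0 ∨ (h : ℤ) < y := hc
  have hx : (x < 0 ∨ (w : ℤ) < x) ∨ (y < 0 ∨ (h : ℤ) < y) := by tauto
  rcases hx with hx | hy
  · exact (vert_conn' (v1 x hx) y (-1)).trans (horiz_conn' (v2 (-1) (Or.inl (by norm_num))) x (-1))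
  · exact (horiz_conn' (v2 y hy) x (-1)).trans (vert_conn' (v1 (-1) (Or.inl (by norm_num))) y (-1))

def nb4 (c : ℤ × ℤ) : List (ℤ × ℤ) :=
  [(c.1 + 1, c.2), (c.1, c.2 + 1), (c.1 - 1, c.2), (c.1, c.2 - 1)]

lemma nb4_adj {c d : ℤ × ℤ} (h : d ∈ nb4 c) : EdgeAdj c d := by
  simp only [nb4, List.mem_cons, List.not_mem_nil, or_false] at h
  unfold EdgeAdj
  rcases h with rfl | rfl | rfl | rfl <;> simp

/-- every cell of the list is outside `P` and next to a later cell or to an outer cell -/
def escB (w h : ℕ) (P : List (ℤ × ℤ)) : List (ℤ × ℤ) → Bool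
  | [] => true
  | a :: l => !(decide (a ∈ P)) && (((nb4 a).any fun b => outB w h b || decide (b ∈ l)) &&
      escB w h P l)

lemma esc_conn {w h : ℕ} {L : List (ℤ × ℤ)} (hP : ∀ c ∈ L.toFinset, outB w h c = false) :
    ∀ (E : List (ℤ × ℤ)), escB w h L E = true → ∀ c ∈ E, CConn L.toFinset c (-1, -1)
  | [], _, c, hc => by simp at hc
  | a :: l, hE, c, hc => by
    simp only [escB, Bool.and_eq_true, Bool.not_eq_true', decide_eq_false_iff_not,
      List.any_eq_true, Bool.or_eq_true, decide_eq_true_eq] at hE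
    obtain ⟨h1, ⟨b, hb, h2⟩, h3⟩ := hE
    have ih := esc_conn hP l h3
    rcases List.mem_cons.1 hc with rfl | hc
    · have hout : ∀ b, outB w h b = true → b ∉ L.toFinset := by
        intro b hb hb'
        rw [hP b hb'] at hb
        exact absurd hb (by simp)
      have hbc : CConn L.toFinset b (-1, -1) := by
        rcases h2 with h2 | h2
        · exact out_conn hP h2
        · exact ih b h2
      refine Relation.ReflTransGen.head ⟨by simpa using h1, ?_, nb4_adj hb⟩ hbc
      rcases h2 with h2 | h2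
      · exact hout b h2
      · have key : ∀ (E : List (ℤ × ℤ)), escB w h L E = true → ∀ c ∈ E, c ∉ L.toFinset := by
          intro E
          induction E with
          | nil => intro _ c hc; simp at hc
          | cons x l ih =>
            intro h c hc
            simp only [escB, Bool.and_eq_true, Bool.not_eq_true', decide_eq_false_iff_not] at h
            rcases List.mem_cons.1 hc with rfl | hc
            · simpa using h.1
            · exact ih h.2.2 c hc
        exact key l h3 b h2
    · exact ih c hc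

def holesB (w h : ℕ) (P E : List (ℤ × ℤ)) : Bool :=
  (P.all fun c => !(outB w h c)) && (escB w h P E &&
    ((Tilt.icc 0 (w + 1)).all fun x => (Tilt.icc 0 (h + 1)).all fun y =>
      decide ((x, y) ∈ P) || decide ((x, y) ∈ E)))

theorem noHoles_of {w h : ℕ} {P E : List (ℤ × ℤ)} (H : holesB w h P E = true) :
    NoHoles P.toFinset := by
  simp only [holesB, Bool.and_eq_true, List.all_eq_true, Bool.not_eq_true', Bool.or_eq_true,
    decide_eq_true_eq] at H
  obtain ⟨h1, h2, h3⟩ := H
  have hP : ∀ c ∈ P.toFinset, outB w h c = false := fun c hc => h1 c (by simpa using hc)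
  have key : ∀ c ∉ P.toFinset, CConn P.toFinset c (-1, -1) := by
    intro c hc
    by_cases ho : outB w h c = true
    · exact out_conn hP ho
    · simp only [outB, decide_eq_true_eq] at ho
      push Not at ho
      have := h3 c.1 (Tilt.mem_icc (by omega) (by push_cast; omega)) c.2
        (Tilt.mem_icc (by omega) (by push_cast; omega))
      rcases this with h | h
      · exact absurd (by simpa using h) hc
      · exact esc_conn hP E h2 c h
  intro c hc d hd
  exact (key c hc).trans (key d hd).symm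

end holes

/-! ### pieces -/

theorem okB_grid {R : Y211.RC.Rec} {L : List (ℤ × ℤ)} (h : Y211.RC.okB R L = true) :
    IsPolyomino L.toFinset ∧ GridFold L.toFinset R.n R.F := by
  have hnd := Y211.RC.okB_nodup h
  simp only [Y211.RC.okB, Bool.and_eq_true, List.all_eq_true, decide_eq_true_eq] at h
  obtain ⟨h1, h2, h3, h4, h5, h6⟩ := h
  have hK := Y211.RC.nodupB_nodup h4
  rw [← Y211.RC.eqB_eq h3] at hK
  have hn : 0 < R.n := by
    simp at h6
    omega
  have hlen := Nat.eq_of_beq_eq_true h5
  have hinj : Set.InjOn (ctr R.F) (L.toFinset : Set (ℤ × ℤ)) := by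
    intro c hc d hd hcd
    exact List.inj_on_of_nodup_map hK (by simpa using hc) (by simpa using hd)
      (by simp only [hcd])
  have hsub : L.toFinset.image (ctr R.F) ⊆ cenSet R.n := by
    intro m hm
    obtain ⟨c, hc, rfl⟩ := Finset.mem_image.mp hm
    exact Y211.RC.mem_cenSet (h2 c (by simpa using hc)).isCtr
  have heq : L.toFinset.image (ctr R.F) = cenSet R.n := by
    apply Finset.eq_of_subset_of_card_le hsub
    rw [card_cenSet hn, Finset.card_image_of_injOn hinj, List.toFinset_card_of_nodup hnd, hlen]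
  refine ⟨polyomino_of_list L h1, by exact_mod_cast hn, ?_, ?_, ?_⟩
  · intro c hc
    exact h2 c (by simpa using hc)
  · intro c hc d hd hcd
    exact hinj hc hd hcd
  · intro m hm
    have h7 := Y211.RC.mem_cenSet hm
    rw [← heq] at h7
    obtain ⟨c, hc, hcm⟩ := Finset.mem_image.mp h7
    exact ⟨c, hc, hcm⟩

/-- a placed net: its index, the motion, and a coded folding onto the unit cube -/
structure Pc where
  i : ℕ
  r : ℤ × ℤ
  v : ℤ × ℤ
  w : ℕ
  x0 : ℤ
  y0 : ℤ
  T : ℕ
  K : List ℕ

def netL (i : ℕ) : List (ℤ × ℤ) := nets.getD i []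

def Pc.L (x : Pc) : List (ℤ × ℤ) := (netL x.i).map (mv x.r x.v)

def Pc.ok (x : Pc) : Bool :=
  decide (x.r.1 * x.r.1 + x.r.2 * x.r.2 = 1) && (decide (x.i < 20) &&
    Y211.RC.okB ⟨1, x.w, x.x0, x.y0, x.T, x.K⟩ x.L)

lemma Pc.edgeNet {x : Pc} (h : x.ok = true) : IsEdgeNet x.L.toFinset := by
  simp only [Pc.ok, Bool.and_eq_true] at h
  obtain ⟨h1, h2⟩ := okB_grid h.2.2
  exact isEdgeNet_of_gridFold h1 (by exact_mod_cast h2)

lemma Pc.same {x : Pc} (h : x.ok = true) : SameOneSided (netL x.i).toFinset x.L.toFinset := by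
  simp only [Pc.ok, Bool.and_eq_true, decide_eq_true_eq] at h
  refine ⟨x.r.1, x.r.2, x.v.1, x.v.2, h.1, ?_⟩
  ext c
  simp only [Pc.L, List.mem_toFinset, List.mem_map, Finset.mem_image, mv]

lemma Pc.card {x : Pc} (h : x.ok = true) : x.L.toFinset.card = 6 := by
  obtain ⟨F, H⟩ := (Pc.edgeNet h).gridFold
  exact card_six H

/-- the pieces `X` form a partition of `P` -/
def partB (P : List (ℤ × ℤ)) (X : List Pc) : Bool :=
  (X.all fun x => x.ok) && (((X.map Pc.L).flatten.all fun c => decide (c ∈ P)) &&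
    (Nat.beq P.length (6 * X.length) && decide ((X.map Pc.L).flatten.Nodup)))

lemma part_aux : ∀ (X : List Pc), (∀ x ∈ X, x.ok = true) → (X.map Pc.L).flatten.Nodup →
    X.Pairwise (fun x y => Disjoint x.L.toFinset y.L.toFinset)
  | [], _, _ => List.Pairwise.nil
  | x :: X, h1, h2 => by
    rw [List.map_cons, List.flatten_cons, List.nodup_append'] at h2
    obtain ⟨h3, h4, h5⟩ := h2
    refine List.Pairwise.cons ?_ (part_aux X (fun y hy => h1 y (List.mem_cons_of_mem _ hy)) h4)
    intro y hy
    rw [List.disjoint_toFinset_iff_disjoint]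
    intro c hc hc'
    refine h5 hc ?_
    rw [List.mem_flatten]
    exact ⟨y.L, List.mem_map.2 ⟨y, hy, rfl⟩, hc'⟩

lemma flat_len : ∀ (X : List Pc), (∀ x ∈ X, x.ok = true) →
    (X.map Pc.L).flatten.length = 6 * X.length
  | [], _ => by simp
  | x :: X, h1 => by
    have h2 := flat_len X (fun y hy => h1 y (List.mem_cons_of_mem _ hy))
    rw [List.map_cons, List.flatten_cons, List.length_append, h2, List.length_cons]
    have h3 := h1 x List.mem_cons_self
    have : x.L.length = 6 := by
      simp only [Pc.ok, Bool.and_eq_true] at h3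
      rw [← List.toFinset_card_of_nodup (Y211.RC.okB_nodup h3.2.2)]
      exact Pc.card (h1 x List.mem_cons_self)
    omega

theorem part_of {P : List (ℤ × ℤ)} {X : List Pc} (hP : P.Nodup) (h : partB P X = true) :
    ∃ Q : Finset (Finset (ℤ × ℤ)), Q.card = X.length ∧
      (∀ A ∈ Q, ∀ B ∈ Q, A ≠ B → Disjoint A B) ∧ Q.biUnion id = P.toFinset ∧
      (∀ A ∈ Q, IsEdgeNet A) ∧ (∀ A ∈ Q, ∃ x ∈ X, A = x.L.toFinset) ∧
      (∀ x ∈ X, x.L.toFinset ∈ Q) := by
  simp only [partB, Bool.and_eq_true, List.all_eq_true, decide_eq_true_eq] at h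
  obtain ⟨h1, h2, h3, h4⟩ := h
  have h3 := Nat.eq_of_beq_eq_true h3
  have hpw := part_aux X h1 h4
  have hnd : (X.map fun x => x.L.toFinset).Nodup := by
    rw [List.Nodup, List.pairwise_map]
    refine hpw.imp_of_mem ?_
    intro a b ha hb hab he
    rw [he, disjoint_self] at hab
    have := Pc.card (h1 b hb)
    rw [hab] at this
    simp at this
  refine ⟨(X.map fun x => x.L.toFinset).toFinset, ?_, ?_, ?_, ?_, ?_, ?_⟩
  · rw [List.toFinset_card_of_nodup hnd, List.length_map]
  · intro A hA B hB hAB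
    rw [List.mem_toFinset, List.mem_map] at hA hB
    obtain ⟨x, hx, rfl⟩ := hA
    obtain ⟨y, hy, rfl⟩ := hB
    have hsymm : Std.Symm (fun x y : Pc => Disjoint x.L.toFinset y.L.toFinset) :=
      ⟨fun _ _ h => h.symm⟩
    exact hpw.forall hx hy (fun e => hAB (by rw [e]))
  · apply Finset.eq_of_subset_of_card_le
    · intro c hc
      simp only [Finset.mem_biUnion, List.mem_toFinset, List.mem_map, id] at hc
      obtain ⟨A, ⟨x, hx, rfl⟩, hc⟩ := hc
      rw [List.mem_toFinset] at hc ⊢
      exact h2 c (List.mem_flatten.2 ⟨x.L, List.mem_map.2 ⟨x, hx, rfl⟩, hc⟩)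
    · have h5 : (X.map Pc.L).flatten.toFinset ⊆
          ((X.map fun x => x.L.toFinset).toFinset).biUnion id := by
        intro c hc
        rw [List.mem_toFinset, List.mem_flatten] at hc
        obtain ⟨l, hl, hc⟩ := hc
        rw [List.mem_map] at hl
        obtain ⟨x, hx, rfl⟩ := hl
        rw [Finset.mem_biUnion]
        exact ⟨x.L.toFinset, by rw [List.mem_toFinset, List.mem_map]; exact ⟨x, hx, rfl⟩,
          by simpa using hc⟩
      have h6 := Finset.card_le_card h5
      rw [List.toFinset_card_of_nodup h4, flat_len X h1] at h6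
      rw [List.toFinset_card_of_nodup hP, h3]
      exact h6
  · intro A hA
    rw [List.mem_toFinset, List.mem_map] at hA
    obtain ⟨x, hx, rfl⟩ := hA
    exact Pc.edgeNet (h1 x hx)
  · intro A hA
    rw [List.mem_toFinset, List.mem_map] at hA
    obtain ⟨x, hx, rfl⟩ := hA
    exact ⟨x, hx, rfl⟩
  · intro x hx
    rw [List.mem_toFinset, List.mem_map]
    exact ⟨x, hx, rfl⟩

end Pool.Agent.R170.Net
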