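import Mathlib
import Pool.Agent.R170.Net4

/-!
Congruence of sets of grid squares; the twenty one-sided nets are pairwise different.
-/

set_option autoImplicit false

namespace Pool.Agent.R170.Net

open Set Pool.Agent.Helper697.Rep

lemma SameOneSided.symm {A B : Finset (ℤ × ℤ)} (h : SameOneSided A B) : SameOneSided B A := by
  obtain ⟨a, b, s, t, hab, rfl⟩ := h
  refine ⟨a, -b, -a * s - b * t, b * s - a * t, by linarith, ?_⟩
  rw [Finset.image_image]
  have e : ((fun c : ℤ × ℤ => (a * c.1 - -b * c.2 + (-a * s - b * t),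
      -b * c.1 + a * c.2 + (b * s - a * t))) ∘
      fun c : ℤ × ℤ => (a * c.1 - b * c.2 + s, b * c.1 + a * c.2 + t)) = id := by
    funext c
    ext
    · simp only [Function.comp, id]
      linear_combination c.1 * hab
    · simp only [Function.comp, id]
      linear_combination c.2 * hab
  rw [e, Finset.image_id]

lemma SameOneSided.trans {A B C : Finset (ℤ × ℤ)} (h : SameOneSided A B)
    (h' : SameOneSided B C) : SameOneSided A C := by
  obtain ⟨a, b, s, t, hab, rfl⟩ := h
  obtain ⟨a', b', s', t', hab', rfl⟩ := h'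
  refine ⟨a' * a - b' * b, b' * a + a' * b, a' * s - b' * t + s', b' * s + a' * t + t', ?_, ?_⟩
  · linear_combination (a' * a' + b' * b') * hab + hab'
  · rw [Finset.image_image]
    congr 1
    funext c
    ext
    · simp only [Function.comp]; ring
    · simp only [Function.comp]; ring

lemma unit_rots {a b : ℤ} (h : a * a + b * b = 1) : (a, b) ∈ rots := by
  have h1 : a ≤ 1 := by nlinarith
  have h2 : -1 ≤ a := by nlinarith
  have h3 : b ≤ 1 := by nlinarith
  have h4 : -1 ≤ b := by nlinarith
  interval_cases a <;> interval_cases b <;> simp_all [rots]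

/-- no motion maps `n` into `m` -/
def neB (n m : List (ℤ × ℤ)) : Bool :=
  match n with
  | [] => false
  | z0 :: l => rots.all fun r => m.all fun z =>
      !((z0 :: l).all fun c => decide (mv r (z - mv r (0, 0) z0) c ∈ m))

lemma neB_spec {n m : List (ℤ × ℤ)} (h : neB n m = true) :
    ¬ SameOneSided n.toFinset m.toFinset := by
  rintro ⟨a, b, s, t, hab, e⟩
  unfold neB at h
  split at h
  · simp at h
  · rename_i z0 l
    simp only [List.all_eq_true] at h
    have key : ∀ c ∈ (z0 :: l), mv (a, b) (s, t) c ∈ m := by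
      intro c hc
      rw [← List.mem_toFinset, e, Finset.mem_image]
      exact ⟨c, by simpa using hc, rfl⟩
    have h1 := h (a, b) (unit_rots hab) _ (key z0 List.mem_cons_self)
    rw [Bool.not_eq_true', ← Bool.not_eq_true, List.all_eq_true] at h1
    apply h1
    intro c hc
    have e2 : mv (a, b) (s, t) z0 - mv (a, b) (0, 0) z0 = (s, t) := by
      ext <;> simp [mv]
    rw [e2]
    simpa using key c hc

lemma ne_all : ((List.range 20).all fun i => (List.range 20).all fun j =>
    decide (i = j) || neB (netL i) (netL j)) = true := by decide +kernel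

lemma net_ne {i j : ℕ} (hi : i < 20) (hj : j < 20)
    (h : SameOneSided (netL i).toFinset (netL j).toFinset) : i = j := by
  have key := ne_all
  simp only [List.all_eq_true, List.mem_range, Bool.or_eq_true, decide_eq_true_eq] at key
  rcases key i hi j hj with h1 | h1
  · exact h1
  · exact absurd h (neB_spec h1)

lemma netL_mem : ∀ n ∈ nets, ∃ i < 20, n = netL i := by
  intro n hn
  obtain ⟨i, hi, rfl⟩ := List.mem_iff_getElem.1 hn
  have h20 : nets.length = 20 := by decide
  refine ⟨i, by omega, ?_⟩
  rw [netL, List.getD_eq_getElem _ _ hi]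

/-! ### congruence, reflections allowed -/

lemma Congruent.symm {A B : Finset (ℤ × ℤ)} (h : Congruent A B) : Congruent B A := by
  obtain ⟨g, hg, rfl⟩ := h
  refine ⟨g.symm, fun c d => ?_, ?_⟩
  · have := hg (g.symm c) (g.symm d)
    simp only [Equiv.apply_symm_apply] at this
    exact this.symm
  · rw [Finset.map_map]
    ext c
    simp

lemma Congruent.trans {A B C : Finset (ℤ × ℤ)} (h : Congruent A B) (h' : Congruent B C) :
    Congruent A C := by
  obtain ⟨g, hg, rfl⟩ := h
  obtain ⟨g', hg', rfl⟩ := h'
  refine ⟨g.trans g', fun c d => ?_, ?_⟩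
  · simp only [Equiv.trans_apply]
    rw [hg', hg]
  · rw [Finset.map_map]
    rfl

lemma SameOneSided.congr {A B : Finset (ℤ × ℤ)} (h : SameOneSided A B) : Congruent A B := by
  obtain ⟨a, b, s, t, hab, rfl⟩ := h
  refine ⟨⟨fun c => (a * c.1 - b * c.2 + s, b * c.1 + a * c.2 + t),
    fun c => (a * (c.1 - s) + b * (c.2 - t), -b * (c.1 - s) + a * (c.2 - t)), ?_, ?_⟩, ?_, ?_⟩
  · intro c
    ext
    · simp only; linear_combination c.1 * hab
    · simp only; linear_combination c.2 * hab
  · intro c
    ext
    · simp only; linear_combination (c.1 - s) * hab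
    · simp only; linear_combination (c.2 - t) * hab
  · intro c d
    simp only [sqd, Equiv.coe_fn_mk]
    linear_combination ((c.1 - d.1) ^ 2 + (c.2 - d.2) ^ 2) * hab
  · rw [Finset.map_eq_image]
    rfl

/-- reflection in a vertical line -/
def refl (L : List (ℤ × ℤ)) : List (ℤ × ℤ) := L.map fun c => (-c.1, c.2)

lemma refl_congr (L : List (ℤ × ℤ)) : Congruent L.toFinset (refl L).toFinset := by
  refine ⟨⟨fun c => (-c.1, c.2), fun c => (-c.1, c.2), fun c => by simp, fun c => by simp⟩, ?_, ?_⟩
  · intro c d
    simp only [sqd, Equiv.coe_fn_mk]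
    ring
  · rw [Finset.map_eq_image]
    ext c
    simp only [refl, List.mem_toFinset, List.mem_map, Finset.mem_image]
    rfl

/-- `B` is the image of `A` under a motion (list version) -/
def sameB (A B : List (ℤ × ℤ)) : Bool :=
  rots.any fun r => B.any fun z => match A with
    | [] => false
    | z0 :: _ => (A.all fun c => decide (mv r (z - mv r (0, 0) z0) c ∈ B)) &&
        (B.all fun c => decide (c ∈ A.map (mv r (z - mv r (0, 0) z0))))

lemma sameB_spec {A B : List (ℤ × ℤ)} (h : sameB A B = true) :
    SameOneSided A.toFinset B.toFinset := by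
  simp only [sameB, List.any_eq_true] at h
  obtain ⟨r, hr, z, hz, h⟩ := h
  split at h
  · simp at h
  · rename_i z0 l
    simp only [Bool.and_eq_true, List.all_eq_true, decide_eq_true_eq] at h
    obtain ⟨h1, h2⟩ := h
    refine ⟨r.1, r.2, (z - mv r (0, 0) z0).1, (z - mv r (0, 0) z0).2, rots_unit r hr, ?_⟩
    ext c
    rw [List.mem_toFinset, Finset.mem_image]
    constructor
    · intro hc
      have := h2 c hc
      rw [List.mem_map] at this
      obtain ⟨d, hd, hdc⟩ := this
      exact ⟨d, by simpa using hd, hdc⟩
    · rintro ⟨d, hd, rfl⟩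
      exact h1 d (by simpa using hd)

/-- the eleven types -/
def typ (i : ℕ) : ℕ := [0, 1, 1, 2, 2, 3, 3, 4, 4, 5, 5, 6, 6, 7, 7, 8, 8, 9, 10, 10].getD i 11

lemma typ_all : ((List.range 20).all fun i => (List.range 20).all fun j =>
    !(decide (typ i = typ j)) || (decide (i = j) || sameB (refl (netL i)) (netL j))) = true := by
  decide +kernel

lemma Congruent.refl (A : Finset (ℤ × ℤ)) : Congruent A A :=
  ⟨Equiv.refl _, fun _ _ => rfl, by ext c; simp⟩

lemma typ_congr {i j : ℕ} (hi : i < 20) (hj : j < 20) (h : typ i = typ j) :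
    Congruent (netL i).toFinset (netL j).toFinset := by
  have key := typ_all
  simp only [List.all_eq_true, List.mem_range, Bool.or_eq_true, decide_eq_true_eq,
    Bool.not_eq_true', decide_eq_false_iff_not] at key
  rcases (key i hi j hj).resolve_left (fun f => f h) with h1 | h1
  · rw [h1]; exact Congruent.refl _
  · exact (refl_congr _).trans (sameB_spec h1).congr

lemma Pc.ilt {x : Pc} (h : x.ok = true) : x.i < 20 := by
  simp only [Pc.ok, Bool.and_eq_true, decide_eq_true_eq] at h
  exact h.2.1

end Pool.Agent.R170.Net
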