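import Mathlib

/-!
# Polyhedra resting on faces: definitions

Convex polyhedra in Euclidean 3-space, regarded as solids of uniform density, and the faces on
which they can rest.
-/

namespace Pool.Agent.R170.Uni

open MeasureTheory Module

/-- Euclidean 3-space -/
abbrev E3 := EuclideanSpace ℝ (Fin 3)

/-- A convex polyhedron: a compact convex set with nonempty interior and finitely many faces
(of all dimensions; faces are the exposed faces in the sense of Mathlib). -/
def IsPolyhedron (P : Set E3) : Prop :=
  IsCompact P ∧ Convex ℝ P ∧ (interior P).Nonempty ∧ {F : Set E3 | IsExposed ℝ P F}.Finite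

/-- `F` is a face of dimension 2 of `P`: an exposed face whose affine span has dimension 2. -/
def IsFace2 (P F : Set E3) : Prop :=
  IsExposed ℝ P F ∧ finrank ℝ (vectorSpan ℝ F) = 2

/-- The centre of mass of the solid `P` of uniform density (Lebesgue measure): the mean of `x`
over `P`. -/
noncomputable def massCenter (P : Set E3) : E3 := ⨍ x in P, x

/-- `P` is stable on `F`: there is a point `q` in the relative interior of `F` such that
`c - q` is orthogonal to the plane of `F`, where `c` is the centre of mass. In other words the
orthogonal projection of `c` on the affine span of `F` is in the relative interior of `F`. -/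
def StableOn (P F : Set E3) : Prop :=
  ∃ q ∈ intrinsicInterior ℝ F, ∀ v ∈ vectorSpan ℝ F, inner ℝ (massCenter P - q) v = 0

/-- `P` is unistable with resting face `F`: `F` is a 2-face on which `P` is stable, and `P` is
stable on no other 2-face. -/
def IsRestingFace (P F : Set E3) : Prop :=
  IsFace2 P F ∧ StableOn P F ∧ ∀ G, IsFace2 P G → StableOn P G → G = F

end Pool.Agent.R170.Uni
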