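import Mathlib

/-!
# Faces of a polyhedron given by finitely many linear inequalities

`HPoly a b` is the intersection of the half-spaces `⟪a i, x⟫ ≤ b i`.  We prove that it has only
finitely many exposed faces, and that in dimension 3 every exposed face of dimension 2 is
`{x ∈ P | ⟪a i, x⟫ = b i}` for one of the given inequalities.
-/

namespace Pool.Agent.R170.Uni

open Module

variable {E : Type*} [NormedAddCommGroup E] [InnerProductSpace ℝ E]

/-- intersection of the half-spaces `⟪a i, x⟫ ≤ b i` -/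
def HPoly {ι : Type*} (a : ι → E) (b : ι → ℝ) : Set E := {x | ∀ i, inner ℝ (a i) x ≤ b i}

variable {ι : Type*} {a : ι → E} {b : ι → ℝ}

lemma convex_HPoly : Convex ℝ (HPoly a b) := by
  intro x hx y hy s t hs ht hst i
  have h1 := hx i
  have h2 := hy i
  rw [inner_add_right, inner_smul_right, inner_smul_right]
  calc s * inner ℝ (a i) x + t * inner ℝ (a i) y ≤ s * b i + t * b i := by gcongr
    _ = b i := by rw [← add_mul, hst, one_mul]

lemma exists_strict [Finite ι] {F : Set E} (hF : Convex ℝ F) (hne : F.Nonempty)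
    (hFP : F ⊆ HPoly a b) :
    ∃ p ∈ F, ∀ i, (¬ ∀ x ∈ F, inner ℝ (a i) x = b i) → inner ℝ (a i) p < b i := by
  classical
  have := Fintype.ofFinite ι
  have key : ∀ s : Finset ι, ∃ p ∈ F, ∀ i ∈ s,
      (¬ ∀ x ∈ F, inner ℝ (a i) x = b i) → inner ℝ (a i) p < b i := by
    intro s
    induction s using Finset.induction_on with
    | empty => obtain ⟨p, hp⟩ := hne; exact ⟨p, hp, by simp⟩
    | insert j s hj ih =>
      obtain ⟨p, hp, h⟩ := ih
      by_cases hJ : ∀ x ∈ F, inner ℝ (a j) x = b j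
      · refine ⟨p, hp, fun i hi hni => ?_⟩
        rcases Finset.mem_insert.1 hi with rfl | hi
        · exact absurd hJ hni
        · exact h i hi hni
      · have hJ' := hJ
        push Not at hJ'
        obtain ⟨x, hx, hxb⟩ := hJ'
        have hlt : inner ℝ (a j) x < b j := lt_of_le_of_ne (hFP hx j) hxb
        refine ⟨(1/2 : ℝ) • p + (1/2 : ℝ) • x, hF hp hx (by norm_num) (by norm_num) (by norm_num),
          fun i hi hni => ?_⟩
        rw [inner_add_right, inner_smul_right, inner_smul_right]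
        have e1 := hFP hp i
        have e2 := hFP hx i
        rcases Finset.mem_insert.1 hi with rfl | hi
        · linarith
        · have := h i hi hni
          linarith
  obtain ⟨p, hp, h⟩ := key Finset.univ
  exact ⟨p, hp, fun i => h i (Finset.mem_univ i)⟩

lemma exists_small [Finite ι] {p v : E} (hp : ∀ i, inner ℝ (a i) v ≤ 0 ∨ inner ℝ (a i) p < b i)
    (hpP : p ∈ HPoly a b) : ∃ t : ℝ, 0 < t ∧ p + t • v ∈ HPoly a b := by
  have h : ∀ᶠ t : ℝ in nhdsWithin 0 (Set.Ioi 0), ∀ i, inner ℝ (a i) (p + t • v) ≤ b i := by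
    rw [Filter.eventually_all]
    intro i
    rcases hp i with h | h
    · filter_upwards [self_mem_nhdsWithin] with t ht
      have ht0 : (0:ℝ) < t := ht
      rw [inner_add_right, inner_smul_right]
      have := hpP i
      nlinarith
    · have hc : Continuous fun t : ℝ => inner ℝ (a i) (p + t • v) := by fun_prop
      have : ∀ᶠ t : ℝ in nhds 0, inner ℝ (a i) (p + t • v) < b i := by
        apply hc.continuousAt.eventually_lt continuousAt_const
        simpa using h
      filter_upwards [this.filter_mono nhdsWithin_le_nhds] with t ht using ht.le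
  obtain ⟨t, ht, ht0⟩ := (h.and self_mem_nhdsWithin).exists
  exact ⟨t, ht0, ht⟩

lemma face_eq [Finite ι] {F : Set E} (hF : IsExposed ℝ (HPoly a b) F) (hne : F.Nonempty) :
    F = {x | x ∈ HPoly a b ∧ ∀ i ∈ {i | ∀ y ∈ F, inner ℝ (a i) y = b i},
      inner ℝ (a i) x = b i} := by
  obtain ⟨l, hl⟩ := hF hne
  have hFP : F ⊆ HPoly a b := hF.subset
  have hFc : Convex ℝ F := hF.convex convex_HPoly
  obtain ⟨p, hp, hs⟩ := exists_strict hFc hne hFP
  apply Set.Subset.antisymm
  · intro x hx
    exact ⟨hFP hx, fun i hi => hi x hx⟩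
  · rintro x ⟨hxP, hx⟩
    obtain ⟨t, ht, hmem⟩ := exists_small (a := a) (b := b) (p := p) (v := p - x) (by
      intro i
      by_cases hi : ∀ y ∈ F, inner ℝ (a i) y = b i
      · left
        rw [inner_sub_right, hi p hp, hx i hi, sub_self]
      · right
        exact hs i hi) (hFP hp)
    have hp' := hp
    rw [hl] at hp'
    have h1 := hp'.2 _ hmem
    rw [map_add, map_smul, map_sub, smul_eq_mul] at h1
    have h2 : l p ≤ l x := by nlinarith
    rw [hl]
    exact ⟨hxP, fun y hy => (hp'.2 y hy).trans h2⟩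

lemma finite_faces [Finite ι] : {F : Set E | IsExposed ℝ (HPoly a b) F}.Finite := by
  have : {F : Set E | IsExposed ℝ (HPoly a b) F} ⊆
      {∅} ∪ Set.range (fun J : Set ι => {x | x ∈ HPoly a b ∧ ∀ i ∈ J, inner ℝ (a i) x = b i}) := by
    intro F hF
    rcases F.eq_empty_or_nonempty with h | h
    · left; exact h
    · right
      exact ⟨_, (face_eq hF h).symm⟩
  exact ((Set.finite_singleton _).union (Set.finite_range _)).subset this

lemma face2_eq [Finite ι] [FiniteDimensional ℝ E] (hE : finrank ℝ E = 3)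
    {x₀ : E} (hx₀ : ∀ i, inner ℝ (a i) x₀ < b i)
    (ha : ∀ i, a i ≠ 0) {F : Set E} (hF : IsExposed ℝ (HPoly a b) F)
    (h2 : finrank ℝ (vectorSpan ℝ F) = 2) :
    ∃ i, F = {x | x ∈ HPoly a b ∧ inner ℝ (a i) x = b i} ∧ vectorSpan ℝ F = (ℝ ∙ a i)ᗮ := by
  have hne : F.Nonempty := by
    rcases F.eq_empty_or_nonempty with h | h
    · subst h
      rw [vectorSpan_empty, finrank_bot] at h2
      omega
    · exact h
  have hJ : ∃ i, ∀ y ∈ F, inner ℝ (a i) y = b i := by
    by_contra hcon
    have hcon' : {i | ∀ y ∈ F, inner ℝ (a i) y = b i} = ∅ := by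
      exact Set.eq_empty_iff_forall_notMem.2 fun i h => hcon ⟨i, h⟩
    have hFP := face_eq hF hne
    rw [hcon'] at hFP
    have hFP' : F = HPoly a b := by rw [hFP]; ext x; simp
    have htop : vectorSpan ℝ F = ⊤ := by
      rw [eq_top_iff]
      intro v _
      obtain ⟨t, ht, hmem⟩ := exists_small (a := a) (b := b) (p := x₀) (v := v)
        (fun i => Or.inr (hx₀ i)) (fun i => (hx₀ i).le)
      have hx : x₀ ∈ F := by rw [hFP']; exact fun i => (hx₀ i).le
      have hx' : x₀ + t • v ∈ F := by rw [hFP']; exact hmem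
      have := vsub_mem_vectorSpan ℝ hx' hx
      rw [vsub_eq_sub, add_sub_cancel_left] at this
      have h3 := Submodule.smul_mem (vectorSpan ℝ F) t⁻¹ this
      rwa [smul_smul, inv_mul_cancel₀ ht.ne', one_smul] at h3
    rw [htop, finrank_top, hE] at h2
    omega
  obtain ⟨i, hi⟩ := hJ
  have hle : vectorSpan ℝ F ≤ (ℝ ∙ a i)ᗮ := by
    rw [vectorSpan_def, Submodule.span_le]
    rintro v ⟨x, hx, y, hy, rfl⟩
    change x - y ∈ (ℝ ∙ a i)ᗮ
    rw [Submodule.mem_orthogonal_singleton_iff_inner_right,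
      inner_sub_right, hi x hx, hi y hy, sub_self]
  have : Fact (finrank ℝ E = 2 + 1) := ⟨hE⟩
  have hfr : finrank ℝ ((ℝ ∙ a i)ᗮ : Submodule ℝ E) = 2 :=
    Submodule.finrank_orthogonal_span_singleton (ha i)
  have heq : vectorSpan ℝ F = (ℝ ∙ a i)ᗮ :=
    Submodule.eq_of_le_of_finrank_eq hle (by rw [h2, hfr])
  refine ⟨i, ?_, heq⟩
  obtain ⟨l, hl⟩ := hF hne
  obtain ⟨x₁, hx₁⟩ := hne
  apply Set.Subset.antisymm
  · intro x hx
    exact ⟨hF.subset hx, hi x hx⟩
  · rintro x ⟨hxP, hx⟩
    have hker : vectorSpan ℝ F ≤ LinearMap.ker (l : E →ₗ[ℝ] ℝ) := by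
      rw [vectorSpan_def, Submodule.span_le]
      rintro v ⟨y, hy, z, hz, rfl⟩
      change l (y - z) = 0
      rw [hl] at hy hz
      have h3 := hy.2 z hz.1
      have h4 := hz.2 y hy.1
      rw [map_sub]
      linarith
    have hmem : x - x₁ ∈ vectorSpan ℝ F := by
      rw [heq, Submodule.mem_orthogonal_singleton_iff_inner_right, inner_sub_right, hx, hi x₁ hx₁,
        sub_self]
    have h5 := hker hmem
    rw [LinearMap.mem_ker] at h5
    simp only [ContinuousLinearMap.coe_coe, map_sub] at h5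
    rw [hl] at hx₁ ⊢
    refine ⟨hxP, fun y hy => ?_⟩
    have := hx₁.2 y hy
    linarith

/-- the foot of the perpendicular on a plane -/
lemma foot_eq [FiniteDimensional ℝ E] {n c q : E} {V : Submodule ℝ E} (hV : V = (ℝ ∙ n)ᗮ)
    (hc : ∀ v ∈ V, inner ℝ (c - q) v = 0) : ∃ s : ℝ, q = c - s • n := by
  have h : c - q ∈ ((ℝ ∙ n)ᗮ : Submodule ℝ E)ᗮ := by
    rw [Submodule.mem_orthogonal]
    intro v hv
    rw [real_inner_comm]
    exact hc v (hV ▸ hv)
  rw [Submodule.orthogonal_orthogonal, Submodule.mem_span_singleton] at h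
  obtain ⟨s, hs⟩ := h
  exact ⟨s, by rw [hs]; abel⟩

end Pool.Agent.R170.Uni
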