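import Mathlib
import Pool.Agent.R170.UniFace
import Pool.Agent.R170.UniDefs

/-!
# The polyhedron with 25 faces: data and linear inequalities
-/

namespace Pool.Agent.R170.Uni

open MeasureTheory Module

/-- the integer coefficients `(p, q, r, s)` of the 25 inequalities `p x + q y + r z ≤ s` -/
def cf : Fin 25 → Fin 4 → ℤ := ![
  ![0, -1, 0, 0],
  ![1, -3, 0, 5],
  ![-1, -3, 0, 5],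
  ![3, -5, 0, 19],
  ![-3, -5, 0, 19],
  ![4, -3, 0, 40],
  ![-4, -3, 0, 40],
  ![3, -1, 0, 40],
  ![-3, -1, 0, 40],
  ![6, -1, 0, 91],
  ![-6, -1, 0, 91],
  ![5, 1, 0, 107],
  ![-5, 1, 0, 107],
  ![2, 1, 0, 56],
  ![-2, 1, 0, 56],
  ![3, 2, 0, 96],
  ![-3, 2, 0, 96],
  ![3, 4, 0, 156],
  ![-3, 4, 0, 156],
  ![1, 2, 0, 74],
  ![-1, 2, 0, 74],
  ![0, -1440, 1, 1],
  ![0, -1440, -1, 1],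
  ![0, 40, 1, 1481],
  ![0, 40, -1, 1481]]

/-- the normal vectors -/
noncomputable def nv (i : Fin 25) : E3 := !₂[(cf i 0 : ℝ), (cf i 1 : ℝ), (cf i 2 : ℝ)]

/-- the right hand sides -/
noncomputable def bv (i : Fin 25) : ℝ := (cf i 3 : ℝ)

/-- the polyhedron -/
def body : Set E3 := HPoly nv bv

lemma inner_nv (i : Fin 25) (x : E3) :
    inner ℝ (nv i) x = (cf i 0 : ℝ) * x 0 + (cf i 1 : ℝ) * x 1 + (cf i 2 : ℝ) * x 2 := by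
  simp only [nv, PiLp.inner_apply, Fin.sum_univ_three]
  simp
  ring

/-- the 25 inequalities, written out -/
def Ineqs (u y w : ℝ) : Prop :=
  (-y ≤ 0) ∧
  (u - (3 * y) ≤ 5) ∧
  (-u - (3 * y) ≤ 5) ∧
  (3 * u - (5 * y) ≤ 19) ∧
  (-(3 * u) - (5 * y) ≤ 19) ∧
  (4 * u - (3 * y) ≤ 40) ∧
  (-(4 * u) - (3 * y) ≤ 40) ∧
  (3 * u - y ≤ 40) ∧
  (-(3 * u) - y ≤ 40) ∧
  (6 * u - y ≤ 91) ∧
  (-(6 * u) - y ≤ 91) ∧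
  (5 * u + y ≤ 107) ∧
  (-(5 * u) + y ≤ 107) ∧
  (2 * u + y ≤ 56) ∧
  (-(2 * u) + y ≤ 56) ∧
  (3 * u + 2 * y ≤ 96) ∧
  (-(3 * u) + 2 * y ≤ 96) ∧
  (3 * u + 4 * y ≤ 156) ∧
  (-(3 * u) + 4 * y ≤ 156) ∧
  (u + 2 * y ≤ 74) ∧
  (-u + 2 * y ≤ 74) ∧
  (-(1440 * y) + w ≤ 1) ∧
  (-(1440 * y) - w ≤ 1) ∧
  (40 * y + w ≤ 1481) ∧
  (40 * y - w ≤ 1481)

lemma mem_body_iff (x : E3) : x ∈ body ↔ Ineqs (x 0) (x 1) (x 2) := by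
  constructor
  · intro h
    have h0 := h 0
    have h1 := h 1
    have h2 := h 2
    have h3 := h 3
    have h4 := h 4
    have h5 := h 5
    have h6 := h 6
    have h7 := h 7
    have h8 := h 8
    have h9 := h 9
    have h10 := h 10
    have h11 := h 11
    have h12 := h 12
    have h13 := h 13
    have h14 := h 14
    have h15 := h 15
    have h16 := h 16
    have h17 := h 17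
    have h18 := h 18
    have h19 := h 19
    have h20 := h 20
    have h21 := h 21
    have h22 := h 22
    have h23 := h 23
    have h24 := h 24
    simp only [inner_nv, bv] at h0 h1 h2 h3 h4 h5 h6 h7 h8 h9 h10 h11 h12 h13 h14 h15 h16 h17 h18 h19 h20 h21 h22 h23 h24
    simp [cf] at h0 h1 h2 h3 h4 h5 h6 h7 h8 h9 h10 h11 h12 h13 h14 h15 h16 h17 h18 h19 h20 h21 h22 h23 h24
    refine ⟨?_, ?_, ?_, ?_, ?_, ?_, ?_, ?_, ?_, ?_, ?_, ?_, ?_, ?_, ?_, ?_, ?_, ?_, ?_, ?_, ?_, ?_, ?_, ?_, ?_⟩ <;> linarith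
  · rintro ⟨h0, h1, h2, h3, h4, h5, h6, h7, h8, h9, h10, h11, h12, h13, h14, h15, h16, h17, h18, h19, h20, h21, h22, h23, h24⟩ i
    rw [inner_nv, bv]
    fin_cases i <;> simp [cf] <;> linarith

lemma slice_0 {y : ℝ} (h1 : 0 ≤ y) (h2 : y ≤ 1) (u w : ℝ) : Ineqs u y w ↔
    (-((5) + (3) * y) ≤ u ∧ u ≤ (5) + (3) * y) ∧ (-((1) + (1440) * y) ≤ w ∧ w ≤ (1) + (1440) * y) := by
  constructor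
  · rintro ⟨h0, h1, h2, h3, h4, h5, h6, h7, h8, h9, h10, h11, h12, h13, h14, h15, h16, h17, h18, h19, h20, h21, h22, h23, h24⟩
    refine ⟨⟨?_, ?_⟩, ⟨?_, ?_⟩⟩ <;> linarith
  · rintro ⟨⟨g1, g2⟩, ⟨g3, g4⟩⟩
    refine ⟨?_, ?_, ?_, ?_, ?_, ?_, ?_, ?_, ?_, ?_, ?_, ?_, ?_, ?_, ?_, ?_, ?_, ?_, ?_, ?_, ?_, ?_, ?_, ?_, ?_⟩ <;> linarith

lemma slice_1 {y : ℝ} (h1 : 1 ≤ y) (h2 : y ≤ 4) (u w : ℝ) : Ineqs u y w ↔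
    (-((19/3) + (5/3) * y) ≤ u ∧ u ≤ (19/3) + (5/3) * y) ∧ (-((1481) + (-40) * y) ≤ w ∧ w ≤ (1481) + (-40) * y) := by
  constructor
  · rintro ⟨h0, h1, h2, h3, h4, h5, h6, h7, h8, h9, h10, h11, h12, h13, h14, h15, h16, h17, h18, h19, h20, h21, h22, h23, h24⟩
    refine ⟨⟨?_, ?_⟩, ⟨?_, ?_⟩⟩ <;> linarith
  · rintro ⟨⟨g1, g2⟩, ⟨g3, g4⟩⟩
    refine ⟨?_, ?_, ?_, ?_, ?_, ?_, ?_, ?_, ?_, ?_, ?_, ?_, ?_, ?_, ?_, ?_, ?_, ?_, ?_, ?_, ?_, ?_, ?_, ?_, ?_⟩ <;> linarith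

lemma slice_2 {y : ℝ} (h1 : 4 ≤ y) (h2 : y ≤ 8) (u w : ℝ) : Ineqs u y w ↔
    (-((10) + (3/4) * y) ≤ u ∧ u ≤ (10) + (3/4) * y) ∧ (-((1481) + (-40) * y) ≤ w ∧ w ≤ (1481) + (-40) * y) := by
  constructor
  · rintro ⟨h0, h1, h2, h3, h4, h5, h6, h7, h8, h9, h10, h11, h12, h13, h14, h15, h16, h17, h18, h19, h20, h21, h22, h23, h24⟩
    refine ⟨⟨?_, ?_⟩, ⟨?_, ?_⟩⟩ <;> linarith
  · rintro ⟨⟨g1, g2⟩, ⟨g3, g4⟩⟩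
    refine ⟨?_, ?_, ?_, ?_, ?_, ?_, ?_, ?_, ?_, ?_, ?_, ?_, ?_, ?_, ?_, ?_, ?_, ?_, ?_, ?_, ?_, ?_, ?_, ?_, ?_⟩ <;> linarith

lemma slice_3 {y : ℝ} (h1 : 8 ≤ y) (h2 : y ≤ 11) (u w : ℝ) : Ineqs u y w ↔
    (-((40/3) + (1/3) * y) ≤ u ∧ u ≤ (40/3) + (1/3) * y) ∧ (-((1481) + (-40) * y) ≤ w ∧ w ≤ (1481) + (-40) * y) := by
  constructor
  · rintro ⟨h0, h1, h2, h3, h4, h5, h6, h7, h8, h9, h10, h11, h12, h13, h14, h15, h16, h17, h18, h19, h20, h21, h22, h23, h24⟩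
    refine ⟨⟨?_, ?_⟩, ⟨?_, ?_⟩⟩ <;> linarith
  · rintro ⟨⟨g1, g2⟩, ⟨g3, g4⟩⟩
    refine ⟨?_, ?_, ?_, ?_, ?_, ?_, ?_, ?_, ?_, ?_, ?_, ?_, ?_, ?_, ?_, ?_, ?_, ?_, ?_, ?_, ?_, ?_, ?_, ?_, ?_⟩ <;> linarith

lemma slice_4 {y : ℝ} (h1 : 11 ≤ y) (h2 : y ≤ 17) (u w : ℝ) : Ineqs u y w ↔
    (-((91/6) + (1/6) * y) ≤ u ∧ u ≤ (91/6) + (1/6) * y) ∧ (-((1481) + (-40) * y) ≤ w ∧ w ≤ (1481) + (-40) * y) := by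
  constructor
  · rintro ⟨h0, h1, h2, h3, h4, h5, h6, h7, h8, h9, h10, h11, h12, h13, h14, h15, h16, h17, h18, h19, h20, h21, h22, h23, h24⟩
    refine ⟨⟨?_, ?_⟩, ⟨?_, ?_⟩⟩ <;> linarith
  · rintro ⟨⟨g1, g2⟩, ⟨g3, g4⟩⟩
    refine ⟨?_, ?_, ?_, ?_, ?_, ?_, ?_, ?_, ?_, ?_, ?_, ?_, ?_, ?_, ?_, ?_, ?_, ?_, ?_, ?_, ?_, ?_, ?_, ?_, ?_⟩ <;> linarith

lemma slice_5 {y : ℝ} (h1 : 17 ≤ y) (h2 : y ≤ 22) (u w : ℝ) : Ineqs u y w ↔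
    (-((107/5) + (-1/5) * y) ≤ u ∧ u ≤ (107/5) + (-1/5) * y) ∧ (-((1481) + (-40) * y) ≤ w ∧ w ≤ (1481) + (-40) * y) := by
  constructor
  · rintro ⟨h0, h1, h2, h3, h4, h5, h6, h7, h8, h9, h10, h11, h12, h13, h14, h15, h16, h17, h18, h19, h20, h21, h22, h23, h24⟩
    refine ⟨⟨?_, ?_⟩, ⟨?_, ?_⟩⟩ <;> linarith
  · rintro ⟨⟨g1, g2⟩, ⟨g3, g4⟩⟩
    refine ⟨?_, ?_, ?_, ?_, ?_, ?_, ?_, ?_, ?_, ?_, ?_, ?_, ?_, ?_, ?_, ?_, ?_, ?_, ?_, ?_, ?_, ?_, ?_, ?_, ?_⟩ <;> linarith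

lemma slice_6 {y : ℝ} (h1 : 22 ≤ y) (h2 : y ≤ 24) (u w : ℝ) : Ineqs u y w ↔
    (-((28) + (-1/2) * y) ≤ u ∧ u ≤ (28) + (-1/2) * y) ∧ (-((1481) + (-40) * y) ≤ w ∧ w ≤ (1481) + (-40) * y) := by
  constructor
  · rintro ⟨h0, h1, h2, h3, h4, h5, h6, h7, h8, h9, h10, h11, h12, h13, h14, h15, h16, h17, h18, h19, h20, h21, h22, h23, h24⟩
    refine ⟨⟨?_, ?_⟩, ⟨?_, ?_⟩⟩ <;> linarith
  · rintro ⟨⟨g1, g2⟩, ⟨g3, g4⟩⟩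
    refine ⟨?_, ?_, ?_, ?_, ?_, ?_, ?_, ?_, ?_, ?_, ?_, ?_, ?_, ?_, ?_, ?_, ?_, ?_, ?_, ?_, ?_, ?_, ?_, ?_, ?_⟩ <;> linarith

lemma slice_7 {y : ℝ} (h1 : 24 ≤ y) (h2 : y ≤ 30) (u w : ℝ) : Ineqs u y w ↔
    (-((32) + (-2/3) * y) ≤ u ∧ u ≤ (32) + (-2/3) * y) ∧ (-((1481) + (-40) * y) ≤ w ∧ w ≤ (1481) + (-40) * y) := by
  constructor
  · rintro ⟨h0, h1, h2, h3, h4, h5, h6, h7, h8, h9, h10, h11, h12, h13, h14, h15, h16, h17, h18, h19, h20, h21, h22, h23, h24⟩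
    refine ⟨⟨?_, ?_⟩, ⟨?_, ?_⟩⟩ <;> linarith
  · rintro ⟨⟨g1, g2⟩, ⟨g3, g4⟩⟩
    refine ⟨?_, ?_, ?_, ?_, ?_, ?_, ?_, ?_, ?_, ?_, ?_, ?_, ?_, ?_, ?_, ?_, ?_, ?_, ?_, ?_, ?_, ?_, ?_, ?_, ?_⟩ <;> linarith

lemma slice_8 {y : ℝ} (h1 : 30 ≤ y) (h2 : y ≤ 33) (u w : ℝ) : Ineqs u y w ↔
    (-((52) + (-4/3) * y) ≤ u ∧ u ≤ (52) + (-4/3) * y) ∧ (-((1481) + (-40) * y) ≤ w ∧ w ≤ (1481) + (-40) * y) := by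
  constructor
  · rintro ⟨h0, h1, h2, h3, h4, h5, h6, h7, h8, h9, h10, h11, h12, h13, h14, h15, h16, h17, h18, h19, h20, h21, h22, h23, h24⟩
    refine ⟨⟨?_, ?_⟩, ⟨?_, ?_⟩⟩ <;> linarith
  · rintro ⟨⟨g1, g2⟩, ⟨g3, g4⟩⟩
    refine ⟨?_, ?_, ?_, ?_, ?_, ?_, ?_, ?_, ?_, ?_, ?_, ?_, ?_, ?_, ?_, ?_, ?_, ?_, ?_, ?_, ?_, ?_, ?_, ?_, ?_⟩ <;> linarith

lemma slice_9 {y : ℝ} (h1 : 33 ≤ y) (h2 : y ≤ 37) (u w : ℝ) : Ineqs u y w ↔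
    (-((74) + (-2) * y) ≤ u ∧ u ≤ (74) + (-2) * y) ∧ (-((1481) + (-40) * y) ≤ w ∧ w ≤ (1481) + (-40) * y) := by
  constructor
  · rintro ⟨h0, h1, h2, h3, h4, h5, h6, h7, h8, h9, h10, h11, h12, h13, h14, h15, h16, h17, h18, h19, h20, h21, h22, h23, h24⟩
    refine ⟨⟨?_, ?_⟩, ⟨?_, ?_⟩⟩ <;> linarith
  · rintro ⟨⟨g1, g2⟩, ⟨g3, g4⟩⟩
    refine ⟨?_, ?_, ?_, ?_, ?_, ?_, ?_, ?_, ?_, ?_, ?_, ?_, ?_, ?_, ?_, ?_, ?_, ?_, ?_, ?_, ?_, ?_, ?_, ?_, ?_⟩ <;> linarith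

end Pool.Agent.R170.Uni
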