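import Mathlib
import Pool.Agent.R170.UniData

/-!
# Volume and centre of mass of the polyhedron with 25 faces
-/

namespace Pool.Agent.R170.Uni

open MeasureTheory Module

/-- the coordinates `(y, (x, z))` -/
noncomputable def eMap : E3 ≃ᵐ ℝ × (Fin 2 → ℝ) :=
  (MeasurableEquiv.toLp 2 (Fin 3 → ℝ)).symm.trans
    (MeasurableEquiv.piFinSuccAbove (fun _ => ℝ) 1)

lemma eMap_mp : MeasurePreserving eMap volume volume :=
  (EuclideanSpace.volume_preserving_symm_measurableEquiv_toLp (Fin 3)).trans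
    (volume_preserving_piFinSuccAbove (fun _ : Fin 3 => ℝ) 1)

lemma eMap_apply (p : E3) : eMap p = (p 1, fun j => p (Fin.succAbove 1 j)) := rfl

/-- the slice at height `y` -/
def sliceSet (y : ℝ) : Set (Fin 2 → ℝ) := {w | Ineqs (w 0) y (w 1)}

/-- area of the slice at height `y` -/
noncomputable def areaAt (y : ℝ) : ℝ := (volume (sliceSet y)).toReal

/-- the polyhedron in the coordinates `(y, (x, z))` -/
def prodBody : Set (ℝ × (Fin 2 → ℝ)) := {z | Ineqs (z.2 0) z.1 (z.2 1)}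

lemma eMap_preimage : eMap ⁻¹' prodBody = body := by
  ext p
  rw [mem_body_iff]
  rfl

lemma isClosed_body : IsClosed body := by
  have : body = ⋂ i, {x : E3 | inner ℝ (nv i) x ≤ bv i} := by
    ext x
    rw [Set.mem_iInter]
    rfl
  rw [this]
  exact isClosed_iInter fun i => isClosed_le (by fun_prop) continuous_const

lemma isCompact_body : IsCompact body := by
  apply Metric.isCompact_of_isClosed_isBounded isClosed_body
  rw [isBounded_iff_forall_norm_le]
  refine ⟨2000, fun x hx => ?_⟩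
  rw [mem_body_iff] at hx
  obtain ⟨h0, h1, h2, h3, h4, h5, h6, h7, h8, h9, h10, h11, h12, h13, h14, h15, h16, h17, h18,
    h19, h20, h21, h22, h23, h24⟩ := hx
  rw [EuclideanSpace.norm_eq, Fin.sum_univ_three]
  apply Real.sqrt_le_iff.2
  refine ⟨by norm_num, ?_⟩
  simp only [Real.norm_eq_abs, sq_abs]
  have a1 : x 0 ≤ 18 := by linarith
  have a2 : -18 ≤ x 0 := by linarith
  have a3 : x 1 ≤ 37 := by linarith
  have a4 : 0 ≤ x 1 := by linarith
  have a5 : x 2 ≤ 1481 := by linarith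
  have a6 : -1481 ≤ x 2 := by linarith
  nlinarith [mul_nonneg (sub_nonneg.2 a1) (sub_nonneg.2 a2),
    mul_nonneg (sub_nonneg.2 a3) (sub_nonneg.2 a4), mul_nonneg (sub_nonneg.2 a5) (sub_nonneg.2 a6)]

lemma measurableSet_body : MeasurableSet body := isClosed_body.measurableSet

lemma measurableSet_prodBody : MeasurableSet prodBody := by
  have : prodBody = eMap.symm ⁻¹' body := by
    rw [← eMap_preimage, ← Set.preimage_comp, MeasurableEquiv.self_comp_symm, Set.preimage_id]
  rw [this]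
  exact eMap.symm.measurable measurableSet_body

lemma measurableSet_sliceSet (y : ℝ) : MeasurableSet (sliceSet y) :=
  measurable_prodMk_left measurableSet_prodBody

lemma integral_body {g : ℝ → ℝ} (hg : Continuous g) :
    ∫ p in body, g (p 1) = ∫ y, g y * areaAt y := by
  have hint : IntegrableOn (fun p : E3 => g (p 1)) body :=
    ContinuousOn.integrableOn_compact isCompact_body (by fun_prop)
  have h1 : ∫ p in body, g (p 1) =
      ∫ p, (prodBody.indicator (fun z : ℝ × (Fin 2 → ℝ) => g z.1)) (eMap p) := by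
    rw [← integral_indicator measurableSet_body]
    congr 1
    ext p
    by_cases hp : p ∈ body
    · have hp' : eMap p ∈ prodBody := by rw [← eMap_preimage] at hp; exact hp
      rw [Set.indicator_of_mem hp, Set.indicator_of_mem hp']
      rfl
    · have hp' : eMap p ∉ prodBody := by rw [← eMap_preimage] at hp; exact hp
      rw [Set.indicator_of_notMem hp, Set.indicator_of_notMem hp']
  have hI : Integrable (prodBody.indicator (fun z : ℝ × (Fin 2 → ℝ) => g z.1)) := by
    rw [← eMap_mp.integrable_comp_emb eMap.measurableEmbedding]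
    rw [← integrable_indicator_iff measurableSet_body] at hint
    refine hint.congr (Filter.Eventually.of_forall fun p => ?_)
    by_cases hp : p ∈ body
    · have hp' : eMap p ∈ prodBody := by rw [← eMap_preimage] at hp; exact hp
      rw [Set.indicator_of_mem hp, Function.comp_apply, Set.indicator_of_mem hp']
      rfl
    · have hp' : eMap p ∉ prodBody := by rw [← eMap_preimage] at hp; exact hp
      rw [Set.indicator_of_notMem hp, Function.comp_apply, Set.indicator_of_notMem hp']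
  rw [h1, eMap_mp.integral_comp' (f := eMap)]
  rw [Measure.volume_eq_prod, integral_prod _ (by rw [← Measure.volume_eq_prod]; exact hI)]
  congr 1
  ext y
  have : (fun w : Fin 2 → ℝ => prodBody.indicator (fun z : ℝ × (Fin 2 → ℝ) => g z.1) (y, w)) =
      (sliceSet y).indicator (fun _ => g y) := by
    ext w
    by_cases hw : w ∈ sliceSet y
    · have hw' : (y, w) ∈ prodBody := hw
      rw [Set.indicator_of_mem hw, Set.indicator_of_mem hw']
    · have hw' : (y, w) ∉ prodBody := hw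
      rw [Set.indicator_of_notMem hw, Set.indicator_of_notMem hw']
  rw [this, integral_indicator_const _ (measurableSet_sliceSet y), smul_eq_mul, mul_comm]
  rfl

lemma vol_box {X Z : ℝ} (hX : 0 ≤ X) (hZ : 0 ≤ Z) {S : Set (Fin 2 → ℝ)}
    (hS : ∀ w, w ∈ S ↔ (-X ≤ w 0 ∧ w 0 ≤ X) ∧ (-Z ≤ w 1 ∧ w 1 ≤ Z)) :
    (volume S).toReal = 4 * X * Z := by
  have : S = Set.Icc (![-X, -Z] : Fin 2 → ℝ) ![X, Z] := by
    ext w
    rw [hS, Set.mem_Icc, Pi.le_def, Pi.le_def, Fin.forall_fin_two, Fin.forall_fin_two]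
    simp
    tauto
  rw [this, Real.volume_Icc_pi_toReal]
  · simp [Fin.prod_univ_two]
    ring
  · rw [Pi.le_def, Fin.forall_fin_two]
    simp
    constructor <;> linarith

lemma areaAt_neg {y : ℝ} (hy : y < 0) : areaAt y = 0 := by
  have : sliceSet y = ∅ := by
    apply Set.eq_empty_iff_forall_notMem.2
    rintro w ⟨h0, -⟩
    linarith
  rw [areaAt, this]
  simp

lemma areaAt_big {y : ℝ} (hy : 37 < y) : areaAt y = 0 := by
  have : sliceSet y = ∅ := by
    apply Set.eq_empty_iff_forall_notMem.2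
    rintro w ⟨h0, h1, h2, h3, h4, h5, h6, h7, h8, h9, h10, h11, h12, h13, h14, h15, h16, h17, h18,
      h19, h20, h21, h22, h23, h24⟩
    linarith
  rw [areaAt, this]
  simp

/-- the integral of `(g₀ + g₁ y) * 4 (p + q y) (r + s y)` -/
noncomputable def JJ (g₀ g₁ p q r s a b : ℝ) : ℝ :=
  4 * g₀ * p * r * (b - a) + 4 * (g₁ * p * r + g₀ * (p * s + q * r)) * ((b ^ 2 - a ^ 2) / 2) +
    4 * (g₁ * (p * s + q * r) + g₀ * q * s) * ((b ^ 3 - a ^ 3) / 3) +
    4 * g₁ * q * s * ((b ^ 4 - a ^ 4) / 4)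

lemma piece {f : ℝ → ℝ} {g₀ g₁ p q r s a b : ℝ} (hab : a ≤ b)
    (h : ∀ y ∈ Set.Icc a b, f y = (g₀ + g₁ * y) * (4 * (p + q * y) * (r + s * y))) :
    IntervalIntegrable f volume a b ∧ ∫ y in a..b, f y = JJ g₀ g₁ p q r s a b := by
  have hc : Continuous fun y : ℝ => (g₀ + g₁ * y) * (4 * (p + q * y) * (r + s * y)) := by
    fun_prop
  constructor
  · refine (hc.intervalIntegrable a b).congr ?_
    intro y hy
    rw [Set.uIoc_of_le hab] at hy
    exact (h y ⟨hy.1.le, hy.2⟩).symm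
  · have e1 : ∫ y in a..b, f y =
        ∫ y in a..b, (g₀ + g₁ * y) * (4 * (p + q * y) * (r + s * y)) := by
      apply intervalIntegral.integral_congr
      intro y hy
      rw [Set.uIcc_of_le hab] at hy
      exact h y hy
    rw [e1]
    have hd : ∀ y ∈ Set.uIcc a b, HasDerivAt (fun y : ℝ => 4 * g₀ * p * r * y +
        4 * (g₁ * p * r + g₀ * (p * s + q * r)) * (y ^ 2 / 2) +
        4 * (g₁ * (p * s + q * r) + g₀ * q * s) * (y ^ 3 / 3) +
        4 * g₁ * q * s * (y ^ 4 / 4))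
        ((g₀ + g₁ * y) * (4 * (p + q * y) * (r + s * y))) y := by
      intro y _
      have h1 : HasDerivAt (fun y : ℝ => y) 1 y := hasDerivAt_id y
      have h2 := ((h1.const_mul (4 * g₀ * p * r)).add
        (((h1.pow 2).div_const 2).const_mul (4 * (g₁ * p * r + g₀ * (p * s + q * r))))).add
        (((h1.pow 3).div_const 3).const_mul (4 * (g₁ * (p * s + q * r) + g₀ * q * s))) |>.add
        (((h1.pow 4).div_const 4).const_mul (4 * g₁ * q * s))
      refine h2.congr_deriv ?_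
      simp
      ring
    rw [intervalIntegral.integral_eq_sub_of_hasDerivAt hd (hc.intervalIntegrable a b), JJ]
    ring

lemma glue {f : ℝ → ℝ} {a b c I₁ I₂ : ℝ}
    (h₁ : IntervalIntegrable f volume a b ∧ ∫ y in a..b, f y = I₁)
    (h₂ : IntervalIntegrable f volume b c ∧ ∫ y in b..c, f y = I₂) :
    IntervalIntegrable f volume a c ∧ ∫ y in a..c, f y = I₁ + I₂ :=
  ⟨h₁.1.trans h₂.1, by rw [← intervalIntegral.integral_add_adjacent_intervals h₁.1 h₂.1,
    h₁.2, h₂.2]⟩

lemma area_0 {y : ℝ} (h1 : 0 ≤ y) (h2 : y ≤ 1) :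
    areaAt y = 4 * ((5) + (3) * y) * ((1) + (1440) * y) :=
  vol_box (by linarith) (by linarith) fun w => slice_0 h1 h2 (w 0) (w 1)

lemma area_1 {y : ℝ} (h1 : 1 ≤ y) (h2 : y ≤ 4) :
    areaAt y = 4 * ((19/3) + (5/3) * y) * ((1481) + (-40) * y) :=
  vol_box (by linarith) (by linarith) fun w => slice_1 h1 h2 (w 0) (w 1)

lemma area_2 {y : ℝ} (h1 : 4 ≤ y) (h2 : y ≤ 8) :
    areaAt y = 4 * ((10) + (3/4) * y) * ((1481) + (-40) * y) :=
  vol_box (by linarith) (by linarith) fun w => slice_2 h1 h2 (w 0) (w 1)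

lemma area_3 {y : ℝ} (h1 : 8 ≤ y) (h2 : y ≤ 11) :
    areaAt y = 4 * ((40/3) + (1/3) * y) * ((1481) + (-40) * y) :=
  vol_box (by linarith) (by linarith) fun w => slice_3 h1 h2 (w 0) (w 1)

lemma area_4 {y : ℝ} (h1 : 11 ≤ y) (h2 : y ≤ 17) :
    areaAt y = 4 * ((91/6) + (1/6) * y) * ((1481) + (-40) * y) :=
  vol_box (by linarith) (by linarith) fun w => slice_4 h1 h2 (w 0) (w 1)

lemma area_5 {y : ℝ} (h1 : 17 ≤ y) (h2 : y ≤ 22) :
    areaAt y = 4 * ((107/5) + (-1/5) * y) * ((1481) + (-40) * y) :=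
  vol_box (by linarith) (by linarith) fun w => slice_5 h1 h2 (w 0) (w 1)

lemma area_6 {y : ℝ} (h1 : 22 ≤ y) (h2 : y ≤ 24) :
    areaAt y = 4 * ((28) + (-1/2) * y) * ((1481) + (-40) * y) :=
  vol_box (by linarith) (by linarith) fun w => slice_6 h1 h2 (w 0) (w 1)

lemma area_7 {y : ℝ} (h1 : 24 ≤ y) (h2 : y ≤ 30) :
    areaAt y = 4 * ((32) + (-2/3) * y) * ((1481) + (-40) * y) :=
  vol_box (by linarith) (by linarith) fun w => slice_7 h1 h2 (w 0) (w 1)

lemma area_8 {y : ℝ} (h1 : 30 ≤ y) (h2 : y ≤ 33) :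
    areaAt y = 4 * ((52) + (-4/3) * y) * ((1481) + (-40) * y) :=
  vol_box (by linarith) (by linarith) fun w => slice_8 h1 h2 (w 0) (w 1)

lemma area_9 {y : ℝ} (h1 : 33 ≤ y) (h2 : y ≤ 37) :
    areaAt y = 4 * ((74) + (-2) * y) * ((1481) + (-40) * y) :=
  vol_box (by linarith) (by linarith) fun w => slice_9 h1 h2 (w 0) (w 1)

lemma total (g₀ g₁ : ℝ) : ∫ p in body, (g₀ + g₁ * p 1) =
    JJ g₀ g₁ (5) (3) (1) (1440) 0 1 +
    JJ g₀ g₁ (19/3) (5/3) (1481) (-40) 1 4 +
    JJ g₀ g₁ (10) (3/4) (1481) (-40) 4 8 +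
    JJ g₀ g₁ (40/3) (1/3) (1481) (-40) 8 11 +
    JJ g₀ g₁ (91/6) (1/6) (1481) (-40) 11 17 +
    JJ g₀ g₁ (107/5) (-1/5) (1481) (-40) 17 22 +
    JJ g₀ g₁ (28) (-1/2) (1481) (-40) 22 24 +
    JJ g₀ g₁ (32) (-2/3) (1481) (-40) 24 30 +
    JJ g₀ g₁ (52) (-4/3) (1481) (-40) 30 33 +
    JJ g₀ g₁ (74) (-2) (1481) (-40) 33 37 := by
  have h := integral_body (g := fun y => g₀ + g₁ * y) (by fun_prop)
  have h0 : ∫ y, (g₀ + g₁ * y) * areaAt y = ∫ y in Set.Icc 0 37, (g₀ + g₁ * y) * areaAt y := by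
    symm
    apply setIntegral_eq_integral_of_forall_compl_eq_zero
    intro y hy
    rw [Set.mem_Icc, not_and_or, not_le, not_le] at hy
    rcases hy with hy | hy
    · rw [areaAt_neg hy, mul_zero]
    · rw [areaAt_big hy, mul_zero]
  rw [h, h0, integral_Icc_eq_integral_Ioc, ← intervalIntegral.integral_of_le (by norm_num)]
  have p0 := piece (f := fun y => (g₀ + g₁ * y) * areaAt y) (g₀ := g₀) (g₁ := g₁)
    (p := (5)) (q := (3)) (r := (1)) (s := (1440)) (a := 0) (b := 1) (by norm_num)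
    (fun y hy => by simp only [area_0 hy.1 hy.2])
  have p1 := piece (f := fun y => (g₀ + g₁ * y) * areaAt y) (g₀ := g₀) (g₁ := g₁)
    (p := (19/3)) (q := (5/3)) (r := (1481)) (s := (-40)) (a := 1) (b := 4) (by norm_num)
    (fun y hy => by simp only [area_1 hy.1 hy.2])
  have p2 := piece (f := fun y => (g₀ + g₁ * y) * areaAt y) (g₀ := g₀) (g₁ := g₁)
    (p := (10)) (q := (3/4)) (r := (1481)) (s := (-40)) (a := 4) (b := 8) (by norm_num)
    (fun y hy => by simp only [area_2 hy.1 hy.2])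
  have p3 := piece (f := fun y => (g₀ + g₁ * y) * areaAt y) (g₀ := g₀) (g₁ := g₁)
    (p := (40/3)) (q := (1/3)) (r := (1481)) (s := (-40)) (a := 8) (b := 11) (by norm_num)
    (fun y hy => by simp only [area_3 hy.1 hy.2])
  have p4 := piece (f := fun y => (g₀ + g₁ * y) * areaAt y) (g₀ := g₀) (g₁ := g₁)
    (p := (91/6)) (q := (1/6)) (r := (1481)) (s := (-40)) (a := 11) (b := 17) (by norm_num)
    (fun y hy => by simp only [area_4 hy.1 hy.2])
  have p5 := piece (f := fun y => (g₀ + g₁ * y) * areaAt y) (g₀ := g₀) (g₁ := g₁)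
    (p := (107/5)) (q := (-1/5)) (r := (1481)) (s := (-40)) (a := 17) (b := 22) (by norm_num)
    (fun y hy => by simp only [area_5 hy.1 hy.2])
  have p6 := piece (f := fun y => (g₀ + g₁ * y) * areaAt y) (g₀ := g₀) (g₁ := g₁)
    (p := (28)) (q := (-1/2)) (r := (1481)) (s := (-40)) (a := 22) (b := 24) (by norm_num)
    (fun y hy => by simp only [area_6 hy.1 hy.2])
  have p7 := piece (f := fun y => (g₀ + g₁ * y) * areaAt y) (g₀ := g₀) (g₁ := g₁)
    (p := (32)) (q := (-2/3)) (r := (1481)) (s := (-40)) (a := 24) (b := 30) (by norm_num)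
    (fun y hy => by simp only [area_7 hy.1 hy.2])
  have p8 := piece (f := fun y => (g₀ + g₁ * y) * areaAt y) (g₀ := g₀) (g₁ := g₁)
    (p := (52)) (q := (-4/3)) (r := (1481)) (s := (-40)) (a := 30) (b := 33) (by norm_num)
    (fun y hy => by simp only [area_8 hy.1 hy.2])
  have p9 := piece (f := fun y => (g₀ + g₁ * y) * areaAt y) (g₀ := g₀) (g₁ := g₁)
    (p := (74)) (q := (-2)) (r := (1481)) (s := (-40)) (a := 33) (b := 37) (by norm_num)
    (fun y hy => by simp only [area_9 hy.1 hy.2])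
  exact (glue (glue (glue (glue (glue (glue (glue (glue (glue (p0) p1) p2) p3) p4) p5) p6) p7) p8) p9).2

lemma vol_eq : ∫ _p in body, (1 : ℝ) = 4726252/3 := by
  have h := total 1 0
  simp only [zero_mul, add_zero] at h
  rw [h]
  simp only [JJ]
  norm_num

lemma mom_eq : ∫ p in body, (p 1 : ℝ) = 20798542 := by
  have h := total 0 1
  simp only [one_mul, zero_add] at h
  rw [h]
  simp only [JJ]
  norm_num

end Pool.Agent.R170.Uni
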