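import Mathlib
import Pool.Agent.R170.UniVol

/-!
# The polyhedron with 25 faces rests only on its bottom face, which is the face of least diameter
-/

namespace Pool.Agent.R170.Uni

open MeasureTheory Module

/-! ### the centre of mass -/

lemma integrableOn_id_body : IntegrableOn (fun x : E3 => x) body :=
  ContinuousOn.integrableOn_compact isCompact_body continuousOn_id

lemma massCenter_apply (i : Fin 3) :
    massCenter body i = (∫ _p in body, (1 : ℝ))⁻¹ * ∫ p in body, (p i : ℝ) := by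
  have h1 : (∫ x in body, x) i = ∫ p in body, (p i : ℝ) := by
    have := (EuclideanSpace.proj (𝕜 := ℝ) i).integral_comp_comm integrableOn_id_body
    exact this.symm
  have h2 : (∫ _p in body, (1 : ℝ)) = (volume : Measure E3).real body := by
    rw [setIntegral_const, smul_eq_mul, mul_one]
  rw [massCenter, setAverage_eq, PiLp.smul_apply, smul_eq_mul, h1, h2]

/-- rotation by a half turn about the vertical axis -/
noncomputable def rot : E3 ≃ₗᵢ[ℝ] E3 :=
  LinearIsometryEquiv.piLpCongrRight 2 (fun i : Fin 3 =>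
    if i = 1 then LinearIsometryEquiv.refl ℝ ℝ else LinearIsometryEquiv.neg ℝ)

lemma rot_ne {i : Fin 3} (hi : i ≠ 1) (p : E3) : rot p i = - p i := by
  simp [rot, hi]

lemma rot_one (p : E3) : rot p 1 = p 1 := by
  simp [rot]

lemma rot_preimage : rot ⁻¹' body = body := by
  ext p
  rw [Set.mem_preimage, mem_body_iff, mem_body_iff, rot_one, rot_ne (by decide), rot_ne (by decide)]
  constructor
  · rintro ⟨h0, h1, h2, h3, h4, h5, h6, h7, h8, h9, h10, h11, h12, h13, h14, h15, h16, h17, h18,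
      h19, h20, h21, h22, h23, h24⟩
    refine ⟨?_, ?_, ?_, ?_, ?_, ?_, ?_, ?_, ?_, ?_, ?_, ?_, ?_, ?_, ?_, ?_, ?_, ?_, ?_, ?_, ?_, ?_,
      ?_, ?_, ?_⟩ <;> linarith
  · rintro ⟨h0, h1, h2, h3, h4, h5, h6, h7, h8, h9, h10, h11, h12, h13, h14, h15, h16, h17, h18,
      h19, h20, h21, h22, h23, h24⟩
    refine ⟨?_, ?_, ?_, ?_, ?_, ?_, ?_, ?_, ?_, ?_, ?_, ?_, ?_, ?_, ?_, ?_, ?_, ?_, ?_, ?_, ?_, ?_,
      ?_, ?_, ?_⟩ <;> linarith

lemma integral_coord_zero {i : Fin 3} (hi : i ≠ 1) : ∫ p in body, (p i : ℝ) = 0 := by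
  have h := (rot.measurePreserving).setIntegral_preimage_emb
    rot.toHomeomorph.measurableEmbedding (fun p : E3 => (p i : ℝ)) body
  rw [rot_preimage] at h
  simp only [rot_ne hi] at h
  rw [integral_neg] at h
  linarith

lemma center_zero {i : Fin 3} (hi : i ≠ 1) : massCenter body i = 0 := by
  rw [massCenter_apply, integral_coord_zero hi, mul_zero]

lemma center_one : massCenter body 1 = 31197813 / 2363126 := by
  rw [massCenter_apply, vol_eq, mom_eq]
  norm_num

/-! ### general facts about the 2-faces -/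

/-- the subset of the body in the plane of the `i`-th inequality -/
def facet (i : Fin 25) : Set E3 := {x | x ∈ body ∧ inner ℝ (nv i) x = bv i}

lemma nv_ne (i : Fin 25) : nv i ≠ 0 := by
  intro h
  have h0 : nv i 0 = 0 := by rw [h]; rfl
  have h1 : nv i 1 = 0 := by rw [h]; rfl
  revert h0 h1
  fin_cases i <;> simp [nv, cf]

lemma strict_point (i : Fin 25) : inner ℝ (nv i) (!₂[0, 1, 0] : E3) < bv i := by
  rw [inner_nv, bv]
  fin_cases i <;> simp [cf] <;> norm_num

lemma interior_body : (interior body).Nonempty := by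
  refine ⟨!₂[0, 1, 0], mem_interior.2 ⟨⋂ i, {x : E3 | inner ℝ (nv i) x < bv i}, ?_, ?_, ?_⟩⟩
  · intro x hx i
    exact (Set.mem_iInter.1 hx i).le
  · exact isOpen_iInter_of_finite fun i => isOpen_lt (by fun_prop) continuous_const
  · exact Set.mem_iInter.2 strict_point

lemma face_cases {F : Set E3} (hF : IsFace2 body F) :
    ∃ i, F = facet i ∧ vectorSpan ℝ F = (ℝ ∙ nv i)ᗮ :=
  face2_eq (by simp) strict_point nv_ne hF.1 hF.2

lemma facet_le (i : Fin 25) : vectorSpan ℝ (facet i) ≤ (ℝ ∙ nv i)ᗮ := by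
  rw [vectorSpan_def, Submodule.span_le]
  rintro v ⟨x, hx, y, hy, rfl⟩
  change x - y ∈ (ℝ ∙ nv i)ᗮ
  rw [Submodule.mem_orthogonal_singleton_iff_inner_right, inner_sub_right, hx.2, hy.2, sub_self]

/-! ### the bottom face -/

lemma zero_strict {i : Fin 25} (hi : i ≠ 0) : inner ℝ (nv i) (0 : E3) < bv i := by
  rw [inner_zero_right, bv]
  revert hi
  fin_cases i <;> simp [cf]

lemma zero_mem_facet : (0 : E3) ∈ facet 0 := by
  refine ⟨fun i => ?_, ?_⟩
  · by_cases hi : i = 0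
    · subst hi
      simp [bv, cf]
    · exact (zero_strict hi).le
  · simp [bv, cf]

lemma facet0_span : vectorSpan ℝ (facet 0) = (ℝ ∙ nv 0)ᗮ := by
  apply le_antisymm (facet_le 0)
  intro v hv
  rw [Submodule.mem_orthogonal_singleton_iff_inner_right] at hv
  obtain ⟨t, ht, hmem⟩ := exists_small (a := nv) (b := bv) (p := (0 : E3)) (v := v) (by
    intro i
    by_cases hi : i = 0
    · left; rw [hi, hv]
    · right; exact zero_strict hi) zero_mem_facet.1
  rw [zero_add] at hmem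
  have h1 : t • v ∈ facet 0 := by
    refine ⟨hmem, ?_⟩
    rw [inner_smul_right, hv]
    simp [bv, cf]
  have h2 := vsub_mem_vectorSpan ℝ h1 zero_mem_facet
  rw [vsub_eq_sub, sub_zero] at h2
  have h3 := Submodule.smul_mem (vectorSpan ℝ (facet 0)) t⁻¹ h2
  rwa [smul_smul, inv_mul_cancel₀ ht.ne', one_smul] at h3

lemma facet0_face : IsFace2 body (facet 0) := by
  constructor
  · intro _
    refine ⟨innerSL ℝ (nv 0), ?_⟩
    ext x
    constructor
    · rintro ⟨hx, h⟩
      refine ⟨hx, fun y hy => ?_⟩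
      rw [innerSL_apply_apply, innerSL_apply_apply, h]
      exact hy 0
    · rintro ⟨hx, h⟩
      refine ⟨hx, le_antisymm (hx 0) ?_⟩
      have := h 0 zero_mem_facet.1
      rw [innerSL_apply_apply, innerSL_apply_apply, zero_mem_facet.2] at this
      exact this
  · rw [facet0_span]
    have : Fact (finrank ℝ E3 = 2 + 1) := ⟨by simp⟩
    exact Submodule.finrank_orthogonal_span_singleton (nv_ne 0)

lemma zero_mem_intrinsic : (0 : E3) ∈ intrinsicInterior ℝ (facet 0) := by
  rw [mem_intrinsicInterior]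
  have hz : (0 : E3) ∈ affineSpan ℝ (facet 0) := subset_affineSpan ℝ _ zero_mem_facet
  refine ⟨⟨0, hz⟩, ?_, rfl⟩
  rw [mem_interior]
  refine ⟨⋂ i : {i : Fin 25 // i ≠ 0},
    {x : affineSpan ℝ (facet 0) | inner ℝ (nv i) (x : E3) < bv i}, ?_, ?_, ?_⟩
  · intro x hx
    have h0 : inner ℝ (nv 0) (x : E3) = bv 0 := by
      have h1 : (x : E3) -ᵥ (0 : E3) ∈ vectorSpan ℝ (facet 0) := by
        rw [← direction_affineSpan]
        exact AffineSubspace.vsub_mem_direction x.2 hz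
      have h2 := facet_le 0 h1
      rw [Submodule.mem_orthogonal_singleton_iff_inner_right, vsub_eq_sub, sub_zero] at h2
      rw [h2]
      simp [bv, cf]
    refine ⟨fun i => ?_, h0⟩
    by_cases hi : i = 0
    · rw [hi, h0]
    · exact (Set.mem_iInter.1 hx ⟨i, hi⟩).le
  · exact isOpen_iInter_of_finite fun i => isOpen_lt (by fun_prop) continuous_const
  · exact Set.mem_iInter.2 fun i => zero_strict i.2

lemma stable0 : StableOn body (facet 0) := by
  refine ⟨0, zero_mem_intrinsic, fun v hv => ?_⟩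
  have h1 := facet_le 0 hv
  rw [Submodule.mem_orthogonal_singleton_iff_inner_right, inner_nv] at h1
  simp [cf] at h1
  rw [sub_zero, PiLp.inner_apply, Fin.sum_univ_three, center_zero (by decide),
    center_zero (i := 2) (by decide), h1]
  simp

/-! ### the other faces -/

lemma not_stable {i : Fin 25} (hi : i ≠ 0) (hspan : vectorSpan ℝ (facet i) = (ℝ ∙ nv i)ᗮ) :
    ¬ StableOn body (facet i) := by
  rintro ⟨q, hq, hv⟩
  have hq' : q ∈ facet i := intrinsicInterior_subset hq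
  obtain ⟨s, hs⟩ := foot_eq hspan hv
  obtain ⟨hb, he⟩ := hq'
  rw [mem_body_iff] at hb
  rw [inner_nv] at he
  have e0 : q 0 = - (s * cf i 0) := by
    rw [hs, PiLp.sub_apply, center_zero (by decide), PiLp.smul_apply]
    simp [nv]
  have e1 : q 1 = 31197813 / 2363126 - s * cf i 1 := by
    rw [hs, PiLp.sub_apply, center_one, PiLp.smul_apply]
    simp [nv]
  have e2 : q 2 = - (s * cf i 2) := by
    rw [hs, PiLp.sub_apply, center_zero (by decide), PiLp.smul_apply]
    simp [nv]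
  rw [e0, e1, e2] at hb he
  obtain ⟨h0, h1, h2, h3, h4, h5, h6, h7, h8, h9, h10, h11, h12, h13, h14, h15, h16, h17, h18,
      h19, h20, h21, h22, h23, h24⟩ := hb
  rw [bv] at he
  clear hs hv hq hspan e0 e1 e2
  fin_cases i
  · exact absurd rfl hi
  · simp [cf] at he h0 h1 h2 h3 h4 h5 h6 h7 h8 h9 h10 h11 h12 h13 h14 h15 h16 h17 h18 h19 h20 h21 h22 h23 h24
    linarith
  · simp [cf] at he h0 h1 h2 h3 h4 h5 h6 h7 h8 h9 h10 h11 h12 h13 h14 h15 h16 h17 h18 h19 h20 h21 h22 h23 h24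
    linarith
  · simp [cf] at he h0 h1 h2 h3 h4 h5 h6 h7 h8 h9 h10 h11 h12 h13 h14 h15 h16 h17 h18 h19 h20 h21 h22 h23 h24
    linarith
  · simp [cf] at he h0 h1 h2 h3 h4 h5 h6 h7 h8 h9 h10 h11 h12 h13 h14 h15 h16 h17 h18 h19 h20 h21 h22 h23 h24
    linarith
  · simp [cf] at he h0 h1 h2 h3 h4 h5 h6 h7 h8 h9 h10 h11 h12 h13 h14 h15 h16 h17 h18 h19 h20 h21 h22 h23 h24
    linarith
  · simp [cf] at he h0 h1 h2 h3 h4 h5 h6 h7 h8 h9 h10 h11 h12 h13 h14 h15 h16 h17 h18 h19 h20 h21 h22 h23 h24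
    linarith
  · simp [cf] at he h0 h1 h2 h3 h4 h5 h6 h7 h8 h9 h10 h11 h12 h13 h14 h15 h16 h17 h18 h19 h20 h21 h22 h23 h24
    linarith
  · simp [cf] at he h0 h1 h2 h3 h4 h5 h6 h7 h8 h9 h10 h11 h12 h13 h14 h15 h16 h17 h18 h19 h20 h21 h22 h23 h24
    linarith
  · simp [cf] at he h0 h1 h2 h3 h4 h5 h6 h7 h8 h9 h10 h11 h12 h13 h14 h15 h16 h17 h18 h19 h20 h21 h22 h23 h24
    linarith
  · simp [cf] at he h0 h1 h2 h3 h4 h5 h6 h7 h8 h9 h10 h11 h12 h13 h14 h15 h16 h17 h18 h19 h20 h21 h22 h23 h24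
    linarith
  · simp [cf] at he h0 h1 h2 h3 h4 h5 h6 h7 h8 h9 h10 h11 h12 h13 h14 h15 h16 h17 h18 h19 h20 h21 h22 h23 h24
    linarith
  · simp [cf] at he h0 h1 h2 h3 h4 h5 h6 h7 h8 h9 h10 h11 h12 h13 h14 h15 h16 h17 h18 h19 h20 h21 h22 h23 h24
    linarith
  · simp [cf] at he h0 h1 h2 h3 h4 h5 h6 h7 h8 h9 h10 h11 h12 h13 h14 h15 h16 h17 h18 h19 h20 h21 h22 h23 h24
    linarith
  · simp [cf] at he h0 h1 h2 h3 h4 h5 h6 h7 h8 h9 h10 h11 h12 h13 h14 h15 h16 h17 h18 h19 h20 h21 h22 h23 h24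
    linarith
  · simp [cf] at he h0 h1 h2 h3 h4 h5 h6 h7 h8 h9 h10 h11 h12 h13 h14 h15 h16 h17 h18 h19 h20 h21 h22 h23 h24
    linarith
  · simp [cf] at he h0 h1 h2 h3 h4 h5 h6 h7 h8 h9 h10 h11 h12 h13 h14 h15 h16 h17 h18 h19 h20 h21 h22 h23 h24
    linarith
  · simp [cf] at he h0 h1 h2 h3 h4 h5 h6 h7 h8 h9 h10 h11 h12 h13 h14 h15 h16 h17 h18 h19 h20 h21 h22 h23 h24
    linarith
  · simp [cf] at he h0 h1 h2 h3 h4 h5 h6 h7 h8 h9 h10 h11 h12 h13 h14 h15 h16 h17 h18 h19 h20 h21 h22 h23 h24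
    linarith
  · simp [cf] at he h0 h1 h2 h3 h4 h5 h6 h7 h8 h9 h10 h11 h12 h13 h14 h15 h16 h17 h18 h19 h20 h21 h22 h23 h24
    linarith
  · simp [cf] at he h0 h1 h2 h3 h4 h5 h6 h7 h8 h9 h10 h11 h12 h13 h14 h15 h16 h17 h18 h19 h20 h21 h22 h23 h24
    linarith
  · simp [cf] at he h0 h1 h2 h3 h4 h5 h6 h7 h8 h9 h10 h11 h12 h13 h14 h15 h16 h17 h18 h19 h20 h21 h22 h23 h24
    linarith
  · simp [cf] at he h0 h1 h2 h3 h4 h5 h6 h7 h8 h9 h10 h11 h12 h13 h14 h15 h16 h17 h18 h19 h20 h21 h22 h23 h24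
    linarith
  · simp [cf] at he h0 h1 h2 h3 h4 h5 h6 h7 h8 h9 h10 h11 h12 h13 h14 h15 h16 h17 h18 h19 h20 h21 h22 h23 h24
    linarith
  · simp [cf] at he h0 h1 h2 h3 h4 h5 h6 h7 h8 h9 h10 h11 h12 h13 h14 h15 h16 h17 h18 h19 h20 h21 h22 h23 h24
    linarith

lemma diam_ge (i : Fin 25) (x y z x' y' z' : ℝ) (h : Ineqs x y z) (h' : Ineqs x' y' z')
    (e : (cf i 0 : ℝ) * x + (cf i 1 : ℝ) * y + (cf i 2 : ℝ) * z = cf i 3)
    (e' : (cf i 0 : ℝ) * x' + (cf i 1 : ℝ) * y' + (cf i 2 : ℝ) * z' = cf i 3)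
    (hd : 144 ≤ (x - x') ^ 2 + (y - y') ^ 2 + (z - z') ^ 2) :
    12 ≤ Metric.diam (facet i) := by
  have m1 : (!₂[x, y, z] : E3) ∈ facet i := by
    refine ⟨?_, ?_⟩
    · rw [mem_body_iff]; exact h
    · rw [inner_nv, bv]; exact e
  have m2 : (!₂[x', y', z'] : E3) ∈ facet i := by
    refine ⟨?_, ?_⟩
    · rw [mem_body_iff]; exact h'
    · rw [inner_nv, bv]; exact e'
  have hb : Bornology.IsBounded (facet i) :=
    isCompact_body.isBounded.subset fun x hx => hx.1
  refine le_trans ?_ (Metric.dist_le_diam_of_mem hb m1 m2)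
  rw [EuclideanSpace.dist_eq, Fin.sum_univ_three]
  apply Real.le_sqrt_of_sq_le
  simp only [Real.dist_eq, sq_abs]
  simp
  linarith

lemma diam_other {i : Fin 25} (hi : i ≠ 0) : 12 ≤ Metric.diam (facet i) := by
  fin_cases i
  · exact absurd rfl hi
  · exact diam_ge 1 8 1 20 8 1 (-20) (by unfold Ineqs; norm_num) (by unfold Ineqs; norm_num)
      (by simp [cf] <;> norm_num) (by simp [cf] <;> norm_num) (by norm_num)
  · exact diam_ge 2 (-8) 1 20 (-8) 1 (-20) (by unfold Ineqs; norm_num) (by unfold Ineqs; norm_num)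
      (by simp [cf] <;> norm_num) (by simp [cf] <;> norm_num) (by norm_num)
  · exact diam_ge 3 13 4 20 13 4 (-20) (by unfold Ineqs; norm_num) (by unfold Ineqs; norm_num)
      (by simp [cf] <;> norm_num) (by simp [cf] <;> norm_num) (by norm_num)
  · exact diam_ge 4 (-13) 4 20 (-13) 4 (-20) (by unfold Ineqs; norm_num) (by unfold Ineqs; norm_num)
      (by simp [cf] <;> norm_num) (by simp [cf] <;> norm_num) (by norm_num)
  · exact diam_ge 5 16 8 20 16 8 (-20) (by unfold Ineqs; norm_num) (by unfold Ineqs; norm_num)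
      (by simp [cf] <;> norm_num) (by simp [cf] <;> norm_num) (by norm_num)
  · exact diam_ge 6 (-16) 8 20 (-16) 8 (-20) (by unfold Ineqs; norm_num) (by unfold Ineqs; norm_num)
      (by simp [cf] <;> norm_num) (by simp [cf] <;> norm_num) (by norm_num)
  · exact diam_ge 7 17 11 20 17 11 (-20) (by unfold Ineqs; norm_num) (by unfold Ineqs; norm_num)
      (by simp [cf] <;> norm_num) (by simp [cf] <;> norm_num) (by norm_num)
  · exact diam_ge 8 (-17) 11 20 (-17) 11 (-20) (by unfold Ineqs; norm_num) (by unfold Ineqs; norm_num)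
      (by simp [cf] <;> norm_num) (by simp [cf] <;> norm_num) (by norm_num)
  · exact diam_ge 9 18 17 20 18 17 (-20) (by unfold Ineqs; norm_num) (by unfold Ineqs; norm_num)
      (by simp [cf] <;> norm_num) (by simp [cf] <;> norm_num) (by norm_num)
  · exact diam_ge 10 (-18) 17 20 (-18) 17 (-20) (by unfold Ineqs; norm_num) (by unfold Ineqs; norm_num)
      (by simp [cf] <;> norm_num) (by simp [cf] <;> norm_num) (by norm_num)
  · exact diam_ge 11 17 22 20 17 22 (-20) (by unfold Ineqs; norm_num) (by unfold Ineqs; norm_num)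
      (by simp [cf] <;> norm_num) (by simp [cf] <;> norm_num) (by norm_num)
  · exact diam_ge 12 (-17) 22 20 (-17) 22 (-20) (by unfold Ineqs; norm_num) (by unfold Ineqs; norm_num)
      (by simp [cf] <;> norm_num) (by simp [cf] <;> norm_num) (by norm_num)
  · exact diam_ge 13 16 24 20 16 24 (-20) (by unfold Ineqs; norm_num) (by unfold Ineqs; norm_num)
      (by simp [cf] <;> norm_num) (by simp [cf] <;> norm_num) (by norm_num)
  · exact diam_ge 14 (-16) 24 20 (-16) 24 (-20) (by unfold Ineqs; norm_num) (by unfold Ineqs; norm_num)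
      (by simp [cf] <;> norm_num) (by simp [cf] <;> norm_num) (by norm_num)
  · exact diam_ge 15 12 30 20 12 30 (-20) (by unfold Ineqs; norm_num) (by unfold Ineqs; norm_num)
      (by simp [cf] <;> norm_num) (by simp [cf] <;> norm_num) (by norm_num)
  · exact diam_ge 16 (-12) 30 20 (-12) 30 (-20) (by unfold Ineqs; norm_num) (by unfold Ineqs; norm_num)
      (by simp [cf] <;> norm_num) (by simp [cf] <;> norm_num) (by norm_num)
  · exact diam_ge 17 8 33 20 8 33 (-20) (by unfold Ineqs; norm_num) (by unfold Ineqs; norm_num)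
      (by simp [cf] <;> norm_num) (by simp [cf] <;> norm_num) (by norm_num)
  · exact diam_ge 18 (-8) 33 20 (-8) 33 (-20) (by unfold Ineqs; norm_num) (by unfold Ineqs; norm_num)
      (by simp [cf] <;> norm_num) (by simp [cf] <;> norm_num) (by norm_num)
  · exact diam_ge 19 8 33 20 8 33 (-20) (by unfold Ineqs; norm_num) (by unfold Ineqs; norm_num)
      (by simp [cf] <;> norm_num) (by simp [cf] <;> norm_num) (by norm_num)
  · exact diam_ge 20 (-8) 33 20 (-8) 33 (-20) (by unfold Ineqs; norm_num) (by unfold Ineqs; norm_num)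
      (by simp [cf] <;> norm_num) (by simp [cf] <;> norm_num) (by norm_num)
  · exact diam_ge 21 0 0 1 0 1 1441 (by unfold Ineqs; norm_num) (by unfold Ineqs; norm_num)
      (by simp [cf] <;> norm_num) (by simp [cf] <;> norm_num) (by norm_num)
  · exact diam_ge 22 0 0 (-1) 0 1 (-1441) (by unfold Ineqs; norm_num) (by unfold Ineqs; norm_num)
      (by simp [cf] <;> norm_num) (by simp [cf] <;> norm_num) (by norm_num)
  · exact diam_ge 23 0 1 1441 0 37 1 (by unfold Ineqs; norm_num) (by unfold Ineqs; norm_num)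
      (by simp [cf] <;> norm_num) (by simp [cf] <;> norm_num) (by norm_num)
  · exact diam_ge 24 0 1 (-1441) 0 37 (-1) (by unfold Ineqs; norm_num) (by unfold Ineqs; norm_num)
      (by simp [cf] <;> norm_num) (by simp [cf] <;> norm_num) (by norm_num)

lemma diam_bottom : Metric.diam (facet 0) ≤ 11 := by
  apply Metric.diam_le_of_forall_dist_le (by norm_num)
  rintro x ⟨hx, ex⟩ y ⟨hy, ey⟩
  rw [mem_body_iff] at hx hy
  rw [inner_nv, bv] at ex ey
  simp [cf] at ex ey
  obtain ⟨-, a1, a2, -, -, -, -, -, -, -, -, -, -, -, -, -, -, -, -, -, -, a3, a4, -, -⟩ := hx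
  obtain ⟨-, b1, b2, -, -, -, -, -, -, -, -, -, -, -, -, -, -, -, -, -, -, b3, b4, -, -⟩ := hy
  rw [ex] at a1 a2 a3 a4
  rw [ey] at b1 b2 b3 b4
  rw [EuclideanSpace.dist_eq, Fin.sum_univ_three]
  apply Real.sqrt_le_iff.2
  refine ⟨by norm_num, ?_⟩
  simp only [Real.dist_eq, sq_abs]
  rw [ex, ey]
  have c1 : (x 0 - y 0) ^ 2 ≤ 10 ^ 2 := sq_le_sq' (by linarith) (by linarith)
  have c2 : (x 2 - y 2) ^ 2 ≤ 2 ^ 2 := sq_le_sq' (by linarith) (by linarith)
  linarith

/-! ### the main theorem -/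

lemma body_polyhedron : IsPolyhedron body :=
  ⟨isCompact_body, convex_HPoly, interior_body, finite_faces⟩

lemma body_resting : IsRestingFace body (facet 0) := by
  refine ⟨facet0_face, stable0, fun G hG hS => ?_⟩
  obtain ⟨i, rfl, hspan⟩ := face_cases hG
  by_cases hi : i = 0
  · rw [hi]
  · exact absurd hS (not_stable hi hspan)

lemma body_diam {G : Set E3} (hG : IsFace2 body G) (hne : G ≠ facet 0) :
    Metric.diam (facet 0) < Metric.diam G := by
  obtain ⟨i, rfl, hspan⟩ := face_cases hG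
  have hi : i ≠ 0 := by
    rintro rfl
    exact hne rfl
  have h1 := diam_bottom
  have h2 := diam_other hi
  linarith

end Pool.Agent.R170.Uni
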